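import Pool.Agent.Lib.MP_4b91fc_lc.Par

set_option autoImplicit false

/-!
# Invariants of the run and its correctness
-/

namespace Pool.Agent.Lib.MP_4b91fc_lc

open Function Finset

open scoped Nat

variable {n : ℕ}

theorem tot_addAt (a : ℕ → ℕ) (k m : ℕ) (hk : k ≤ n) :
    tot n (addAt a k m) = tot n a + m * k :=
  sum_addAt a (fun i => i) k m hk

theorem tot_congr (a b : ℕ → ℕ) (h : ∀ j ∈ range (n + 1), a j = b j) : tot n a = tot n b :=
  sum_congr rfl fun j hj => by rw [h j hj]

theorem strV_congr (p : ℕ) (a b : ℕ → ℕ) (h : ∀ j ∈ range (n + 1), a j = b j) :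
    strV n p a = strV n p b := by
  funext j
  unfold strV
  exact sum_congr rfl fun i hi => by rw [h i hi]

theorem mem_ks_step (T : Tb) (i : Ins) (κ : Key) (h : κ ∈ ks (step n T i)) :
    ∃ e ∈ T, κ ∈ ks (out n i e) := by
  have h1 := mem_merge _ _ h
  unfold ks at h1
  rw [List.mem_map] at h1
  obtain ⟨x, hx, hx2⟩ := h1
  rw [List.mem_flatMap] at hx
  obtain ⟨e, he, hxe⟩ := hx
  exact ⟨e, he, by
    unfold ks
    rw [List.mem_map]
    exact ⟨x, hxe, hx2⟩⟩

theorem mem_ks_out_inl (k : ℕ) (e : Key × Big) (κ : Key) (h : κ ∈ ks (out n (.inl k) e)) :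
    ∃ m, e.1.2 + k * m ≤ n ∧ κ = (tb n (addAt (vf e.1.1) k m), e.1.2 + k * m) := by
  unfold ks out at h
  rw [Sum.elim_inl, List.mem_map] at h
  obtain ⟨x, hx, hx2⟩ := h
  rw [List.mem_filterMap] at hx
  obtain ⟨m, -, hm⟩ := hx
  split_ifs at hm with h1
  refine ⟨m, h1, ?_⟩
  rw [← hx2]
  rw [Option.some_inj] at hm
  rw [← hm]

theorem mem_ks_out_inr (p : ℕ) (e : Key × Big) (κ : Key) (h : κ ∈ ks (out n (.inr p) e)) :
    κ = (tb n (strV n p (vf e.1.1)), e.1.2) := by
  unfold ks out at h
  rw [Sum.elim_inr, List.map_singleton, List.mem_singleton] at h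
  exact h

theorem StB.of_A {q : ℕ} {κ : Key} (h : StA n q κ) : StB n q κ := by
  obtain ⟨a, h1, h2, h3, h4⟩ := h
  refine ⟨a, fun _ => 0, by simpa using h1, h2, fun j hj => absurd rfl hj,
    fun j hj => absurd rfl hj, ?_, h4⟩
  have h5 : tot n (fun _ => 0) = 0 := by simp [tot]
  rw [h5]
  rw [add_mul] at h3
  omega

theorem StB.add {q k m : ℕ} {κ : Key} (h : StB n q κ) (hk : k ∈ blk n q)
    (hm : κ.2 + k * m ≤ n) : StB n q (tb n (addAt (vf κ.1) k m), κ.2 + k * m) := by
  obtain ⟨a, b, h1, h2, h3, h4, h5, h6⟩ := h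
  rw [mem_blk] at hk
  refine ⟨a, addAt b k m, ?_, h2, ?_, ?_, ?_, hm⟩
  · apply tb_congr
    intro j hj
    rw [h1]
    unfold addAt
    rw [vf_tb n _ j hj]
    ring
  · intro j hj
    unfold addAt at hj
    by_cases hjk : j = k
    · subst hjk
      exact ⟨hk.2.1, (smth_iff _ _ hk.2.1).mp hk.2.2.2⟩
    · rw [if_neg hjk, add_zero] at hj
      exact h3 j hj
  · intro j hj
    unfold addAt at hj
    by_cases hjk : j = k
    · subst hjk
      exact hk.2.2.1
    · rw [if_neg hjk, add_zero] at hj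
      exact h4 j hj
  · rw [tot_addAt _ _ _ hk.1, mul_comm m k]
    simp only
    omega

theorem StC.add {k m : ℕ} {κ : Key} (h : StC n κ) (hk : k ∈ fin2 n)
    (hm : κ.2 + k * m ≤ n) : StC n (tb n (addAt (vf κ.1) k m), κ.2 + k * m) := by
  obtain ⟨a, h1, h2, h3, h4⟩ := h
  rw [mem_fin2] at hk
  refine ⟨addAt a k m, ?_, ?_, ?_, hm⟩
  · apply tb_congr
    intro j hj
    rw [h1]
    unfold addAt
    rw [vf_tb n _ j hj]
  · intro j hj
    unfold addAt at hj
    by_cases hjk : j = k
    · subst hjk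
      exact ⟨hk.2.1, (smth_iff _ _ hk.2.1).mp hk.2.2⟩
    · rw [if_neg hjk, add_zero] at hj
      exact h2 j hj
  · rw [tot_addAt _ _ _ hk.1, mul_comm m k]
    simp only
    omega

theorem StA.of_B {q : ℕ} (hq : 1 ≤ q) {κ : Key} (h : StB n (q + 1) κ) :
    StA n q (tb n (strV n (q + 1) (vf κ.1)), κ.2) := by
  obtain ⟨a, b, h1, h2, h3, h4, h5, h6⟩ := h
  have e : strV n (q + 1) (vf κ.1) = strV n (q + 1) (fun j => a j + b j) := by
    rw [h1]
    exact strV_congr _ _ _ fun j hj => vf_tb n _ j hj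
  refine ⟨strV n (q + 1) (fun j => a j + b j), by rw [e], ?_, ?_, h6⟩
  · intro j hj
    obtain ⟨i, hi, hij⟩ : ∃ i ∈ range (n + 1), (if str n (q + 1) i = j then
        a i + b i else 0) ≠ 0 := exists_ne_zero_of_sum_ne_zero hj
    have h7 : str n (q + 1) i = j := by
      by_contra h7
      rw [if_neg h7] at hij
      exact hij rfl
    rw [if_pos h7] at hij
    have h8 : 1 ≤ i ∧ ∀ r, r.Prime → r ∣ i → r ≤ q + 1 := by
      by_cases ha : a i = 0
      · have hb : b i ≠ 0 := by omega
        exact h3 i hb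
      · exact h2 i ha
    have h9 : i ≤ n := Nat.lt_succ_iff.mp (mem_range.mp hi)
    rw [← h7]
    refine ⟨str_pos n _ i h8.1, fun r hr hri => ?_⟩
    have h10 := h8.2 r hr (hri.trans (str_dvd n _ i))
    rcases Nat.lt_or_ge r (q + 1) with h11 | h11
    · omega
    · have h12 : r = q + 1 := by omega
      rw [h12] at hri
      exact absurd hri (not_dvd_str n (q + 1) i (by omega) h8.1 h9)
  · have h7 : tot n (strV n (q + 1) (fun j => a j + b j)) =
        ∑ i ∈ range (n + 1), (a i + b i) * str n (q + 1) i :=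
      sum_strV (q + 1) (fun j => a j + b j) (fun j => j)
    refine le_trans ?_ h5
    rw [h7]
    unfold tot
    rw [mul_sum, mul_sum, ← sum_add_distrib]
    refine sum_le_sum fun i hi => ?_
    have h0 : (q + 1) * ((a i + b i) * str n (q + 1) i) =
        (q + 1) * (a i * str n (q + 1) i) + (q + 1) * (b i * str n (q + 1) i) := by ring
    rw [h0]
    apply Nat.add_le_add
    · exact Nat.mul_le_mul_left _ (Nat.mul_le_mul_left _ (str_le n _ i))
    · by_cases hb : b i = 0
      · rw [hb]
        simp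
      · have h8 := (h3 i hb).1
        have h9 : i ≤ n := Nat.lt_succ_iff.mp (mem_range.mp hi)
        have h10 := mul_str_le n (q + 1) i (by omega) (h4 i hb)
        calc (q + 1) * (b i * str n (q + 1) i) = b i * ((q + 1) * str n (q + 1) i) := by ring
          _ ≤ b i * i := Nat.mul_le_mul_left _ h10

theorem StA.pred {q : ℕ} (hq : ¬ (q + 1).Prime) {κ : Key} (h : StA n (q + 1) κ) : StA n q κ := by
  obtain ⟨a, h1, h2, h3, h4⟩ := h
  refine ⟨a, h1, fun j hj => ⟨(h2 j hj).1, fun r hr hrj => ?_⟩, ?_, h4⟩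
  · have h5 := (h2 j hj).2 r hr hrj
    have h6 : r ≠ q + 1 := fun h => hq (h ▸ hr)
    omega
  · exact le_trans (Nat.mul_le_mul_right _ (by omega)) h3

theorem StC.of_A {q : ℕ} (hq : q ≤ 2) {κ : Key} (h : StA n q κ) : StC n κ := by
  obtain ⟨a, h1, h2, h3, h4⟩ := h
  refine ⟨a, h1, fun j hj => ⟨(h2 j hj).1, fun r hr hrj => ((h2 j hj).2 r hr hrj).trans hq⟩,
    ?_, h4⟩
  exact le_trans (Nat.le_mul_of_pos_left _ (by omega)) h3

/-- run with truncation -/
def runT (n cap : ℕ) (is : List Ins) (T : Tb) : Tb :=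
  is.foldl (fun T i => (step n T i).take cap) T

theorem runT_append (cap : ℕ) (is js : List Ins) (T : Tb) :
    runT n cap (is ++ js) T = runT n cap js (runT n cap is T) :=
  List.foldl_append

theorem length_ks (T : Tb) : (ks T).length = T.length := List.length_map _

/-- one step inside a class of states of bounded size -/
theorem step_ok (cap : ℕ) (P Q : Key → Prop) (i : Ins) (T : Tb)
    (hQ : ∀ L : List Key, L.Nodup → (∀ κ ∈ L, Q κ) → L.length ≤ cap)
    (hT : ∀ κ ∈ ks T, P κ) (hPQ : ∀ e : Key × Big, P e.1 → ∀ κ ∈ ks (out n i e), Q κ) :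
    (step n T i).take cap = step n T i ∧ ∀ κ ∈ ks (step n T i), Q κ := by
  have h1 : ∀ κ ∈ ks (step n T i), Q κ := by
    intro κ hκ
    obtain ⟨e, he, h2⟩ := mem_ks_step T i κ hκ
    refine hPQ e (hT e.1 ?_) κ h2
    unfold ks
    rw [List.mem_map]
    exact ⟨e, he, rfl⟩
  refine ⟨?_, h1⟩
  apply List.take_of_length_le
  rw [← length_ks]
  exact hQ _ (nodup_merge _) h1

theorem block_ok (cap : ℕ) (P : Key → Prop) (l : List ℕ)
    (hP : ∀ L : List Key, L.Nodup → (∀ κ ∈ L, P κ) → L.length ≤ cap)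
    (hPP : ∀ k ∈ l, ∀ e : Key × Big, P e.1 → ∀ κ ∈ ks (out n (.inl k) e), P κ) :
    ∀ (T : Tb) (is : List Ins), (∀ κ ∈ ks T, P κ) →
      (∀ κ ∈ ks (runT n cap (l.map Sum.inl) T), P κ) ∧
      ev (runT n cap (l.map Sum.inl) T) (fun l t => fut n is (vf l) t) =
        ev T (fun v t => fut n (l.map Sum.inl ++ is) (vf v) t) := by
  induction l with
  | nil => intro T is h; exact ⟨h, rfl⟩
  | cons k l ih =>
    intro T is h
    obtain ⟨h1, h2⟩ := step_ok (n := n) cap P P (.inl k) T hP h
      (fun e he κ hκ => hPP k List.mem_cons_self e he κ hκ)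
    have h3 : runT n cap ((k :: l).map Sum.inl) T = runT n cap (l.map Sum.inl)
        (step n T (.inl k)) := by
      unfold runT
      rw [List.map_cons, List.foldl_cons, h1]
    obtain ⟨h4, h5⟩ := ih (fun j hj => hPP j (List.mem_cons_of_mem _ hj)) (step n T (.inl k))
      is h2
    rw [h3]
    refine ⟨h4, ?_⟩
    rw [h5, List.map_cons, List.cons_append, ← ev_step]

/-- sufficient table sizes -/
def Bnd (n X : ℕ) : Prop :=
  (∀ q, 3 ≤ q → q ≤ n → ∃ s, 1 ≤ s ∧ 1 + 2 * (psi q s + n / q / s) ≤ X) ∧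
    (∃ s, 1 ≤ s ∧ 1 + (psi 2 s + n / s) ≤ X)

theorem out_B (q k : ℕ) (hk : k ∈ blk n q) (e : Key × Big) (he : StB n q e.1) :
    ∀ κ ∈ ks (out n (.inl k) e), StB n q κ := by
  intro κ hκ
  obtain ⟨m, hm, rfl⟩ := mem_ks_out_inl k e κ hκ
  exact he.add hk hm

theorem out_C (k : ℕ) (hk : k ∈ fin2 n) (e : Key × Big) (he : StC n e.1) :
    ∀ κ ∈ ks (out n (.inl k) e), StC n κ := by
  intro κ hκ
  obtain ⟨m, hm, rfl⟩ := mem_ks_out_inl k e κ hκ
  exact he.add hk hm

/-- the state predicate before the instructions `insD n q` -/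
def StH (n q : ℕ) (κ : Key) : Prop := if q ≤ 2 then StC n κ else StA n q κ

theorem run_ok (X cap : ℕ) (hX : Bnd n X) (hcap : (n + 1) ^ X ≤ cap) (q : ℕ) (hqn : q ≤ n) :
    ∀ T : Tb, (∀ κ ∈ ks T, StH n q κ) →
      ev (runT n cap (insD n q) T) (fun l t => fut n [] (vf l) t) =
        ev T (fun l t => fut n (insD n q) (vf l) t) := by
  induction q with
  | zero =>
    intro T hT
    obtain ⟨s, hs, hsX⟩ := hX.2
    have hP : ∀ L : List Key, L.Nodup → (∀ κ ∈ L, StC n κ) → L.length ≤ cap := by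
      intro L hL h
      refine (count_StC s hs L hL h).trans (le_trans ?_ hcap)
      exact Nat.pow_le_pow_right (by omega) hsX
    have hT' : ∀ κ ∈ ks T, StC n κ := by
      intro κ hκ
      have := hT κ hκ
      unfold StH at this
      rwa [if_pos (by omega)] at this
    have h := (block_ok (n := n) cap (StC n) (fin2 n) hP (fun k hk e he => out_C k hk e he) T []
      hT').2
    rw [List.append_nil] at h
    exact h
  | succ q ih =>
    intro T hT
    rw [insD]
    split_ifs with hq
    · have hT' : ∀ κ ∈ ks T, StB n (q + 1) κ := by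
        intro κ hκ
        have := hT κ hκ
        unfold StH at this
        rw [if_neg (by omega)] at this
        exact StB.of_A this
      obtain ⟨s, hs, hsX⟩ := hX.1 (q + 1) hq.1 hqn
      have hP : ∀ L : List Key, L.Nodup → (∀ κ ∈ L, StB n (q + 1) κ) → L.length ≤ cap := by
        intro L hL h
        refine (count_StB (q + 1) s (by omega) hs L hL h).trans (le_trans ?_ hcap)
        exact Nat.pow_le_pow_right (by omega) hsX
      obtain ⟨h1, h2⟩ := block_ok (n := n) cap (StB n (q + 1)) (blk n (q + 1)) hP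
        (fun k hk e he => out_B (q + 1) k hk e he) T (Sum.inr (q + 1) :: insD n q) hT'
      obtain ⟨T', hT'def⟩ : ∃ T', T' = runT n cap ((blk n (q + 1)).map Sum.inl) T := ⟨_, rfl⟩
      rw [← hT'def] at h1 h2
      have hQ : ∀ L : List Key, L.Nodup → (∀ κ ∈ L, StA n q κ) → L.length ≤ cap := by
        intro L hL h
        by_cases hq2 : 3 ≤ q
        · obtain ⟨s, hs, hsX⟩ := hX.1 q hq2 (by omega)
          refine (count_StB q s (by omega) hs L hL (fun κ hκ => StB.of_A (h κ hκ))).trans
            (le_trans ?_ hcap)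
          exact Nat.pow_le_pow_right (by omega) hsX
        · obtain ⟨s, hs, hsX⟩ := hX.2
          refine (count_StC s hs L hL (fun κ hκ => StC.of_A (by omega) (h κ hκ))).trans
            (le_trans ?_ hcap)
          exact Nat.pow_le_pow_right (by omega) hsX
      obtain ⟨h3, h4⟩ := step_ok (n := n) cap (StB n (q + 1)) (StA n q) (.inr (q + 1)) T' hQ h1
        (fun e he κ hκ => by
          rw [mem_ks_out_inr _ e κ hκ]
          exact StA.of_B (by omega) he)
      have h5 : runT n cap ((blk n (q + 1)).map Sum.inl ++ [Sum.inr (q + 1)] ++ insD n q) T =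
          runT n cap (insD n q) (step n T' (.inr (q + 1))) := by
        rw [runT_append, runT_append, ← hT'def]
        unfold runT
        rw [List.foldl_cons, List.foldl_nil, h3]
      rw [h5, ih (by omega) _ (fun κ hκ => by
        have h6 := h4 κ hκ
        unfold StH
        split_ifs with h7
        · exact StC.of_A h7 h6
        · exact h6), ev_step, h2, List.append_assoc]
      rfl
    · rw [List.nil_append]
      apply ih (by omega)
      intro κ hκ
      have h1 := hT κ hκ
      unfold StH at h1 ⊢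
      split_ifs at h1 with h2
      · rw [if_pos (by omega)]
        exact h1
      · have h3 : ¬ (q + 1).Prime := fun h => hq ⟨by omega, h⟩
        have h4 := StA.pred h3 h1
        split_ifs with h5
        · exact StC.of_A h5 h4
        · exact h4

/-- the initial table -/
def T0 (n : ℕ) : Tb := [((tb n (fun _ => 0), 0), ⟨1⟩)]

/-- the final value -/
def fval (n : ℕ) (T : Tb) : ℕ := ev T (fun l t => if t = n then 2 ^ en n (vf l) else 0)

theorem main_ok (X cap : ℕ) (hX : Bnd n X) (hcap : (n + 1) ^ X ≤ cap) :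
    fval n (runT n cap (insD n n) (T0 n)) = n ! ^ n * numGraphs n := by
  have h1 := run_ok X cap hX hcap n le_rfl (T0 n) (by
    intro κ hκ
    have h2 : κ = (tb n (fun _ => 0), 0) := by
      unfold T0 ks at hκ
      rw [List.map_singleton, List.mem_singleton] at hκ
      exact hκ
    have h3 : tot n (fun _ => 0) = 0 := by simp [tot]
    have h4 : StA n n κ := by
      rw [h2]
      exact ⟨fun _ => 0, rfl, fun j hj => absurd rfl hj, by rw [h3]; simp, Nat.zero_le _⟩
    unfold StH
    split_ifs with h5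
    · exact StC.of_A h5 h4
    · exact h4)
  have h2 : fval n (runT n cap (insD n n) (T0 n)) =
      ev (runT n cap (insD n n) (T0 n)) (fun l t => fut n [] (vf l) t) := rfl
  rw [h2, h1]
  unfold T0
  rw [ev_cons, ev_nil, add_zero, one_mul]
  simp only
  rw [fut_congr _ _ _ _ (fun j hj => vf_tb n _ j hj), fut_insD]

end Pool.Agent.Lib.MP_4b91fc_lc
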