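import Pool.Agent.Lib.MP_4b91fc_lc.Psi
import Pool.Agent.Lib.MP_4b91fc_lc.Inv

set_option autoImplicit false

/-!
# The choice of the table size
-/

namespace Pool.Agent.Lib.MP_4b91fc_lc

open Function Finset Filter Asymptotics

theorem exists_const (f g : ℕ → ℝ) (h : ∀ᶠ k in atTop, f k ≤ g k) :
    ∃ K : ℝ, 0 ≤ K ∧ ∀ k, f k ≤ K + g k := by
  obtain ⟨k0, hk0⟩ := eventually_atTop.mp h
  have h0 : 0 ≤ ∑ k ∈ range k0, |f k - g k| := sum_nonneg fun _ _ => abs_nonneg _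
  refine ⟨∑ k ∈ range k0, |f k - g k|, h0, fun k => ?_⟩
  by_cases hk : k0 ≤ k
  · have := hk0 k hk
    linarith
  · have h1 : |f k - g k| ≤ ∑ k ∈ range k0, |f k - g k| :=
      single_le_sum (f := fun k => |f k - g k|) (fun _ _ => abs_nonneg _)
        (mem_range.mpr (not_le.mp hk))
    have := le_abs_self (f k - g k)
    linarith

theorem ev_real (κ δ : ℝ) (hκ : κ < 1) (hδ : 0 < δ) :
    ∀ᶠ x : ℝ in atTop, Real.log x + 16 * x ^ κ * (1 + Real.log x) ≤ δ * x := by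
  have h1 : (fun x : ℝ => Real.log x) =o[atTop] (fun x : ℝ => x) := Real.isLittleO_log_id_atTop
  have hpos : ∀ᶠ x : ℝ in atTop, 0 < x := eventually_gt_atTop 0
  have h2 : (fun x : ℝ => x ^ κ * Real.log x) =o[atTop] (fun x : ℝ => x) := by
    have h3 := (isBigO_refl (fun x : ℝ => x ^ κ) atTop).mul_isLittleO
      (isLittleO_log_rpow_atTop (show 0 < 1 - κ by linarith))
    refine h3.congr' (Eventually.of_forall fun _ => rfl) ?_
    filter_upwards [hpos] with x hx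
    rw [← Real.rpow_add hx]
    simp
  have h4 : (fun x : ℝ => x ^ κ * 1) =o[atTop] (fun x : ℝ => x) := by
    have h5 : (fun _ : ℝ => (1 : ℝ)) =o[atTop] (fun x : ℝ => x ^ (1 - κ)) := by
      rw [isLittleO_const_left]
      right
      have := tendsto_rpow_atTop (show 0 < 1 - κ by linarith)
      exact tendsto_norm_atTop_atTop.comp this
    have h3 := (isBigO_refl (fun x : ℝ => x ^ κ) atTop).mul_isLittleO h5
    refine h3.congr' (Eventually.of_forall fun _ => rfl) ?_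
    filter_upwards [hpos] with x hx
    rw [← Real.rpow_add hx]
    simp
  have h5 := h1.add ((h4.add h2).const_mul_left 16)
  have h6 := h5.bound hδ
  filter_upwards [h6, hpos] with x hx h0
  rw [Real.norm_eq_abs, Real.norm_eq_abs, abs_of_pos h0] at hx
  have h7 := le_abs_self (Real.log x + 16 * (x ^ κ * 1 + x ^ κ * Real.log x))
  have h8 : Real.log x + 16 * x ^ κ * (1 + Real.log x) =
      Real.log x + 16 * (x ^ κ * 1 + x ^ κ * Real.log x) := by ring
  rw [h8]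
  exact h7.trans hx

theorem ev_nat (κ δ : ℝ) (hκ0 : 0 ≤ κ) (hκ : κ < 1) (hδ : 0 < δ) : ∀ᶠ w : ℕ in atTop,
    Real.log ((w : ℝ) + 1) + 16 * ((w : ℝ) + 1) ^ κ * (1 + Real.log ((w : ℝ) + 3)) ≤ δ * w := by
  have h1 := (ev_real κ (δ / 2) hκ (by positivity))
  have h2 : Tendsto (fun w : ℕ => (w : ℝ) + 3) atTop atTop :=
    tendsto_atTop_add_const_right _ _ tendsto_natCast_atTop_atTop
  filter_upwards [h2.eventually h1, eventually_ge_atTop 3] with w hw hw3
  have hw3' : (3 : ℝ) ≤ w := by exact_mod_cast hw3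
  have h3 : Real.log ((w : ℝ) + 1) ≤ Real.log ((w : ℝ) + 3) :=
    Real.log_le_log (by positivity) (by linarith)
  have h4 : ((w : ℝ) + 1) ^ κ ≤ ((w : ℝ) + 3) ^ κ :=
    Real.rpow_le_rpow (by positivity) (by linarith) hκ0
  have h5 : 0 ≤ Real.log ((w : ℝ) + 3) := Real.log_nonneg (by linarith)
  have h6 : 16 * ((w : ℝ) + 1) ^ κ * (1 + Real.log ((w : ℝ) + 3)) ≤
      16 * ((w : ℝ) + 3) ^ κ * (1 + Real.log ((w : ℝ) + 3)) :=
    mul_le_mul_of_nonneg_right (mul_le_mul_of_nonneg_left h4 (by norm_num)) (by linarith)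
  nlinarith

/-- The main estimate: `psi (2 ^ T) s` is small. -/
theorem psi_main (c : ℝ) (hc0 : 0 ≤ c) (hc : c < 1 / 2) : ∀ᶠ w : ℕ in atTop,
    ∀ l k g t s R : ℕ, 1 ≤ k → w ^ 2 ≤ l * k → l * k < (w + 1) ^ 2 → 2 ^ k ≤ l →
      (g : ℝ) ≤ c * w → t + 1 ≤ 2 * g → 2 ^ l ≤ R ^ 2 → 1 ≤ s →
      (s : ℝ) * 2 ^ t ≤ 2 * (R * 2 ^ g) →
      (psi (2 ^ (max (t + 1) (w / 32 + 1))) s : ℝ) * 2 ^ g ≤ 4 * R := by
  obtain ⟨ρ, hρ⟩ : ∃ ρ : ℝ, ρ = c + 1 / 2 := ⟨_, rfl⟩
  obtain ⟨δ, hδ⟩ : ∃ δ : ℝ, δ = 1 / 2 - c := ⟨_, rfl⟩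
  have hδ0 : 0 < δ := by rw [hδ]; linarith
  have hρ1 : ρ < 1 := by rw [hρ]; linarith
  have hρ2 : 1 / 2 ≤ ρ := by rw [hρ]; linarith
  have hl2 : 0 < Real.log 2 := Real.log_pos (by norm_num)
  have hl2' : Real.log 2 < 0.6931471808 := Real.log_two_lt_d9
  have hl2'' : 0.6931471803 < Real.log 2 := Real.log_two_gt_d9
  have hev := ev_nat (ρ ^ 2) (min (δ * Real.log 2) (1 / 96)) (by positivity) (by nlinarith)
    (lt_min (by positivity) (by norm_num))
  filter_upwards [hev, eventually_ge_atTop 32] with w hw hw32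
  intro l k g t s R hk1 hlk1 hlk2 hkl hg htg hR hs hsy
  have hw32' : (32 : ℝ) ≤ w := by exact_mod_cast hw32
  have hw0 : (0 : ℝ) < w := by linarith
  have hs0 : (0 : ℝ) < s := by exact_mod_cast hs
  have hk1' : (1 : ℝ) ≤ k := by exact_mod_cast hk1
  have hlog0 : 0 ≤ Real.log ((w : ℝ) + 3) := Real.log_nonneg (by linarith)
  have hB0 : 0 ≤ 16 * ((w : ℝ) + 1) ^ (ρ ^ 2) * (1 + Real.log ((w : ℝ) + 3)) := by positivity
  have hlog1 : 0 ≤ Real.log ((w : ℝ) + 1) := Real.log_nonneg (by linarith)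
  have hmin1 : min (δ * Real.log 2) (1 / 96) * (w : ℝ) ≤ δ * Real.log 2 * w :=
    mul_le_mul_of_nonneg_right (min_le_left _ _) hw0.le
  have hmin2 : min (δ * Real.log 2) (1 / 96) * (w : ℝ) ≤ 1 / 96 * w :=
    mul_le_mul_of_nonneg_right (min_le_right _ _) hw0.le
  -- `2 ^ k ≤ (w + 1) ^ 2`
  have h2k : (2 : ℝ) ^ k ≤ ((w : ℝ) + 1) ^ 2 := by
    have : 2 ^ k ≤ (w + 1) ^ 2 := by
      calc 2 ^ k ≤ l * 1 := by omega
        _ ≤ l * k := Nat.mul_le_mul_left _ hk1
        _ ≤ (w + 1) ^ 2 := hlk2.le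
    exact_mod_cast this
  have hklog : (k : ℝ) * Real.log 2 ≤ 2 * Real.log ((w : ℝ) + 1) := by
    have h1 := Real.log_le_log (by positivity) h2k
    rw [Real.log_pow, Real.log_pow] at h1
    exact_mod_cast h1
  have h32k : 32 * (k : ℝ) ≤ w := by nlinarith
  obtain ⟨T, hT⟩ : ∃ T, T = max (t + 1) (w / 32 + 1) := ⟨_, rfl⟩
  have hT1 : (w : ℝ) / 32 ≤ T := by
    have h1 : w / 32 + 1 ≤ T := by omega
    have h2 : w < 32 * T := by omega
    have h3 : (w : ℝ) < 32 * T := by exact_mod_cast h2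
    linarith
  have hT0 : (0 : ℝ) < T := by linarith
  have hcw : c * w ≤ 1 / 2 * w := mul_le_mul_of_nonneg_right hc.le hw0.le
  have htw : t + 1 ≤ w := by
    have h1 : (((t + 1 : ℕ)) : ℝ) ≤ ((2 * g : ℕ) : ℝ) := by exact_mod_cast htg
    have h2 : ((t + 1 : ℕ) : ℝ) ≤ w := by
      push_cast at h1 ⊢
      linarith
    exact_mod_cast h2
  have hT2 : T ≤ w + 1 := by omega
  rw [← hT]
  obtain ⟨η, hη⟩ : ∃ η : ℝ, η = ρ ^ 2 / 2 * k / T := ⟨_, rfl⟩
  have hη0 : 0 ≤ η := by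
    rw [hη]
    positivity
  have hρsq : ρ ^ 2 ≤ 1 := by nlinarith
  have hη1 : η ≤ 1 / 2 := by
    rw [hη, div_le_iff₀ hT0]
    nlinarith
  have hηT : η * T = ρ ^ 2 / 2 * k := by
    rw [hη]
    field_simp
  have h1 := psi_two_pow T s η hη1 hη0
  -- the exponential factor
  have e1 : ((2 : ℝ) ^ T) ^ η = (2 : ℝ) ^ (ρ ^ 2 / 2 * k) := by
    rw [← Real.rpow_natCast, ← Real.rpow_mul (by norm_num), mul_comm (T : ℝ) η, hηT]
  have e2 : (2 : ℝ) ^ (ρ ^ 2 / 2 * k) ≤ ((w : ℝ) + 1) ^ (ρ ^ 2) := by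
    have h3 : (2 : ℝ) ^ (ρ ^ 2 / 2 * k) = ((2 : ℝ) ^ k) ^ (ρ ^ 2 / 2) := by
      rw [← Real.rpow_natCast (2 : ℝ) k, ← Real.rpow_mul (by norm_num), mul_comm]
    have h4 : ((w : ℝ) + 1) ^ (ρ ^ 2) = (((w : ℝ) + 1) ^ 2) ^ (ρ ^ 2 / 2) := by
      rw [← Real.rpow_natCast ((w : ℝ) + 1) 2, ← Real.rpow_mul (by positivity)]
      congr 1
      push_cast
      ring
    rw [h3, h4]
    exact Real.rpow_le_rpow (by positivity) h2k (by positivity)
  have e3 : 16 * ((2 : ℝ) ^ T) ^ η * (1 + Real.log ((T + 1 : ℕ) : ℝ)) ≤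
      16 * ((w : ℝ) + 1) ^ (ρ ^ 2) * (1 + Real.log ((w : ℝ) + 3)) := by
    rw [e1]
    have h3 : Real.log ((T + 1 : ℕ) : ℝ) ≤ Real.log ((w : ℝ) + 3) := by
      apply Real.log_le_log (by positivity)
      have : T + 1 ≤ w + 3 := by omega
      exact_mod_cast this
    have h4 : 0 ≤ Real.log ((T + 1 : ℕ) : ℝ) := Real.log_natCast_nonneg _
    have h5 : 16 * (2 : ℝ) ^ (ρ ^ 2 / 2 * k) * (1 + Real.log ((T + 1 : ℕ) : ℝ)) ≤
        16 * ((w : ℝ) + 1) ^ (ρ ^ 2) * (1 + Real.log ((T + 1 : ℕ) : ℝ)) :=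
      mul_le_mul_of_nonneg_right (mul_le_mul_of_nonneg_left e2 (by norm_num)) (by linarith)
    refine h5.trans (mul_le_mul_of_nonneg_left (by linarith) (by positivity))
  -- the power of `s`
  obtain ⟨y, hy⟩ : ∃ y : ℝ, y = R * 2 ^ g / 2 ^ t := ⟨_, rfl⟩
  have hR0 : (0 : ℝ) < R := by
    have : 0 < R := by
      rcases Nat.eq_zero_or_pos R with h | h
      · rw [h] at hR
        have := Nat.two_pow_pos l
        omega
      · exact h
    exact_mod_cast this
  have hy0 : 0 < y := by rw [hy]; positivity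
  have hsy' : (s : ℝ) ≤ 2 * y := by
    rw [hy, mul_div_assoc', le_div_iff₀ (by positivity)]
    exact hsy
  have hR2 : (2 : ℝ) ^ ((l : ℝ) / 2) ≤ R := by
    have h6 : ((2 : ℝ) ^ ((l : ℝ) / 2)) ^ 2 ≤ (R : ℝ) ^ 2 := by
      rw [← Real.rpow_natCast, ← Real.rpow_mul (by norm_num)]
      have : (l : ℝ) / 2 * ((2 : ℕ) : ℝ) = l := by push_cast; ring
      rw [this, Real.rpow_natCast]
      exact_mod_cast hR
    exact (pow_le_pow_iff_left₀ (by positivity) hR0.le (by norm_num)).mp h6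
  have hy1 : (2 : ℝ) ^ ((l : ℝ) / 2 - T) ≤ y := by
    have h3 : (2 : ℝ) ^ ((l : ℝ) / 2 - T) ≤ (2 : ℝ) ^ ((l : ℝ) / 2 - t) := by
      apply Real.rpow_le_rpow_of_exponent_le (by norm_num)
      have : (t : ℝ) ≤ T := by
        have : t ≤ T := by omega
        exact_mod_cast this
      linarith
    refine h3.trans ?_
    rw [Real.rpow_sub (by norm_num), Real.rpow_natCast, hy]
    apply div_le_div_of_nonneg_right _ (by positivity)
    calc (2 : ℝ) ^ ((l : ℝ) / 2) ≤ R := hR2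
      _ ≤ R * 2 ^ g := le_mul_of_one_le_right hR0.le (one_le_pow₀ (by norm_num))
  have h3 : (s : ℝ) ^ (1 - η) ≤ 2 * y * (2 : ℝ) ^ (-(η * l / 2) + ρ ^ 2 / 2 * k) := by
    have h4 : (s : ℝ) ^ (1 - η) ≤ (2 * y) ^ (1 - η) :=
      Real.rpow_le_rpow hs0.le hsy' (by linarith)
    have h5 : (2 * y) ^ (1 - η) = 2 * y * (2 * y) ^ (-η) := by
      rw [sub_eq_add_neg, Real.rpow_add (by positivity), Real.rpow_one]
    have h6 : (2 * y) ^ (-η) ≤ ((2 : ℝ) ^ ((l : ℝ) / 2 - T)) ^ (-η) := by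
      apply Real.rpow_le_rpow_of_nonpos (by positivity) _ (by linarith)
      linarith
    have h7 : ((2 : ℝ) ^ ((l : ℝ) / 2 - T)) ^ (-η) =
        (2 : ℝ) ^ (-(η * l / 2) + ρ ^ 2 / 2 * k) := by
      rw [← Real.rpow_mul (by norm_num), ← hηT]
      congr 1
      ring
    rw [h7] at h6
    rw [h5] at h4
    exact h4.trans (mul_le_mul_of_nonneg_left h6 (by positivity))
  -- the exponent
  have hηl : ρ ^ 2 * (w : ℝ) ^ 2 / (4 * T) ≤ η * l / 2 := by
    have h4 : (w : ℝ) ^ 2 ≤ l * k := by exact_mod_cast hlk1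
    have h5 : η * l / 2 = ρ ^ 2 * ((l : ℝ) * k) / (4 * T) := by
      rw [hη]
      field_simp
      ring
    rw [h5]
    apply div_le_div_of_nonneg_right _ (by positivity)
    exact mul_le_mul_of_nonneg_left h4 (by positivity)
  have hA : 2 * (g : ℝ) - t - η * l / 2 ≤ 1 - δ * w := by
    by_cases hcase : T = t + 1
    · have h4 : ρ * w ≤ T + ρ ^ 2 * (w : ℝ) ^ 2 / (4 * T) := by
        have h5 : (T : ℝ) + ρ ^ 2 * (w : ℝ) ^ 2 / (4 * T) - ρ * w =
            (T - ρ * w / 2) ^ 2 / T := by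
          field_simp
          ring
        have h6 : 0 ≤ (T - ρ * w / 2) ^ 2 / T := by positivity
        linarith
      have h5 : (T : ℝ) = t + 1 := by exact_mod_cast hcase
      have h6 : ρ * w = 2 * (c * w) + δ * w := by
        rw [hρ, hδ]
        ring
      linarith
    · have h4 : T ≤ w / 32 + 1 := by omega
      have h5 : (T : ℝ) ≤ w / 16 := by
        have h6 : 16 * T ≤ w := by omega
        have h7 : (16 : ℝ) * T ≤ w := by exact_mod_cast h6
        linarith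
      have h6 : (w : ℝ) ≤ ρ ^ 2 * (w : ℝ) ^ 2 / (4 * T) := by
        rw [le_div_iff₀ (by positivity)]
        have h7 : 1 / 4 ≤ ρ ^ 2 := by nlinarith
        have h8 : (w : ℝ) * (4 * T) ≤ w * (w / 4) :=
          mul_le_mul_of_nonneg_left (by linarith) hw0.le
        have h9 : 1 / 4 * (w : ℝ) ^ 2 ≤ ρ ^ 2 * (w : ℝ) ^ 2 :=
          mul_le_mul_of_nonneg_right h7 (by positivity)
        nlinarith
      have h7 : (0 : ℝ) ≤ t := Nat.cast_nonneg _
      have h8 : 2 * (c * w) = w - 2 * (δ * w) := by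
        rw [hδ]
        ring
      have h9 : 0 ≤ δ * w := by positivity
      linarith
  -- conclusion
  have h4 : (psi (2 ^ T) s : ℝ) * 2 ^ g ≤ 2 * y * (2 : ℝ) ^ (-(η * l / 2) + ρ ^ 2 / 2 * k) *
      Real.exp (16 * ((w : ℝ) + 1) ^ (ρ ^ 2) * (1 + Real.log ((w : ℝ) + 3))) * 2 ^ g := by
    apply mul_le_mul_of_nonneg_right _ (by positivity)
    refine h1.trans (mul_le_mul h3 ?_ (Real.exp_pos _).le (by positivity))
    rw [Real.exp_le_exp]
    exact e3
  refine h4.trans ?_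
  have h5 : 2 * y * (2 : ℝ) ^ (-(η * l / 2) + ρ ^ 2 / 2 * k) * 2 ^ g =
      2 * R * (2 : ℝ) ^ (2 * (g : ℝ) - t - η * l / 2 + ρ ^ 2 / 2 * k) := by
    have h6 : (2 : ℝ) ^ (2 * (g : ℝ) - t - η * l / 2 + ρ ^ 2 / 2 * k) =
        2 ^ g * 2 ^ g / 2 ^ t * (2 : ℝ) ^ (-(η * l / 2) + ρ ^ 2 / 2 * k) := by
      rw [show 2 * (g : ℝ) - t - η * l / 2 + ρ ^ 2 / 2 * k =
        ((g : ℝ) + g - t) + (-(η * l / 2) + ρ ^ 2 / 2 * k) by ring,
        Real.rpow_add (by norm_num), Real.rpow_sub (by norm_num), Real.rpow_add (by norm_num),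
        Real.rpow_natCast, Real.rpow_natCast]
    rw [h6, hy]
    ring
  have h6 : 2 * y * (2 : ℝ) ^ (-(η * l / 2) + ρ ^ 2 / 2 * k) *
      Real.exp (16 * ((w : ℝ) + 1) ^ (ρ ^ 2) * (1 + Real.log ((w : ℝ) + 3))) * 2 ^ g =
      2 * R * ((2 : ℝ) ^ (2 * (g : ℝ) - t - η * l / 2 + ρ ^ 2 / 2 * k) *
        Real.exp (16 * ((w : ℝ) + 1) ^ (ρ ^ 2) * (1 + Real.log ((w : ℝ) + 3)))) := by
    rw [← mul_assoc (2 * (R : ℝ)), ← h5]
    ring
  rw [h6]
  have h7 : (2 : ℝ) ^ (2 * (g : ℝ) - t - η * l / 2 + ρ ^ 2 / 2 * k) *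
      Real.exp (16 * ((w : ℝ) + 1) ^ (ρ ^ 2) * (1 + Real.log ((w : ℝ) + 3))) ≤ 2 := by
    have h8 : (2 : ℝ) ^ (2 * (g : ℝ) - t - η * l / 2 + ρ ^ 2 / 2 * k) =
        Real.exp (Real.log 2 * (2 * (g : ℝ) - t - η * l / 2 + ρ ^ 2 / 2 * k)) := by
      rw [Real.rpow_def_of_pos (by norm_num)]
    have h9 : (2 : ℝ) = Real.exp (Real.log 2) := (Real.exp_log (by norm_num)).symm
    rw [h8, ← Real.exp_add]
    conv_rhs => rw [h9]
    rw [Real.exp_le_exp]
    have h10 : Real.log 2 * (ρ ^ 2 / 2 * k) ≤ Real.log ((w : ℝ) + 1) := by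
      have h11 : ρ ^ 2 / 2 * (k * Real.log 2) ≤ ρ ^ 2 / 2 * (2 * Real.log ((w : ℝ) + 1)) :=
        mul_le_mul_of_nonneg_left hklog (by positivity)
      have h12 : ρ ^ 2 * Real.log ((w : ℝ) + 1) ≤ 1 * Real.log ((w : ℝ) + 1) :=
        mul_le_mul_of_nonneg_right hρsq hlog1
      linarith
    have h11 := mul_le_mul_of_nonneg_left hA hl2.le
    nlinarith
  nlinarith

/-- exponent of the saving -/
def gg (a b n : ℕ) : ℕ := a * Nat.sqrt (Nat.log 2 n * Nat.log 2 (Nat.log 2 n)) / b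

/-- the basic quantity -/
def AA (a b n : ℕ) : ℕ := Nat.sqrt n / 2 ^ gg a b n + 1

theorem exists_s (a b : ℕ) (hab : 2 * a < b) : ∃ K : ℕ, ∀ n q : ℕ, 1 ≤ q → ∃ s, 1 ≤ s ∧
    psi (max q 2) s + n / q / s ≤ K * AA a b n := by
  have hb0 : (0 : ℝ) < b := by exact_mod_cast (by omega : 0 < b)
  have hab' : (2 : ℝ) * a < b := by exact_mod_cast hab
  obtain ⟨w0, hw0⟩ := eventually_atTop.mp (psi_main ((a : ℝ) / b) (by positivity)
    (by rw [div_lt_iff₀ hb0]; linarith))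
  refine ⟨2 * 2 ^ w0 + 6, fun n q hq => ?_⟩
  obtain ⟨R, hR⟩ : ∃ R, R = Nat.sqrt n + 1 := ⟨_, rfl⟩
  obtain ⟨g, hg⟩ : ∃ g, g = gg a b n := ⟨_, rfl⟩
  have hRn : n < R * R := by
    rw [hR]
    exact Nat.lt_succ_sqrt n
  have hA : AA a b n = Nat.sqrt n / 2 ^ g + 1 := by rw [AA, ← hg]
  have hG : 0 < 2 ^ g := Nat.two_pow_pos g
  have hRA : R ≤ 2 ^ g * AA a b n := by
    rw [hA, hR]
    exact Nat.lt_mul_div_succ _ hG
  have hA1 : 1 ≤ AA a b n := Nat.le_add_left 1 _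
  by_cases h1 : 2 ^ (2 * g) ≤ q
  · refine ⟨AA a b n, hA1, ?_⟩
    have h2 := psi_le (max q 2) (AA a b n)
    have h3 : n / q / AA a b n ≤ AA a b n := by
      rw [Nat.div_div_eq_div_mul]
      apply Nat.div_le_of_le_mul
      calc n ≤ R * R := hRn.le
        _ ≤ (2 ^ g * AA a b n) * (2 ^ g * AA a b n) := Nat.mul_le_mul hRA hRA
        _ = 2 ^ (2 * g) * AA a b n * AA a b n := by ring
        _ ≤ q * AA a b n * AA a b n := Nat.mul_le_mul_right _ (Nat.mul_le_mul_right _ h1)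
    calc psi (max q 2) (AA a b n) + n / q / AA a b n ≤ 2 * AA a b n := by omega
      _ ≤ (2 * 2 ^ w0 + 6) * AA a b n := Nat.mul_le_mul_right _ (by omega)
  · rw [not_le] at h1
    obtain ⟨l, hl⟩ : ∃ l, l = Nat.log 2 n := ⟨_, rfl⟩
    obtain ⟨k, hk⟩ : ∃ k, k = Nat.log 2 l := ⟨_, rfl⟩
    obtain ⟨w, hw⟩ : ∃ w, w = Nat.sqrt (l * k) := ⟨_, rfl⟩
    have hgw : g = a * w / b := by rw [hg, gg, ← hl, ← hk, ← hw]
    have h2g : 2 * g ≤ w := by
      have h2 : g * b ≤ a * w := by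
        rw [hgw]
        exact Nat.div_mul_le_self _ _
      have h3 : 2 * g * b ≤ w * b := by
        calc 2 * g * b = 2 * (g * b) := by ring
          _ ≤ 2 * (a * w) := Nat.mul_le_mul_left _ h2
          _ = (2 * a) * w := by ring
          _ ≤ b * w := Nat.mul_le_mul_right _ hab.le
          _ = w * b := by ring
      exact Nat.le_of_mul_le_mul_right h3 (by omega)
    by_cases h2 : w < w0
    · refine ⟨R, by omega, ?_⟩
      have h3 := psi_le (max q 2) R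
      have h4 : n / q / R ≤ R := by
        rw [Nat.div_div_eq_div_mul]
        apply Nat.div_le_of_le_mul
        calc n ≤ R * R := hRn.le
          _ = 1 * R * R := by ring
          _ ≤ q * R * R := Nat.mul_le_mul_right _ (Nat.mul_le_mul_right _ hq)
      have h5 : 2 ^ g ≤ 2 ^ w0 := Nat.pow_le_pow_right (by norm_num) (by omega)
      calc psi (max q 2) R + n / q / R ≤ 2 * R := by omega
        _ ≤ 2 * (2 ^ w0 * AA a b n) :=
            Nat.mul_le_mul_left _ (hRA.trans (Nat.mul_le_mul_right _ h5))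
        _ ≤ (2 * 2 ^ w0 + 6) * AA a b n := by nlinarith
    · rw [not_lt] at h2
      have hg1 : 1 ≤ g := by
        rcases Nat.eq_zero_or_pos g with h | h
        · rw [h] at h1
          simp at h1
          omega
        · exact h
      have hwlk : w ^ 2 ≤ l * k := by
        rw [hw, sq]
        exact Nat.sqrt_le _
      have hwlk' : l * k < (w + 1) ^ 2 := by
        rw [hw, sq]
        exact Nat.lt_succ_sqrt _
      have hlk0 : 0 < l * k := by
        have : 0 < w ^ 2 := by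
          have : 0 < w := by omega
          positivity
        omega
      have hk1 : 1 ≤ k := by
        rcases Nat.eq_zero_or_pos k with h | h
        · rw [h, mul_zero] at hlk0
          omega
        · exact h
      have hl1 : 1 ≤ l := by
        rcases Nat.eq_zero_or_pos l with h | h
        · rw [h, zero_mul] at hlk0
          omega
        · exact h
      have h2kl : 2 ^ k ≤ l := by
        rw [hk]
        exact Nat.pow_log_le_self 2 (by omega)
      have hwl : w ≤ l := by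
        have h3 : w ^ 2 ≤ l ^ 2 := by
          calc w ^ 2 ≤ l * k := hwlk
            _ ≤ l * l := Nat.mul_le_mul_left _ (Nat.lt_two_pow_self.le.trans h2kl)
            _ = l ^ 2 := (sq l).symm
        exact (Nat.pow_le_pow_iff_left (by norm_num)).mp h3
      have hn0 : n ≠ 0 := by
        rintro rfl
        rw [Nat.log_zero_right] at hl
        omega
      have hln : 2 ^ l ≤ n := by
        rw [hl]
        exact Nat.pow_log_le_self 2 hn0
      have hlR : 2 ^ l ≤ R ^ 2 := by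
        rw [sq]
        omega
      obtain ⟨t, ht⟩ : ∃ t, t = Nat.log 2 (max q 2) := ⟨_, rfl⟩
      have ht1 : 2 ^ t ≤ max q 2 := by
        rw [ht]
        exact Nat.pow_log_le_self 2 (by omega)
      have ht2 : max q 2 < 2 ^ (t + 1) := by
        rw [ht]
        exact Nat.lt_pow_succ_log_self (by norm_num) _
      have h4g : 2 ^ 2 ≤ 2 ^ (2 * g) := Nat.pow_le_pow_right (by norm_num) (by omega)
      have htg : t + 1 ≤ 2 * g := by
        have h3 : 2 ^ t < 2 ^ (2 * g) := by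
          refine ht1.trans_lt ?_
          omega
        exact (Nat.pow_lt_pow_iff_right (by norm_num)).mp h3
      have hgR : 2 ^ t ≤ R * 2 ^ g := by
        have h3 : 2 ^ g ≤ R := by
          have h4 : (2 ^ g) ^ 2 ≤ R ^ 2 := by
            calc (2 ^ g) ^ 2 = 2 ^ (2 * g) := by rw [← pow_mul, mul_comm]
              _ ≤ 2 ^ l := Nat.pow_le_pow_right (by norm_num) (by omega)
              _ ≤ R ^ 2 := hlR
          exact (Nat.pow_le_pow_iff_left (by norm_num)).mp h4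
        calc 2 ^ t ≤ 2 ^ (g + g) := Nat.pow_le_pow_right (by norm_num) (by omega)
          _ = 2 ^ g * 2 ^ g := pow_add _ _ _
          _ ≤ R * 2 ^ g := Nat.mul_le_mul_right _ h3
      obtain ⟨s, hs⟩ : ∃ s, s = R * 2 ^ g / 2 ^ t + 1 := ⟨_, rfl⟩
      have hs1 : R * 2 ^ g ≤ s * 2 ^ t := by
        rw [hs, mul_comm (R * 2 ^ g / 2 ^ t + 1)]
        exact (Nat.lt_mul_div_succ (R * 2 ^ g) (Nat.two_pow_pos t)).le
      have hs2 : s * 2 ^ t ≤ 2 * (R * 2 ^ g) := by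
        rw [hs, Nat.succ_mul]
        have := Nat.div_mul_le_self (R * 2 ^ g) (2 ^ t)
        omega
      have hs3 : 1 ≤ s := by
        rw [hs]
        exact Nat.le_add_left 1 _
      refine ⟨s, hs3, ?_⟩
      have h3 := hw0 w h2 l k g t s R hk1 hwlk hwlk' h2kl (by
        rw [div_mul_eq_mul_div, le_div_iff₀ hb0]
        have h4 : g * b ≤ a * w := by
          rw [hgw]
          exact Nat.div_mul_le_self _ _
        exact_mod_cast h4) htg hlR hs3 (by exact_mod_cast hs2)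
      have h4 : psi (max q 2) s ≤ 4 * AA a b n := by
        have h5 : psi (max q 2) s ≤ psi (2 ^ (max (t + 1) (w / 32 + 1))) s := by
          apply psi_mono
          exact ht2.le.trans (Nat.pow_le_pow_right (by norm_num) (le_max_left _ _))
        have h6 : psi (2 ^ (max (t + 1) (w / 32 + 1))) s * 2 ^ g ≤ 4 * R := by
          exact_mod_cast h3
        have h7 : psi (max q 2) s * 2 ^ g ≤ 4 * AA a b n * 2 ^ g := by
          calc psi (max q 2) s * 2 ^ g ≤ 4 * R := (Nat.mul_le_mul_right _ h5).trans h6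
            _ ≤ 4 * (2 ^ g * AA a b n) := Nat.mul_le_mul_left _ hRA
            _ = 4 * AA a b n * 2 ^ g := by ring
        exact Nat.le_of_mul_le_mul_right h7 hG
      have h5 : n / q / s ≤ 2 * AA a b n := by
        rw [Nat.div_div_eq_div_mul]
        apply Nat.div_le_of_le_mul
        have h6 : R * 2 ^ g ≤ 2 * (q * s) := by
          calc R * 2 ^ g ≤ s * 2 ^ t := hs1
            _ ≤ s * (2 * q) := Nat.mul_le_mul_left _ (by omega)
            _ = 2 * (q * s) := by ring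
        calc n ≤ R * R := hRn.le
          _ ≤ R * (2 ^ g * AA a b n) := Nat.mul_le_mul_left _ hRA
          _ = R * 2 ^ g * AA a b n := by ring
          _ ≤ 2 * (q * s) * AA a b n := Nat.mul_le_mul_right _ h6
          _ = q * s * (2 * AA a b n) := by ring
      calc psi (max q 2) s + n / q / s ≤ 6 * AA a b n := by omega
        _ ≤ (2 * 2 ^ w0 + 6) * AA a b n := Nat.mul_le_mul_right _ (by omega)

/-- the size parameter -/
def XX (a b K n : ℕ) : ℕ := 1 + 2 * (K * AA a b n)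

theorem exists_Bnd (a b : ℕ) (hab : 2 * a < b) : ∃ K : ℕ, ∀ n, Bnd n (XX a b K n) := by
  obtain ⟨K, hK⟩ := exists_s a b hab
  refine ⟨K, fun n => ⟨fun q hq _ => ?_, ?_⟩⟩
  · obtain ⟨s, hs, h⟩ := hK n q (by omega)
    rw [max_eq_left (by omega)] at h
    exact ⟨s, hs, by unfold XX; omega⟩
  · obtain ⟨s, hs, h⟩ := hK n 1 le_rfl
    rw [max_eq_right (by omega), Nat.div_one] at h
    exact ⟨s, hs, by unfold XX; omega⟩

end Pool.Agent.Lib.MP_4b91fc_lc
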