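import Pool.Agent.Lib.MP_4b91fc_lc.Fin

set_option autoImplicit false

/-!
# The running time in closed form
-/

namespace Pool.Agent.Lib.MP_4b91fc_lc

open Function Turing Filter

/-- comparison of the iterated logarithms -/
theorem log_facts (c c1 : ℝ) (hc0 : 0 ≤ c) (hc1 : 0 ≤ c1) (n l k : ℕ) (hn : 2 ≤ n)
    (hnl : n < 2 ^ (l + 1)) (hlk : l < 2 ^ (k + 1)) (h1 : c * (l + 1) ≤ c1 * l)
    (h2 : c * (k + 1) ≤ c1 * k) :
    c * √(Real.log n * Real.log (Real.log n)) ≤ c1 * (Real.log 2 * √((l : ℝ) * k)) := by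
  have hl2 : 0 < Real.log 2 := Real.log_pos (by norm_num)
  have hl2' : Real.log 2 < 1 := by
    have := Real.log_two_lt_d9
    linarith
  have hn' : (1 : ℝ) < n := by exact_mod_cast (by omega : 1 < n)
  have hlog : 0 < Real.log n := Real.log_pos hn'
  have h3 : Real.log n ≤ (l + 1) * Real.log 2 := by
    have h4 : Real.log n ≤ Real.log ((2 : ℝ) ^ (l + 1)) := by
      apply Real.log_le_log (by linarith)
      exact_mod_cast hnl.le
    rw [Real.log_pow] at h4
    exact_mod_cast h4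
  have h4 : Real.log (Real.log n) ≤ (k + 1) * Real.log 2 := by
    have h5 : Real.log n ≤ (2 : ℝ) ^ (k + 1) := by
      have h6 : (l : ℝ) + 1 ≤ 2 ^ (k + 1) := by exact_mod_cast hlk
      have h7 : ((l : ℝ) + 1) * Real.log 2 ≤ ((l : ℝ) + 1) * 1 :=
        mul_le_mul_of_nonneg_left hl2'.le (by positivity)
      linarith
    have h6 := Real.log_le_log hlog h5
    rw [Real.log_pow] at h6
    exact_mod_cast h6
  have h5 : Real.log n * Real.log (Real.log n) ≤
      ((l + 1) * Real.log 2) * ((k + 1) * Real.log 2) :=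
    (mul_le_mul_of_nonneg_left h4 hlog.le).trans (mul_le_mul_of_nonneg_right h3 (by positivity))
  calc c * √(Real.log n * Real.log (Real.log n))
      ≤ c * √(((l + 1) * Real.log 2) * ((k + 1) * Real.log 2)) :=
        mul_le_mul_of_nonneg_left (Real.sqrt_le_sqrt h5) hc0
    _ = √(c ^ 2 * (((l + 1) * Real.log 2) * ((k + 1) * Real.log 2))) := by
        rw [Real.sqrt_mul (by positivity) (((l + 1) * Real.log 2) * ((k + 1) * Real.log 2)),
          Real.sqrt_sq hc0]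
    _ ≤ √((c1 * Real.log 2) ^ 2 * ((l : ℝ) * k)) := by
        apply Real.sqrt_le_sqrt
        have h6 : (c * (l + 1)) * (c * (k + 1)) ≤ (c1 * l) * (c1 * k) :=
          mul_le_mul h1 h2 (by positivity) (by positivity)
        have h7 := mul_le_mul_of_nonneg_left h6 (by positivity : (0 : ℝ) ≤ Real.log 2 ^ 2)
        nlinarith
    _ = c1 * (Real.log 2 * √((l : ℝ) * k)) := by
        rw [Real.sqrt_mul (by positivity) ((l : ℝ) * k), Real.sqrt_sq (by positivity)]
        ring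

/-- the bound for `AA` -/
theorem AA_le (a b n l k : ℕ) (hb : 0 < b) (hab : 2 * a < b) (hl : l = Nat.log 2 n)
    (hk : k = Nat.log 2 l) :
    (AA a b n : ℝ) ≤ 4 * √n * Real.exp (-((a : ℝ) / b * (Real.log 2 * √((l : ℝ) * k)))) + 1 := by
  have hb0 : (0 : ℝ) < b := by exact_mod_cast hb
  have hl2 : 0 < Real.log 2 := Real.log_pos (by norm_num)
  obtain ⟨u, hu⟩ : ∃ u : ℝ, u = √((l : ℝ) * k) := ⟨_, rfl⟩
  obtain ⟨γ, hγ⟩ : ∃ γ : ℝ, γ = (a : ℝ) / b := ⟨_, rfl⟩
  have hγ0 : 0 ≤ γ := by rw [hγ]; positivity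
  have hγ1 : γ ≤ 1 := by
    rw [hγ, div_le_one hb0]
    exact_mod_cast (by omega : a ≤ b)
  obtain ⟨w, hw⟩ : ∃ w, w = Nat.sqrt (l * k) := ⟨_, rfl⟩
  have h5 : u < (w : ℝ) + 1 := by
    rw [hu]
    have h6 := Nat.lt_succ_sqrt (l * k)
    rw [← hw] at h6
    have h7 : ((l : ℝ) * k) < ((w : ℝ) + 1) ^ 2 := by
      rw [sq]
      exact_mod_cast h6
    calc √((l : ℝ) * k) < √(((w : ℝ) + 1) ^ 2) := Real.sqrt_lt_sqrt (by positivity) h7
      _ = (w : ℝ) + 1 := Real.sqrt_sq (by positivity)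
  have hgg : γ * u - 2 ≤ (gg a b n : ℝ) := by
    have h6 : a * w < b * (gg a b n + 1) := by
      rw [gg, ← hl, ← hk, ← hw]
      exact Nat.lt_mul_div_succ _ hb
    have h7 : (a : ℝ) * w < b * ((gg a b n : ℝ) + 1) := by exact_mod_cast h6
    have h8 : γ * w < (gg a b n : ℝ) + 1 := by
      rw [hγ, div_mul_eq_mul_div, div_lt_iff₀ hb0]
      linarith
    have h9 : γ * (u - 1) ≤ γ * w := mul_le_mul_of_nonneg_left (by linarith) hγ0
    linarith
  rw [← hu, ← hγ]
  have h6 : ((2 : ℝ) ^ gg a b n)⁻¹ ≤ 4 * Real.exp (-(γ * (Real.log 2 * u))) := by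
    have h6 : (2 : ℝ) ^ gg a b n = Real.exp (gg a b n * Real.log 2) := by
      rw [Real.exp_nat_mul, Real.exp_log (by norm_num)]
    have h7 : (4 : ℝ) * Real.exp (-(γ * (Real.log 2 * u))) =
        Real.exp (2 * Real.log 2 + -(γ * (Real.log 2 * u))) := by
      rw [Real.exp_add]
      congr 1
      rw [show (2 : ℝ) * Real.log 2 = ((2 : ℕ) : ℝ) * Real.log 2 by norm_num, Real.exp_nat_mul,
        Real.exp_log (by norm_num)]
      norm_num
    rw [h6, h7, ← Real.exp_neg, Real.exp_le_exp]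
    have h8 := mul_le_mul_of_nonneg_right hgg hl2.le
    nlinarith
  have h7 : (AA a b n : ℝ) ≤ √n * ((2 : ℝ) ^ gg a b n)⁻¹ + 1 := by
    unfold AA
    push_cast
    have h7 : (((Nat.sqrt n / 2 ^ gg a b n : ℕ)) : ℝ) ≤
        (Nat.sqrt n : ℝ) / ((2 ^ gg a b n : ℕ) : ℝ) := Nat.cast_div_le
    have h8 : (Nat.sqrt n : ℝ) ≤ √n := by
      apply Real.le_sqrt_of_sq_le
      have := Nat.sqrt_le' n
      exact_mod_cast this
    have h9 : (Nat.sqrt n : ℝ) / ((2 ^ gg a b n : ℕ) : ℝ) ≤ √n * ((2 : ℝ) ^ gg a b n)⁻¹ := by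
      push_cast
      rw [div_eq_mul_inv]
      exact mul_le_mul_of_nonneg_right h8 (by positivity)
    linarith
  have h8 := mul_le_mul_of_nonneg_left h6 (Real.sqrt_nonneg (n : ℝ))
  nlinarith

/-- exponentials against squares -/
theorem exp_sq (ε D l : ℝ) (hε : 0 < ε) (hD : 0 ≤ D) (hl1 : 1 ≤ l) (hl : 8 * D / ε ^ 2 ≤ l) :
    2 * D * (l + 1) ≤ Real.exp (ε * l) := by
  have h1 := Real.pow_div_factorial_le_exp (ε * l) (by positivity) 2
  norm_num [Nat.factorial] at h1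
  rw [div_le_iff₀ (by positivity)] at hl
  have h2 : 4 * D * l ≤ (ε * l) ^ 2 / 2 := by
    have h3 := mul_le_mul_of_nonneg_right hl (by linarith : (0 : ℝ) ≤ l)
    nlinarith
  nlinarith

theorem exp_four (ε D l u : ℝ) (hε : 0 < ε) (hD : 0 ≤ D) (hl1 : 1 ≤ l) (hu0 : 0 ≤ u)
    (hu : l ≤ u ^ 2) (hl : 384 * D / ε ^ 4 ≤ l) : 8 * D * (l + 1) ≤ Real.exp (ε * u) := by
  have h1 := Real.pow_div_factorial_le_exp (ε * u) (by positivity) 4
  norm_num [Nat.factorial] at h1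
  rw [div_le_iff₀ (by positivity)] at hl
  have h2 : l ^ 2 ≤ u ^ 4 := by
    calc l ^ 2 ≤ (u ^ 2) ^ 2 := pow_le_pow_left₀ (by linarith) hu 2
      _ = u ^ 4 := by ring
  have h3 : 16 * D * l ≤ (ε * u) ^ 4 / 24 := by
    have h4 := mul_le_mul_of_nonneg_right hl (by linarith : (0 : ℝ) ≤ l)
    have h5 := mul_le_mul_of_nonneg_left h2 (by positivity : (0 : ℝ) ≤ ε ^ 4)
    have h6 : (ε * u) ^ 4 = ε ^ 4 * u ^ 4 := by ring
    rw [h6]
    nlinarith
  nlinarith

/-- the exponent of the running time, for large `n` -/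
theorem final_large (a b : ℕ) (hab : 2 * a < b) (c : ℝ) (hc0 : 0 ≤ c) (hc : c < (a : ℝ) / b)
    (D : ℝ) (hD : 0 ≤ D) : ∀ᶠ n : ℕ in atTop,
    D * ((AA a b n : ℝ) * ((Nat.log 2 n : ℝ) + 1)) ≤
      √n * Real.exp (-c * √(Real.log n * Real.log (Real.log n))) := by
  have hb : 0 < b := by omega
  have hb0 : (0 : ℝ) < b := by exact_mod_cast hb
  have hl2 : 0 < Real.log 2 := Real.log_pos (by norm_num)
  obtain ⟨γ, hγ⟩ : ∃ γ : ℝ, γ = (a : ℝ) / b := ⟨_, rfl⟩
  have hγ2 : γ < 1 / 2 := by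
    have : (2 : ℝ) * a < b := by exact_mod_cast hab
    rw [hγ, div_lt_iff₀ hb0]
    linarith
  obtain ⟨c1, hc1⟩ : ∃ c1 : ℝ, c1 = (c + γ) / 2 := ⟨_, rfl⟩
  rw [← hγ] at hc
  have hc1a : c < c1 := by rw [hc1]; linarith
  have hc1b : c1 < γ := by rw [hc1]; linarith
  obtain ⟨ε, hε⟩ : ∃ ε : ℝ, ε = (γ - c1) * Real.log 2 := ⟨_, rfl⟩
  obtain ⟨ε', hε'⟩ : ∃ ε' : ℝ, ε' = (1 / 2 - c1) * Real.log 2 := ⟨_, rfl⟩
  have hε0 : 0 < ε := by rw [hε]; exact mul_pos (by linarith) hl2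
  have hε0' : 0 < ε' := by rw [hε']; exact mul_pos (by linarith) hl2
  obtain ⟨k0, hk0⟩ := exists_nat_ge (c / (c1 - c))
  obtain ⟨l1, hl1⟩ := exists_nat_ge (384 * D / ε ^ 4)
  obtain ⟨l2, hl2n⟩ := exists_nat_ge (8 * D / ε' ^ 2)
  refine eventually_atTop.mpr ⟨2 ^ (2 ^ (k0 + 1) + l1 + l2), fun n hn => ?_⟩
  have hn0 : n ≠ 0 := by
    have := Nat.two_pow_pos (2 ^ (k0 + 1) + l1 + l2)
    omega
  obtain ⟨l, hl⟩ : ∃ l, l = Nat.log 2 n := ⟨_, rfl⟩
  obtain ⟨k, hk⟩ : ∃ k, k = Nat.log 2 l := ⟨_, rfl⟩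
  have hll : 2 ^ (k0 + 1) + l1 + l2 ≤ l := by
    rw [hl]
    exact Nat.le_log_of_pow_le (by norm_num) hn
  have hl1l : l1 ≤ l := (Nat.le_add_left _ _).trans ((Nat.le_add_right _ _).trans hll)
  have hl2l : l2 ≤ l := (Nat.le_add_left _ _).trans hll
  have hkk : k0 + 1 ≤ k := by
    rw [hk]
    exact Nat.le_log_of_pow_le (by norm_num) (by omega)
  have hnl : 2 ^ l ≤ n := by
    rw [hl]
    exact Nat.pow_log_le_self 2 hn0
  have hnl' : n < 2 ^ (l + 1) := by
    rw [hl]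
    exact Nat.lt_pow_succ_log_self (by norm_num) n
  have hl2' : 2 ≤ l := by
    have : 2 ^ 1 ≤ 2 ^ (k0 + 1) := Nat.pow_le_pow_right (by norm_num) (by omega)
    omega
  have hlk : 2 ^ k ≤ l := by
    rw [hk]
    exact Nat.pow_log_le_self 2 (by omega)
  have hlk' : l < 2 ^ (k + 1) := by
    rw [hk]
    exact Nat.lt_pow_succ_log_self (by norm_num) l
  have hn2 : 2 ≤ n := by
    have : 2 ^ 1 ≤ 2 ^ l := Nat.pow_le_pow_right (by norm_num) (by omega)
    omega
  have hkl : k ≤ l := Nat.lt_two_pow_self.le.trans hlk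
  have hkR : c / (c1 - c) ≤ k := hk0.trans (by exact_mod_cast (by omega : k0 ≤ k))
  have hkl' : (k : ℝ) ≤ l := by exact_mod_cast hkl
  have hl1R : (1 : ℝ) ≤ l := by exact_mod_cast (by omega : 1 ≤ l)
  have hk1R : (1 : ℝ) ≤ k := by exact_mod_cast (by omega : 1 ≤ k)
  have hck : c * (k + 1) ≤ c1 * k := by
    rw [div_le_iff₀ (by linarith)] at hkR
    nlinarith
  have hcl : c * (l + 1) ≤ c1 * l := by
    have h1 : c / (c1 - c) ≤ l := hkR.trans hkl'
    rw [div_le_iff₀ (by linarith)] at h1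
    nlinarith
  have hlog := log_facts c c1 hc0 (by linarith) n l k hn2 hnl' hlk' hcl hck
  have hAA := AA_le a b n l k hb hab hl hk
  rw [← hγ] at hAA
  obtain ⟨u, hu⟩ : ∃ u : ℝ, u = √((l : ℝ) * k) := ⟨_, rfl⟩
  rw [← hu] at hlog hAA
  have hu0 : 0 ≤ u := by rw [hu]; exact Real.sqrt_nonneg _
  have hu2 : u ^ 2 = l * k := by
    rw [hu]
    exact Real.sq_sqrt (by positivity)
  have hul : (l : ℝ) ≤ u ^ 2 := by
    rw [hu2]
    nlinarith
  have hul' : u ≤ l := by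
    have h7 : u ^ 2 ≤ (l : ℝ) ^ 2 := by
      rw [hu2, sq]
      exact mul_le_mul_of_nonneg_left hkl' (by positivity)
    exact (pow_le_pow_iff_left₀ hu0 (by positivity) (by norm_num)).mp h7
  obtain ⟨E, hE⟩ : ∃ E : ℝ, E = Real.exp (-(c1 * (Real.log 2 * u))) := ⟨_, rfl⟩
  obtain ⟨F, hF⟩ : ∃ F : ℝ, F = Real.exp (-(ε * u)) := ⟨_, rfl⟩
  have hE0 : 0 < E := by rw [hE]; exact Real.exp_pos _
  have hF0 : 0 < F := by rw [hF]; exact Real.exp_pos _
  have hEF : Real.exp (-(γ * (Real.log 2 * u))) = E * F := by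
    rw [hE, hF, ← Real.exp_add, hε]
    congr 1
    ring
  rw [hEF] at hAA
  have h4 : E ≤ Real.exp (-c * √(Real.log n * Real.log (Real.log n))) := by
    rw [hE, Real.exp_le_exp]
    linarith
  have h6 : 8 * D * (l + 1) * F ≤ 1 := by
    have h7 := exp_four ε D l u hε0 hD hl1R hu0 hul
      (hl1.trans (by exact_mod_cast hl1l))
    have h9 : Real.exp (ε * u) * F = 1 := by
      rw [hF, ← Real.exp_add]
      ring_nf
      exact Real.exp_zero
    calc 8 * D * (l + 1) * F ≤ Real.exp (ε * u) * F := mul_le_mul_of_nonneg_right h7 hF0.le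
      _ = 1 := h9
  have h7 : 2 * D * (l + 1) ≤ √n * E := by
    have h8 : Real.exp ((l : ℝ) * Real.log 2 / 2) ≤ √n := by
      apply Real.le_sqrt_of_sq_le
      have h9 : Real.exp ((l : ℝ) * Real.log 2 / 2) ^ 2 = (2 : ℝ) ^ l := by
        rw [← Real.exp_nat_mul]
        have h10 : ((2 : ℕ) : ℝ) * ((l : ℝ) * Real.log 2 / 2) = l * Real.log 2 := by
          push_cast
          ring
        rw [h10, Real.exp_nat_mul, Real.exp_log (by norm_num)]
      rw [h9]
      exact_mod_cast hnl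
    have h9 := exp_sq ε' D l hε0' hD hl1R
      (hl2n.trans (by exact_mod_cast hl2l))
    refine h9.trans ?_
    calc Real.exp (ε' * l) ≤ Real.exp ((l : ℝ) * Real.log 2 / 2) * E := by
          rw [hE, ← Real.exp_add, Real.exp_le_exp, hε']
          have h10 : c1 * (Real.log 2 * u) ≤ c1 * (Real.log 2 * l) :=
            mul_le_mul_of_nonneg_left (mul_le_mul_of_nonneg_left hul' hl2.le) (by linarith)
          nlinarith
      _ ≤ √n * E := mul_le_mul_of_nonneg_right h8 hE0.le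
  rw [← hl]
  have h8 : D * ((AA a b n : ℝ) * ((l : ℝ) + 1)) ≤
      D * ((4 * √n * (E * F) + 1) * ((l : ℝ) + 1)) :=
    mul_le_mul_of_nonneg_left (mul_le_mul_of_nonneg_right hAA (by positivity)) hD
  have h9 : √n * E ≤ √n * Real.exp (-c * √(Real.log n * Real.log (Real.log n))) :=
    mul_le_mul_of_nonneg_left h4 (Real.sqrt_nonneg _)
  have h10 : (√n * E) * (8 * D * (l + 1) * F) ≤ (√n * E) * 1 :=
    mul_le_mul_of_nonneg_left h6 (by positivity)
  refine h8.trans (le_trans ?_ h9)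
  nlinarith

theorem final_bound (a b : ℕ) (hab : 2 * a < b) (c : ℝ) (hc0 : 0 ≤ c) (hc : c < (a : ℝ) / b)
    (D : ℝ) (hD : 0 ≤ D) : ∃ C : ℝ, 0 ≤ C ∧ ∀ n : ℕ,
    D * ((AA a b n : ℝ) * ((Nat.log 2 n : ℝ) + 1)) ≤
      C + √n * Real.exp (-c * √(Real.log n * Real.log (Real.log n))) :=
  exists_const _ _ (final_large a b hab c hc0 hc D hD)

/-- The number of isomorphism classes of graphs on `n` vertices is computed by a Turing machine
from `1^n` in time `exp (C + √n * exp (-c √(log n log log n)))`, for every `c < 1 / 2`. -/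
theorem main : ∀ c : ℝ, c < 1 / 2 →
    ∃ (tm : FinTM2) (e₀ : tm.Γ tm.k₀ ≃ Bool) (e₁ : tm.Γ tm.k₁ ≃ Bool) (C : ℝ),
    ∀ n : ℕ, ∃ t : ℕ,
      (t : ℝ) ≤ Real.exp (C + √n * Real.exp (-c * √(Real.log n * Real.log (Real.log n)))) ∧
      Nonempty (TM2OutputsInTime tm ((List.replicate n true).map e₀.symm)
        (some ((numGraphs n).bits.map e₁.symm)) t) := by
  intro c hc
  obtain ⟨q, hq1, hq2⟩ := exists_rat_btwn (show max c 0 < 1 / 2 from max_lt hc (by norm_num))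
  have hq0 : 0 < q := by
    have : (0 : ℝ) < q := (le_max_right c 0).trans_lt hq1
    exact_mod_cast this
  obtain ⟨a, ha⟩ : ∃ a : ℕ, a = q.num.toNat := ⟨_, rfl⟩
  obtain ⟨b, hb⟩ : ∃ b : ℕ, b = q.den := ⟨_, rfl⟩
  have hb0 : 0 < b := by rw [hb]; exact q.den_pos
  have hb0' : (0 : ℝ) < b := by exact_mod_cast hb0
  have hqab : (q : ℝ) = (a : ℝ) / b := by
    have h1 : ((a : ℤ)) = q.num := by
      rw [ha]
      exact Int.toNat_of_nonneg (Rat.num_pos.mpr hq0).le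
    have h2 : (a : ℝ) = ((q.num : ℤ) : ℝ) := by
      rw [← h1]
      push_cast
      rfl
    rw [h2, hb]
    exact Rat.cast_def q
  have hab : 2 * a < b := by
    rw [hqab, div_lt_iff₀ hb0'] at hq2
    have : (2 : ℝ) * a < b := by linarith
    exact_mod_cast this
  obtain ⟨K, hK⟩ := exists_Bnd a b hab
  obtain ⟨tm, e₀, e₁, D, d, hM⟩ := machine a b K hb0
  obtain ⟨C, hC0, hC⟩ := final_bound a b hab (max c 0) (le_max_right _ _) (by rw [← hqab]; exact hq1)
    (d * (2 * K + 5)) (by positivity)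
  refine ⟨tm, e₀, e₁, D + C, fun n => ⟨D * 2 ^ (d * (kap a b K n + Nat.log 2 n + 4)), ?_, ?_⟩⟩
  · push_cast
    have h1 : (D : ℝ) ≤ Real.exp D := by
      have := Real.add_one_le_exp (D : ℝ)
      linarith
    obtain ⟨l, hl⟩ : ∃ l, l = Nat.log 2 n := ⟨_, rfl⟩
    have hA : 1 ≤ AA a b n := Nat.le_add_left 1 _
    have h2 : kap a b K n + l + 4 ≤ (2 * K + 5) * (AA a b n * (l + 1)) := by
      unfold kap XX
      rw [← hl]
      have h3 : l + 1 ≤ AA a b n * (l + 1) := Nat.le_mul_of_pos_left _ hA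
      nlinarith
    have h3 : (2 : ℝ) ^ (d * (kap a b K n + l + 4)) ≤
        Real.exp (d * (2 * K + 5) * ((AA a b n : ℝ) * ((l : ℝ) + 1))) := by
      have h4 : (2 : ℝ) ^ (d * (kap a b K n + l + 4)) =
          Real.exp ((d * (kap a b K n + l + 4) : ℕ) * Real.log 2) := by
        rw [Real.exp_nat_mul, Real.exp_log (by norm_num)]
      rw [h4, Real.exp_le_exp]
      have h5 : ((d * (kap a b K n + l + 4) : ℕ) : ℝ) ≤
          d * (2 * K + 5) * ((AA a b n : ℝ) * ((l : ℝ) + 1)) := by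
        have h6 : d * (kap a b K n + l + 4) ≤ d * ((2 * K + 5) * (AA a b n * (l + 1))) :=
          Nat.mul_le_mul_left _ h2
        have h7 : ((d * (kap a b K n + l + 4) : ℕ) : ℝ) ≤
            ((d * ((2 * K + 5) * (AA a b n * (l + 1))) : ℕ) : ℝ) := by exact_mod_cast h6
        refine h7.trans (le_of_eq ?_)
        push_cast
        ring
      have h6 : Real.log 2 < 1 := by
        have := Real.log_two_lt_d9
        linarith
      have h7 : 0 < Real.log 2 := Real.log_pos (by norm_num)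
      calc ((d * (kap a b K n + l + 4) : ℕ) : ℝ) * Real.log 2
          ≤ ((d * (kap a b K n + l + 4) : ℕ) : ℝ) * 1 :=
            mul_le_mul_of_nonneg_left h6.le (Nat.cast_nonneg _)
        _ ≤ _ := by rw [mul_one]; exact h5
    have h4 := hC n
    rw [← hl] at h4 ⊢
    have h5 : Real.exp (-max c 0 * √(Real.log n * Real.log (Real.log n))) ≤
        Real.exp (-c * √(Real.log n * Real.log (Real.log n))) := by
      rw [Real.exp_le_exp]
      have := mul_le_mul_of_nonneg_right (le_max_left c 0)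
        (Real.sqrt_nonneg (Real.log n * Real.log (Real.log n)))
      linarith
    have h6 := mul_le_mul_of_nonneg_left h5 (Real.sqrt_nonneg (n : ℝ))
    calc (D : ℝ) * 2 ^ (d * (kap a b K n + l + 4))
        ≤ Real.exp D * Real.exp (d * (2 * K + 5) * ((AA a b n : ℝ) * ((l : ℝ) + 1))) :=
          mul_le_mul h1 h3 (by positivity) (Real.exp_pos _).le
      _ = Real.exp (D + d * (2 * K + 5) * ((AA a b n : ℝ) * ((l : ℝ) + 1))) := by
          rw [Real.exp_add]
      _ ≤ Real.exp (D + C + √n *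
          Real.exp (-c * √(Real.log n * Real.log (Real.log n)))) := by
          rw [Real.exp_le_exp]
          linarith
  · have h := hM n
    rw [algo_eq (XX a b K n) (2 ^ kap a b K n) (hK n) (le_two_pow_kap a b K n)] at h
    exact h

end Pool.Agent.Lib.MP_4b91fc_lc
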