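import Pool.Agent.Lib.MP_4b91fc_lc.Orb

set_option autoImplicit false

/-!
# The Burnside sum as an iterated sum over the multiplicities of the cycle lengths
-/

namespace Pool.Agent.Lib.MP_4b91fc_lc

open Equiv Function Finset

open scoped Nat

theorem prod_Icc_id (n : ℕ) : ∏ i ∈ Icc 1 n, i = n ! := by
  induction n with
  | zero => simp
  | succ n ih =>
    rw [prod_Icc_succ_top (by omega), ih, Nat.factorial_succ, mul_comm]

/-- product of the numbers up to `n` which are not among `k, 2k, ..., mk` -/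
def wt (n k m : ℕ) : ℕ := ∏ i ∈ (Icc 1 n).filter (fun i => ¬ (k ∣ i ∧ i ≤ k * m)), i

theorem wt_mul (n k m : ℕ) (hk : 0 < k) (h : k * m ≤ n) :
    wt n k m * (k ^ m * m !) = n ! := by
  have h1 : ∏ i ∈ (Icc 1 n).filter (fun i => k ∣ i ∧ i ≤ k * m), i = k ^ m * m ! := by
    have h2 : (Icc 1 n).filter (fun i => k ∣ i ∧ i ≤ k * m) =
        (Icc 1 m).image (fun i => k * i) := by
      ext i
      rw [mem_filter, mem_image, mem_Icc]
      constructor
      · rintro ⟨h3, ⟨j, rfl⟩, h5⟩
        refine ⟨j, ?_, rfl⟩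
        rw [mem_Icc]
        refine ⟨?_, Nat.le_of_mul_le_mul_left h5 hk⟩
        rcases Nat.eq_zero_or_pos j with h6 | h6
        · subst h6
          omega
        · exact h6
      · rintro ⟨j, hj, rfl⟩
        rw [mem_Icc] at hj
        have h6 : k * j ≤ k * m := Nat.mul_le_mul_left _ hj.2
        have h7 : 0 < k * j := Nat.mul_pos hk (by omega)
        exact ⟨⟨h7, h6.trans h⟩, dvd_mul_right _ _, h6⟩
    rw [h2, prod_image (fun a _ b _ hab => Nat.eq_of_mul_eq_mul_left hk hab), prod_mul_distrib,
      prod_const, Nat.card_Icc, Nat.add_sub_cancel, prod_Icc_id]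
  rw [← h1, wt, mul_comm, prod_filter_mul_prod_filter_not, prod_Icc_id]

/-- change one multiplicity -/
def addAt (a : ℕ → ℕ) (k m : ℕ) : ℕ → ℕ := fun j => a j + if j = k then m else 0

/-- exponent -/
def en (n : ℕ) (a : ℕ → ℕ) : ℕ := (qf n a - od n a) / 2

/-- iterated sum over the multiplicities of the sizes in a list -/
def G (n : ℕ) : List ℕ → (ℕ → ℕ) → ℕ → ℕ
  | [], a, t => if t = n then 2 ^ en n a else 0
  | k :: ks, a, t => ∑ m ∈ range (n + 1),
      if t + k * m ≤ n then wt n k m * G n ks (addAt a k m) (t + k * m) else 0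

variable {n : ℕ}

theorem cnt_zero' (σ : Perm (Fin n)) : cnt σ 0 = 0 := by
  by_contra h
  exact absurd (cnt_ne_zero σ 0 h).1 (lt_irrefl _)

theorem sum_cnt (σ : Perm (Fin n)) : ∑ k ∈ Icc 1 n, k * cnt σ k = n := by
  have h := sum_per σ n (by simp) (fun _ => 1)
  simp only [sum_const, smul_eq_mul, mul_one, card_univ, Fintype.card_fin] at h
  rw [range_eq_Ico, sum_eq_sum_Ico_succ_bot (by omega), zero_mul, zero_add] at h
  exact h.symm

theorem cnt_le (σ : Perm (Fin n)) (k : ℕ) (hk : k ∈ Icc 1 n) : k * cnt σ k ≤ n := by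
  conv_rhs => rw [← sum_cnt σ]
  exact single_le_sum (f := fun k => k * cnt σ k) (fun _ _ => Nat.zero_le _) hk

theorem count_cycleType (σ : Perm (Fin n)) (j : ℕ) (hj : 2 ≤ j) :
    σ.cycleType.count j = cnt σ j := by
  unfold cnt
  rw [Perm.parts_partition, Multiset.count_add]
  have h1 : (Multiset.replicate (Fintype.card (Fin n) - #σ.support) 1).count j = 0 := by
    rw [Multiset.count_eq_zero]
    intro h
    have := Multiset.eq_of_mem_replicate h
    omega
  rw [h1, add_zero]

open Classical in
/-- permutations with prescribed numbers of cycles of the lengths in `D` -/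
noncomputable def CS (n : ℕ) (D : Finset ℕ) (a : ℕ → ℕ) : Finset (Perm (Fin n)) :=
  univ.filter (fun σ => ∀ k ∈ D, cnt σ k = a k)

theorem mem_CS (D : Finset ℕ) (a : ℕ → ℕ) (σ : Perm (Fin n)) :
    σ ∈ CS n D a ↔ ∀ k ∈ D, cnt σ k = a k := by
  classical
  unfold CS
  rw [mem_filter]
  exact and_iff_right (mem_univ _)

theorem card_cnt (a : ℕ → ℕ) (ha : ∑ k ∈ Icc 1 n, k * a k = n) :
    (CS n (Icc 1 n) a).card *
      ∏ k ∈ Icc 1 n, (k ^ a k * (a k)!) = n ! := by
  rcases Nat.eq_zero_or_pos n with hn | hn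
  · subst hn
    have h0 : CS 0 (Icc 1 0) a = univ := by
      ext σ
      rw [mem_CS]
      refine ⟨fun _ => mem_univ _, fun _ k hk => ?_⟩
      rw [mem_Icc] at hk
      omega
    rw [h0]
    simp
  obtain ⟨m, hm⟩ : ∃ m : Multiset ℕ, m = ∑ k ∈ Icc 2 n, a k • ({k} : Multiset ℕ) := ⟨_, rfl⟩
  have hcount : ∀ j, m.count j = if j ∈ Icc 2 n then a j else 0 := by
    intro j
    rw [hm, Multiset.count_sum']
    simp only [Multiset.count_nsmul, Multiset.count_singleton]
    simp only [mul_ite, mul_one, mul_zero]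
    rw [sum_ite_eq]
  have hsub : m.toFinset ⊆ Icc 2 n := by
    intro j hj
    rw [Multiset.mem_toFinset, ← Multiset.count_pos, hcount] at hj
    by_contra h
    rw [if_neg h] at hj
    exact absurd hj (lt_irrefl _)
  have hsplit : ∀ f : ℕ → ℕ, ∑ k ∈ Icc 1 n, f k = f 1 + ∑ k ∈ Icc 2 n, f k := by
    intro f
    rw [← Finset.Ico_add_one_right_eq_Icc, ← Finset.Ico_add_one_right_eq_Icc,
      sum_eq_sum_Ico_succ_bot (by omega)]
  have hsplit' : ∀ f : ℕ → ℕ, ∏ k ∈ Icc 1 n, f k = f 1 * ∏ k ∈ Icc 2 n, f k := by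
    intro f
    rw [← Finset.Ico_add_one_right_eq_Icc, ← Finset.Ico_add_one_right_eq_Icc,
      prod_eq_prod_Ico_succ_bot (by omega)]
  have hsum : m.sum = ∑ k ∈ Icc 2 n, k * a k := by
    rw [sum_multiset_count_of_subset m _ hsub]
    refine sum_congr rfl fun k hk => ?_
    rw [hcount, if_pos hk, smul_eq_mul, mul_comm]
  have hprod : m.prod = ∏ k ∈ Icc 2 n, k ^ a k := by
    rw [prod_multiset_count_of_subset m _ hsub]
    refine prod_congr rfl fun k hk => ?_
    rw [hcount, if_pos hk]
  have hfac : ∏ k ∈ m.toFinset, (m.count k)! = ∏ k ∈ Icc 2 n, (a k)! := by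
    rw [prod_subset (s₂ := Icc 2 n) hsub (f := fun k => (m.count k)!)]
    · refine prod_congr rfl fun k hk => ?_
      rw [hcount, if_pos hk]
    · intro k _ hk
      rw [Multiset.mem_toFinset, ← Multiset.count_pos, Nat.pos_iff_ne_zero, not_not] at hk
      rw [hk]
      rfl
  have hA : CS n (Icc 1 n) a =
      (univ.filter (fun σ : Perm (Fin n) => σ.cycleType = m)) := by
    ext σ
    rw [mem_CS, mem_filter, and_iff_right (mem_univ _)]
    constructor
    · intro h
      ext j
      rw [hcount]
      split_ifs with hj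
      · rw [mem_Icc] at hj
        rw [count_cycleType σ j hj.1]
        exact h j (mem_Icc.mpr ⟨by omega, hj.2⟩)
      · rw [Multiset.count_eq_zero]
        intro hj'
        apply hj
        rw [mem_Icc]
        refine ⟨Perm.two_le_of_mem_cycleType hj', ?_⟩
        have := Perm.le_card_support_of_mem_cycleType hj'
        exact this.trans ((card_le_univ _).trans (by simp))
    · intro h
      have h2 : ∀ k ∈ Icc 2 n, cnt σ k = a k := by
        intro k hk
        rw [← count_cycleType σ k (mem_Icc.mp hk).1, h, hcount, if_pos hk]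
      intro k hk
      rw [mem_Icc] at hk
      rcases Nat.lt_or_ge k 2 with hk2 | hk2
      · have hk1 : k = 1 := by omega
        subst hk1
        have h3 := sum_cnt σ
        rw [hsplit] at h3 ha
        rw [sum_congr rfl (g := fun k => k * a k) (fun k hk => by rw [h2 k hk])] at h3
        omega
      · exact h2 k (mem_Icc.mpr ⟨hk2, hk.2⟩)
  have hmain := Perm.card_of_cycleType_mul_eq (Fin n) m
  have hle : m.sum ≤ n := by
    rw [hsum]
    rw [hsplit] at ha
    omega
  rw [if_pos ⟨by simpa using hle, fun j hj => by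
    have := hsub (Multiset.mem_toFinset.mpr hj)
    exact (mem_Icc.mp this).1⟩, Fintype.card_fin, hprod, hfac, hsum] at hmain
  rw [hA, hsplit', ← hmain]
  have h1 : n - ∑ k ∈ Icc 2 n, k * a k = a 1 := by
    rw [hsplit] at ha
    omega
  rw [h1, one_pow, one_mul, prod_mul_distrib]
  ring

theorem qf_congr (M : ℕ) (a b : ℕ → ℕ) (h : ∀ k ∈ range (M + 1), a k = b k) :
    qf M a = qf M b :=
  sum_congr rfl fun k hk => sum_congr rfl fun l hl => by rw [h k hk, h l hl]

theorem od_congr (M : ℕ) (a b : ℕ → ℕ) (h : ∀ k ∈ range (M + 1), a k = b k) :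
    od M a = od M b :=
  sum_congr rfl fun k hk => by rw [h k hk]

theorem en_cnt (σ : Perm (Fin n)) (a : ℕ → ℕ) (h0 : a 0 = 0)
    (h : ∀ k ∈ Icc 1 n, cnt σ k = a k) : en n a = orb σ := by
  have h1 : ∀ k ∈ range (n + 1), a k = cnt σ k := by
    intro k hk
    rcases Nat.eq_zero_or_pos k with hk0 | hk0
    · rw [hk0, h0, cnt_zero']
    · rw [h k (mem_Icc.mpr ⟨hk0, by rw [mem_range] at hk; omega⟩)]
  have h2 := two_orb σ n (by simp)
  unfold en
  rw [qf_congr n a _ h1, od_congr n a _ h1]
  omega

/-- the iterated sum computes the Burnside sum -/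
theorem G_eq (ks : List ℕ) : ∀ (D : Finset ℕ) (a : ℕ → ℕ), ks.Nodup →
    (∀ k ∈ ks, k ∈ Icc 1 n ∧ k ∉ D) → (∀ k ∈ Icc 1 n, k ∈ D ∨ k ∈ ks) → D ⊆ Icc 1 n →
    (∀ k, k ∉ D → a k = 0) → (∑ k ∈ D, k * a k ≤ n) →
    n ! * (G n ks a (∑ k ∈ D, k * a k) * ∏ k ∈ D, wt n k (a k)) =
      n ! ^ n * ∑ σ ∈ CS n D a, 2 ^ orb σ := by
  induction ks with
  | nil =>
    intro D a _ _ h2 h3 h4 h5
    have hD : D = Icc 1 n := by
      apply Subset.antisymm h3
      intro k hk
      rcases h2 k hk with h | h
      · exact h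
      · simp at h
    subst hD
    have h0 : a 0 = 0 := h4 0 (by simp)
    have hle : ∀ k ∈ Icc 1 n, k * a k ≤ n := fun k hk =>
      (single_le_sum (f := fun k => k * a k) (fun _ _ => Nat.zero_le _) hk).trans h5
    unfold G
    split_ifs with ht
    · rw [sum_congr rfl (g := fun _ => 2 ^ en n a) (fun σ hσ => by
        rw [en_cnt σ a h0 ((mem_CS _ _ _).mp hσ)]), sum_const, smul_eq_mul]
      have hc := card_cnt a ht
      have hP : (∏ k ∈ Icc 1 n, wt n k (a k)) * ∏ k ∈ Icc 1 n, (k ^ a k * (a k)!) =
          n ! ^ n := by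
        rw [← prod_mul_distrib, prod_congr rfl (g := fun _ => n !) (fun k hk =>
          wt_mul n k (a k) (mem_Icc.mp hk).1 (hle k hk)), prod_const, Nat.card_Icc,
          Nat.add_sub_cancel]
      have hpos : 0 < ∏ k ∈ Icc 1 n, (k ^ a k * (a k)!) := by
        apply prod_pos
        intro k hk
        have := (mem_Icc.mp hk).1
        positivity
      apply Nat.eq_of_mul_eq_mul_right hpos
      calc n ! * (2 ^ en n a * ∏ k ∈ Icc 1 n, wt n k (a k)) *
            ∏ k ∈ Icc 1 n, (k ^ a k * (a k)!)
          = n ! * 2 ^ en n a * ((∏ k ∈ Icc 1 n, wt n k (a k)) *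
            ∏ k ∈ Icc 1 n, (k ^ a k * (a k)!)) := by ring
        _ = n ! ^ n * ((CS n (Icc 1 n) a).card *
              ∏ k ∈ Icc 1 n, (k ^ a k * (a k)!)) * 2 ^ en n a := by
            rw [hP, hc]
            ring
        _ = _ := by ring
    · have hE : CS n (Icc 1 n) a = ∅ := by
        rw [eq_empty_iff_forall_notMem]
        intro σ h
        rw [mem_CS] at h
        apply ht
        have h6 := sum_cnt σ
        rw [sum_congr rfl (g := fun k => k * a k) (fun k hk => by rw [h k hk])] at h6
        exact h6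
      rw [hE]
      simp
  | cons k ks ih =>
    intro D a hnd h1 h2 h3 h4 h5
    have hk := h1 k List.mem_cons_self
    have hkD : k ∉ D := hk.2
    have hnd' := List.nodup_cons.mp hnd
    have hak : a k = 0 := h4 k hkD
    have hsum : ∀ m, ∑ j ∈ insert k D, j * addAt a k m j = ∑ j ∈ D, j * a j + k * m := by
      intro m
      rw [sum_insert hkD, add_comm]
      congr 1
      · refine sum_congr rfl fun j hj => ?_
        have : j ≠ k := fun h => hkD (h ▸ hj)
        simp [addAt, this]
      · simp [addAt, hak]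
    have hprod : ∀ m, ∏ j ∈ insert k D, wt n j (addAt a k m j) =
        wt n k m * ∏ j ∈ D, wt n j (a j) := by
      intro m
      rw [prod_insert hkD]
      congr 1
      · simp [addAt, hak]
      · refine prod_congr rfl fun j hj => ?_
        have : j ≠ k := fun h => hkD (h ▸ hj)
        simp [addAt, this]
    have step : ∀ m ∈ range (n + 1),
        n ! * ((if (∑ j ∈ D, j * a j) + k * m ≤ n then
          wt n k m * G n ks (addAt a k m) (∑ j ∈ D, j * a j + k * m) else 0) *
          ∏ j ∈ D, wt n j (a j)) =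
        n ! ^ n * ∑ σ ∈ (CS n D a).filter (fun σ => cnt σ k = m), 2 ^ orb σ := by
      intro m _
      have hset : (CS n D a).filter (fun σ => cnt σ k = m) =
          CS n (insert k D) (addAt a k m) := by
        ext σ
        rw [mem_filter, mem_CS, mem_CS, forall_mem_insert]
        constructor
        · rintro ⟨h6, h7⟩
          refine ⟨by simp [addAt, hak, h7], fun j hj => ?_⟩
          have : j ≠ k := fun h => hkD (h ▸ hj)
          simp [addAt, this, h6 j hj]
        · rintro ⟨h6, h7⟩
          refine ⟨fun j hj => ?_, by simpa [addAt, hak] using h6⟩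
          have : j ≠ k := fun h => hkD (h ▸ hj)
          simpa [addAt, this] using h7 j hj
      rw [hset]
      split_ifs with hm
      · have hih := ih (insert k D) (addAt a k m) hnd'.2
          (fun j hj => ⟨(h1 j (List.mem_cons_of_mem _ hj)).1, by
            rw [mem_insert]
            rintro (h | h)
            · exact hnd'.1 (h ▸ hj)
            · exact (h1 j (List.mem_cons_of_mem _ hj)).2 h⟩)
          (fun j hj => by
            rcases h2 j hj with h | h
            · exact Or.inl (mem_insert_of_mem h)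
            · rcases List.mem_cons.mp h with h | h
              · exact Or.inl (h ▸ mem_insert_self _ _)
              · exact Or.inr h)
          (insert_subset hk.1 h3)
          (fun j hj => by
            rw [mem_insert, not_or] at hj
            simp [addAt, hj.1, h4 j hj.2])
          (by rw [hsum]; exact hm)
        rw [← hih, hsum, hprod]
        ring
      · have hE : CS n (insert k D) (addAt a k m) = ∅ := by
          rw [eq_empty_iff_forall_notMem]
          intro σ h
          rw [mem_CS] at h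
          apply hm
          rw [← hsum]
          conv_rhs => rw [← sum_cnt σ]
          rw [sum_congr rfl (g := fun j => j * cnt σ j) (fun j hj => by rw [h j hj])]
          exact sum_le_sum_of_subset (insert_subset hk.1 h3)
        rw [hE]
        simp
    have hmaps : ∀ σ ∈ CS n D a, cnt σ k ∈ range (n + 1) := by
      intro σ _
      rw [mem_range]
      have h6 := cnt_le σ k hk.1
      have h7 := (mem_Icc.mp hk.1).1
      have h8 : cnt σ k ≤ k * cnt σ k := Nat.le_mul_of_pos_left _ h7
      omega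
    rw [← sum_fiberwise_of_maps_to hmaps, mul_sum, ← sum_congr rfl step, G, sum_mul, mul_sum]

theorem G_top (ks : List ℕ) (hnd : ks.Nodup) (h : ∀ k, k ∈ ks ↔ k ∈ Icc 1 n) :
    n ! * G n ks (fun _ => 0) 0 = n ! ^ n * ∑ σ : Perm (Fin n), 2 ^ orb σ := by
  have h1 := G_eq (n := n) ks ∅ (fun _ => 0) hnd (fun k hk => ⟨(h k).mp hk, by simp⟩)
    (fun k hk => Or.inr ((h k).mpr hk)) (by simp) (fun _ _ => rfl) (by simp)
  have h2 : CS n ∅ (fun _ => 0) = univ := by
    ext σ
    rw [mem_CS]
    simp
  rw [h2] at h1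
  simpa only [sum_empty, prod_empty, mul_one] using h1

end Pool.Agent.Lib.MP_4b91fc_lc
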