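import Mathlib

set_option autoImplicit false

/-!
# Cycle lengths of permutations: counting points and powers
-/

namespace Pool.Agent.Lib.MP_4b91fc_lc

open Equiv Function Finset

variable {V : Type} [Fintype V] [DecidableEq V]

/-- length of the cycle of `x` -/
noncomputable def per (σ : Perm V) (x : V) : ℕ := minimalPeriod σ x

theorem pow_apply_iff (σ : Perm V) (x : V) (j : ℕ) : (σ ^ j) x = x ↔ per σ x ∣ j := by
  rw [per, ← isPeriodicPt_iff_minimalPeriod_dvd, IsPeriodicPt, IsFixedPt, Perm.iterate_eq_pow]

theorem per_pos (σ : Perm V) (x : V) : 0 < per σ x := by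
  apply minimalPeriod_pos_of_mem_periodicPts
  refine ⟨orderOf σ, orderOf_pos σ, ?_⟩
  rw [IsPeriodicPt, IsFixedPt, Perm.iterate_eq_pow, pow_orderOf_eq_one]
  rfl

theorem per_dvd_orderOf (σ : Perm V) (x : V) : per σ x ∣ orderOf σ := by
  rw [← pow_apply_iff, pow_orderOf_eq_one]
  rfl

theorem per_of_mem_support (σ : Perm V) (x : V) (hx : x ∈ σ.support) :
    per σ x = (σ.cycleOf x).support.card := by
  have hc : (σ.cycleOf x).IsCycle := Perm.isCycle_cycleOf σ (Perm.mem_support.mp hx)
  have key : ∀ j : ℕ, per σ x ∣ j ↔ (σ.cycleOf x).support.card ∣ j := by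
    intro j
    rw [← pow_apply_iff, ← hc.orderOf, orderOf_dvd_iff_pow_eq_one, hc.pow_eq_one_iff,
      ← Perm.cycleOf_pow_apply_self]
    constructor
    · intro h
      refine ⟨x, ?_, h⟩
      rw [Perm.cycleOf_apply_self]
      exact Perm.mem_support.mp hx
    · rintro ⟨y, hy1, hy2⟩
      have h1 : (σ.cycleOf x) ^ j = 1 := hc.pow_eq_one_iff.mpr ⟨y, hy1, hy2⟩
      rw [h1]
      rfl
  exact Nat.dvd_antisymm ((key _).mpr dvd_rfl) ((key _).mp dvd_rfl)

theorem per_eq_one_iff (σ : Perm V) (x : V) : per σ x = 1 ↔ σ x = x := by
  rw [per, minimalPeriod_eq_one_iff_isFixedPt]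
  rfl

/-- number of cycles of length `k` -/
noncomputable def cnt (σ : Perm V) (k : ℕ) : ℕ := σ.partition.parts.count k

theorem card_per (σ : Perm V) (k : ℕ) :
    (univ.filter (fun x => per σ x = k)).card = k * cnt σ k := by
  unfold cnt
  rw [Perm.parts_partition, Multiset.count_add]
  rcases Nat.lt_or_ge k 2 with hk | hk
  · interval_cases k
    · rw [zero_mul, card_eq_zero, filter_eq_empty_iff]
      intro x _ h
      have := per_pos σ x
      omega
    · have h1 : σ.cycleType.count 1 = 0 := by
        rw [Multiset.count_eq_zero]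
        intro h
        have := Perm.one_lt_of_mem_cycleType h
        omega
      rw [h1, Multiset.count_replicate_self, one_mul, zero_add]
      have h2 : (univ.filter (fun x => per σ x = 1)) = univ \ σ.support := by
        ext x
        rw [mem_filter, mem_sdiff, Perm.mem_support, per_eq_one_iff]
        simp
      rw [h2, card_sdiff_of_subset (subset_univ _), card_univ]
  · have h1 : (Multiset.replicate (Fintype.card V - #σ.support) 1).count k = 0 := by
      rw [Multiset.count_eq_zero]
      intro h
      have := Multiset.eq_of_mem_replicate h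
      omega
    rw [h1, add_zero, Perm.cycleType_def, Multiset.count_map]
    have h2 : (univ.filter (fun x => per σ x = k)) =
        (σ.cycleFactorsFinset.filter (fun c => #c.support = k)).biUnion
          (fun c => c.support) := by
      ext x
      rw [mem_filter, mem_biUnion]
      constructor
      · rintro ⟨-, hx⟩
        have hxs : x ∈ σ.support := by
          rw [Perm.mem_support]
          intro h
          rw [← per_eq_one_iff] at h
          omega
        refine ⟨σ.cycleOf x, ?_, ?_⟩
        · rw [mem_filter]
          refine ⟨Perm.cycleOf_mem_cycleFactorsFinset_iff.mpr hxs, ?_⟩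
          rw [← per_of_mem_support σ x hxs, hx]
        · rw [Perm.mem_support, Perm.cycleOf_apply_self]
          exact Perm.mem_support.mp hxs
      · rintro ⟨c, hc, hxc⟩
        rw [mem_filter] at hc
        have hxs : x ∈ σ.support := Perm.mem_cycleFactorsFinset_support_le hc.1 hxc
        have hcx : c = σ.cycleOf x := Perm.cycle_is_cycleOf hxc hc.1
        refine ⟨mem_univ _, ?_⟩
        rw [per_of_mem_support σ x hxs, ← hcx, hc.2]
    rw [h2, card_biUnion]
    · rw [sum_congr rfl (g := fun _ => k) (fun c hc => (mem_filter.mp hc).2)]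
      rw [sum_const, smul_eq_mul, mul_comm]
      congr 1
      rw [← Multiset.countP_eq_card_filter, card_def, filter_val, ← Multiset.countP_eq_card_filter]
      apply Multiset.countP_congr rfl
      intro c _
      exact propext eq_comm
    · intro c hc d hd hcd
      change Disjoint c.support d.support
      rw [Finset.disjoint_left]
      intro x h1 h2
      apply hcd
      rw [Finset.mem_coe, mem_filter] at hc hd
      rw [Perm.cycle_is_cycleOf h1 hc.1, Perm.cycle_is_cycleOf h2 hd.1]

theorem per_le (σ : Perm V) (x : V) : per σ x ≤ Fintype.card V := by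
  by_cases hx : x ∈ σ.support
  · rw [per_of_mem_support σ x hx]
    exact card_le_univ _
  · rw [Perm.mem_support, not_not] at hx
    rw [(per_eq_one_iff σ x).mpr hx]
    exact Fintype.card_pos_iff.mpr ⟨x⟩

/-- sums over points in terms of the cycle counts -/
theorem sum_per (σ : Perm V) (N : ℕ) (hN : Fintype.card V ≤ N) (g : ℕ → ℕ) :
    ∑ x, g (per σ x) = ∑ k ∈ range (N + 1), k * cnt σ k * g k := by
  have h : ∀ x ∈ (univ : Finset V), per σ x ∈ range (N + 1) := fun x _ => by
    rw [mem_range]
    have := per_le σ x
    omega
  rw [← sum_fiberwise_of_maps_to h]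
  refine sum_congr rfl fun k _ => ?_
  rw [sum_congr rfl (g := fun _ => g k) (fun x hx => by rw [(mem_filter.mp hx).2]), sum_const,
    card_per, smul_eq_mul]

end Pool.Agent.Lib.MP_4b91fc_lc
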