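import Pool.Agent.Lib.MP_4b91fc_lc.PRun
import Pool.Agent.Lib.MP_4b91fc_lc.Ana
import Pool.Agent.Lib.MP_87d05f_lc.OutMachine

set_option autoImplicit false

/-!
# The machine and its running time
-/

namespace Pool.Agent.Lib.MP_4b91fc_lc

open Function Pool.Agent.PolyTime Pool.Agent.Lib.MP_87d05f_lc Turing

variable {α : Type} [SCode α]

theorem length_filter_lt (m c : ℕ) (h : c ≤ m) :
    ((List.range m).filter (fun i => decide (i < c))).length = c := by
  induction m generalizing c with
  | zero => simp; omega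
  | succ m ih =>
    rw [List.range_succ, List.filter_append, List.length_append]
    rcases Nat.lt_or_ge m c with h1 | h1
    · have e : c = m + 1 := by omega
      subst e
      have : (List.range m).filter (fun i => decide (i < m + 1)) = List.range m := by
        rw [List.filter_eq_self]
        intro i hi
        have := List.mem_range.1 hi
        simp
        omega
      rw [this]
      simp
    · rw [ih c h1]
      simp
      omega

theorem ptime_sqrt {f : α → ℕ} (hf : PTime f) : PTime (fun a => Nat.sqrt (f a)) := by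
  refine (PTime.length (PTime.filter (p := fun a i => decide ((i + 1) * (i + 1) ≤ f a))
    (PTime.range hf) (PTime.nat_le (PTime.mul (PTime.succ PTime.snd) (PTime.succ PTime.snd))
      (hf.comp PTime.fst)))).of_eq fun a => ?_
  have h1 : (List.range (f a)).filter (fun i => decide ((i + 1) * (i + 1) ≤ f a)) =
      (List.range (f a)).filter (fun i => decide (i < Nat.sqrt (f a))) := by
    apply List.filter_congr
    intro i _
    rw [decide_eq_decide, ← Nat.le_sqrt]
    exact Nat.succ_le_iff
  rw [h1, length_filter_lt _ _ (Nat.sqrt_le_self _)]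

/-- one step of the computation of the logarithm -/
def logStep (p : ℕ × ℕ) : ℕ × ℕ := if p.1 ≤ 1 then p else (p.1 / 2, p.2 + 1)

theorem logStep_iterate (k : ℕ) : ∀ m c : ℕ, m ≤ k → (logStep^[k] (m, c)).2 = c + Nat.log 2 m := by
  induction k with
  | zero =>
    intro m c h
    have : m = 0 := by omega
    subst this
    simp
  | succ k ih =>
    intro m c h
    rw [iterate_succ_apply]
    by_cases hm : m ≤ 1
    · have h1 : logStep (m, c) = (m, c) := if_pos hm
      have h2 : ∀ j, logStep^[j] (m, c) = (m, c) := by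
        intro j
        induction j with
        | zero => rfl
        | succ j ihj => rw [iterate_succ_apply, h1, ihj]
      rw [h1, h2, Nat.log_of_lt (by omega)]
      rfl
    · have h1 : logStep (m, c) = (m / 2, c + 1) := if_neg hm
      rw [h1, ih _ _ (by omega), Nat.log_of_one_lt_of_le (by norm_num) (by omega : 2 ≤ m)]
      ring

theorem ptime_log {f : α → ℕ} (hf : PTime f) : PTime (fun a => Nat.log 2 (f a)) := by
  have h1 : PTime logStep := by
    unfold logStep
    exact PTime.ite (c := fun p : ℕ × ℕ => p.1 ≤ 1) (PTime.nat_le PTime.fst (PTime.const 1))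
      PTime.id (PTime.pair (Pool.Agent.Lib.MP_b4f117_lc.ptime_div PTime.fst (PTime.const 2)
        (fun _ => by norm_num)) (PTime.succ PTime.snd))
  have h2 : PTime (fun a => logStep^[f a] (f a, 0)) := by
    refine PTime.iterate (f := fun _ s => logStep s) hf (PTime.pair hf (PTime.const 0))
      (h1.comp PTime.snd) 0 ?_
    intro a s
    rw [Polynomial.eval_zero, Nat.add_zero]
    rcases s with ⟨m, c⟩
    unfold logStep
    split_ifs with h
    · exact le_rfl
    · simp only [sz_pair, sz_nat] at h ⊢
      omega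
  refine (PTime.snd.comp h2).of_eq fun a => ?_
  rw [logStep_iterate _ _ _ le_rfl, zero_add]

theorem ptime_AA (c d : ℕ) (hd : 0 < d) {f : α → ℕ} (hf : PTime f) :
    PTime (fun a => AA c d (f a)) := by
  have hg : PTime (fun a => gg c d (f a)) := by
    unfold gg
    exact Pool.Agent.Lib.MP_b4f117_lc.ptime_div (PTime.mul (PTime.const c)
      (ptime_sqrt (PTime.mul (ptime_log hf) (ptime_log (ptime_log hf))))) (PTime.const d)
      (fun _ => hd)
  have h1 : PTime (fun a => (fun r => r / 2)^[gg c d (f a)] (Nat.sqrt (f a))) := by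
    refine PTime.iterate (f := fun _ r => r / 2) hg (ptime_sqrt hf)
      (Pool.Agent.Lib.MP_b4f117_lc.ptime_div PTime.snd (PTime.const 2) (fun _ => by norm_num)) 0 ?_
    intro a s
    rw [Polynomial.eval_zero, sz_nat, sz_nat]
    omega
  refine (PTime.succ h1).of_eq fun a => ?_
  have h2 : ∀ k r, (fun r => r / 2)^[k] r = r / 2 ^ k := by
    intro k
    induction k with
    | zero => intro r; simp
    | succ k ih =>
      intro r
      rw [iterate_succ_apply, ih, Nat.div_div_eq_div_mul, pow_succ]
      congr 1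
      ring
  rw [h2]
  rfl

/-- exponent of the size bound -/
def kap (c d K n : ℕ) : ℕ := XX c d K n * (Nat.log 2 n + 1)

theorem ptime_kap (c d K : ℕ) (hd : 0 < d) {f : α → ℕ} (hf : PTime f) :
    PTime (fun a => kap c d K (f a)) := by
  unfold kap XX
  exact PTime.mul (PTime.add (PTime.const 1) (PTime.mul (PTime.const 2) (PTime.mul (PTime.const K)
    (ptime_AA c d hd hf)))) (PTime.add (ptime_log hf) (PTime.const 1))

theorem le_two_pow_kap (c d K n : ℕ) : (n + 1) ^ XX c d K n ≤ 2 ^ kap c d K n := by
  unfold kap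
  rw [mul_comm, pow_mul]
  apply Nat.pow_le_pow_left
  exact Nat.lt_pow_succ_log_self (by norm_num) n

attribute [local irreducible] algo kap

/-- the budget -/
theorem btime_algo (c d K : ℕ) (hd : 0 < d) : BTime (fun x : List Bool => 2 ^ kap c d K x.length * sz x)
    (fun x : List Bool => algo (2 ^ kap c d K x.length, x.length)) := by
  have h1 := BTime.two_pow (κ := fun x : List Bool => kap c d K x.length)
    (ptime_kap c d K hd (PTime.length PTime.id))
  have h0 : PTime (fun p : ℕ × List Bool => algo (p.1, p.2.length)) :=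
    ptime_algo.comp (PTime.pair PTime.fst (PTime.length PTime.snd))
  refine BTime.comp_ptime (f := fun p : ℕ × List Bool => algo (p.1, p.2.length))
    (g := fun x : List Bool => (2 ^ kap c d K x.length, x)) h0 h1
    (Polynomial.C 8 * Polynomial.X) ?_
  intro x
  rw [sz_pair, sz_nat]
  have h2 : 1 ≤ sz x := sz_pos x
  have h3 : 1 ≤ 2 ^ kap c d K x.length := Nat.one_le_two_pow
  have h4 : 2 ^ kap c d K x.length ≤ 2 ^ kap c d K x.length * sz x := Nat.le_mul_of_pos_right _ h2
  have h5 : sz x ≤ 2 ^ kap c d K x.length * sz x := Nat.le_mul_of_pos_left _ h3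
  simp only [Polynomial.eval_mul, Polynomial.eval_C, Polynomial.eval_X]
  omega

/-- a function in time polynomial in a budget, on raw words -/
theorem raw_machine {T : List Bool → ℕ} {f : List Bool → List Bool} (h : BTime T f)
    (hT : ∀ x, x.length ≤ T x) (R : Polynomial ℕ) (hR : ∀ x, (f x).length ≤ R.eval (T x)) :
    ∃ (tm : FinTM2) (e₀ : tm.Γ tm.k₀ ≃ Bool) (e₁ : tm.Γ tm.k₁ ≃ Bool) (P : Polynomial ℕ),
      ∀ x : List Bool, Nonempty (TM2OutputsInTime tm (x.map e₀.symm)
        (some ((f x).map e₁.symm)) (P.eval (T x))) := by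
  obtain ⟨c, P, hP⟩ := h
  refine ⟨(Flow.compile (.seq convCmd (.seq c decCmd))).toTM .A .A, Equiv.refl _, Equiv.refl _,
    Polynomial.C 7 * Polynomial.X + P + Polynomial.C 7 * R + Polynomial.C 10, fun x => ?_⟩
  have h1 := run_conv x
  have h2 := hP x [] []
  rw [List.append_nil, List.append_nil] at h2
  have h3 := run_dec (f x)
  obtain ⟨t, ht, hrun⟩ := RunLe.seq h1 (RunLe.seq h2 h3)
  rw [← update_eq_stk, ← update_eq_stk] at hrun
  have hb : t + 1 ≤ (Polynomial.C 7 * Polynomial.X + P + Polynomial.C 7 * R +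
      Polynomial.C 10).eval (T x) := by
    have h4 := hT x
    have h5 := hR x
    simp only [Polynomial.eval_add, Polynomial.eval_mul, Polynomial.eval_C, Polynomial.eval_X]
    omega
  have h := Cmd.outputs (.seq convCmd (.seq c decCmd)) .A .A hrun _ hb
  have e : ∀ l : List Bool, List.map (Equiv.refl Bool).symm l = l := fun l => List.map_id l
  exact (congrArg₂ (fun u v => Nonempty (TM2OutputsInTime
    ((Flow.compile (.seq convCmd (.seq c decCmd))).toTM .A .A) u (some v)
      ((Polynomial.C 7 * Polynomial.X + P + Polynomial.C 7 * R +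
        Polynomial.C 10).eval (T x)))) (e x) (e (f x))).mpr h

theorem machine (c d K : ℕ) (hd : 0 < d) : ∃ (tm : FinTM2) (e₀ : tm.Γ tm.k₀ ≃ Bool) (e₁ : tm.Γ tm.k₁ ≃ Bool)
    (D e : ℕ), ∀ n : ℕ, Nonempty (TM2OutputsInTime tm ((List.replicate n true).map e₀.symm)
      (some ((algo (2 ^ kap c d K n, n)).map e₁.symm))
        (D * 2 ^ (e * (kap c d K n + Nat.log 2 n + 4)))) := by
  have halg : PTime (fun p : ℕ × List Bool => algo (p.1, p.2.length)) :=
    ptime_algo.comp (PTime.pair PTime.fst (PTime.length PTime.snd))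
  obtain ⟨R, hR⟩ := halg.sz_le
  have hsz : ∀ x : List Bool, sz (2 ^ kap c d K x.length, x) ≤ 8 * (2 ^ kap c d K x.length * sz x) := by
    intro x
    rw [sz_pair, sz_nat]
    have h2 : 1 ≤ sz x := sz_pos x
    have h3 : 1 ≤ 2 ^ kap c d K x.length := Nat.one_le_two_pow
    have h4 : 2 ^ kap c d K x.length ≤ 2 ^ kap c d K x.length * sz x := Nat.le_mul_of_pos_right _ h2
    have h5 : sz x ≤ 2 ^ kap c d K x.length * sz x := Nat.le_mul_of_pos_left _ h3
    omega
  obtain ⟨tm, e₀, e₁, P, hP⟩ := raw_machine (btime_algo c d K hd) (fun x => by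
      have h1 := length_le_sz x
      have h3 : 1 ≤ 2 ^ kap c d K x.length := Nat.one_le_two_pow
      have h5 : sz x ≤ 2 ^ kap c d K x.length * sz x := Nat.le_mul_of_pos_left _ h3
      omega) (R.comp (Polynomial.C 8 * Polynomial.X)) (fun x => by
      have h1 := length_le_sz (algo (2 ^ kap c d K x.length, x.length))
      have h2 := hR (2 ^ kap c d K x.length, x)
      simp only at h2
      have h3 := eval_mono R (hsz x)
      simp only [Polynomial.eval_comp, Polynomial.eval_mul, Polynomial.eval_C, Polynomial.eval_X]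
      omega)
  obtain ⟨D, e, hD⟩ := Pool.Agent.Lib.MP_b4f117_lc.poly_bound P
  refine ⟨tm, e₀, e₁, D, e, fun n => ?_⟩
  obtain ⟨h1⟩ := hP (List.replicate n true)
  simp only [List.length_replicate] at h1
  refine ⟨⟨h1.toEvalsTo, h1.steps_le_m.trans ?_⟩⟩
  refine (hD _).trans (Nat.mul_le_mul_left _ ?_)
  rw [mul_comm e, pow_mul]
  apply Nat.pow_le_pow_left
  have h2 := sz_listBool_le (List.replicate n true)
  rw [List.length_replicate] at h2
  have h3 : n < 2 ^ (Nat.log 2 n + 1) := Nat.lt_pow_succ_log_self (by norm_num) n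
  have h4 : 1 ≤ 2 ^ kap c d K n := Nat.one_le_two_pow
  calc 2 ^ kap c d K n * sz (List.replicate n true) + 1
      ≤ 2 ^ kap c d K n * (4 * n + 1) + 2 ^ kap c d K n := Nat.add_le_add (Nat.mul_le_mul_left _ h2) h4
    _ = 2 ^ kap c d K n * (4 * n + 2) := by ring
    _ ≤ 2 ^ kap c d K n * (8 * 2 ^ (Nat.log 2 n + 1)) := Nat.mul_le_mul_left _ (by omega)
    _ = 2 ^ (kap c d K n + Nat.log 2 n + 4) := by
        rw [show (8 : ℕ) = 2 ^ 3 by norm_num, ← pow_add, ← pow_add]
        congr 1
        ring

end Pool.Agent.Lib.MP_4b91fc_lc
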