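import Pool.Agent.Lib.MP_4b91fc_lc.Cyc

set_option autoImplicit false

/-!
# The number of graphs fixed by a permutation
-/

namespace Pool.Agent.Lib.MP_4b91fc_lc

open Equiv Function Finset

variable {V : Type} [Fintype V] [DecidableEq V]

/-- ordered pairs of distinct points -/
abbrev OPair (V : Type) : Type := {p : V × V // p.1 ≠ p.2}

/-- swap or not -/
def sw (ε : ℤˣ) (p : V × V) : V × V := if ε = 1 then p else p.swap

/-- the group acting on ordered pairs -/
abbrev Gam (σ : Perm V) : Type := (Subgroup.zpowers σ) × ℤˣ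

theorem sw_ne (σ : Perm V) (ε : ℤˣ) (p : V × V) (h : p.1 ≠ p.2) :
    (sw ε (σ p.1, σ p.2)).1 ≠ (sw ε (σ p.1, σ p.2)).2 := by
  unfold sw
  split_ifs
  · exact fun h' => h (σ.injective h')
  · exact fun h' => h (σ.injective h').symm

instance gamAct (σ : Perm V) : MulAction (Gam σ) (OPair V) where
  smul γ y := ⟨sw γ.2 ((γ.1 : Perm V) y.1.1, (γ.1 : Perm V) y.1.2), sw_ne _ _ _ y.2⟩
  one_smul y := by
    apply Subtype.ext
    change sw (1 : ℤˣ) (y.1.1, y.1.2) = y.1
    simp [sw]
  mul_smul γ δ y := by
    apply Subtype.ext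
    change sw (γ.2 * δ.2) (((γ.1 : Perm V) * (δ.1 : Perm V)) y.1.1,
      ((γ.1 : Perm V) * (δ.1 : Perm V)) y.1.2) =
      sw γ.2 ((γ.1 : Perm V) (sw δ.2 ((δ.1 : Perm V) y.1.1, (δ.1 : Perm V) y.1.2)).1,
        (γ.1 : Perm V) (sw δ.2 ((δ.1 : Perm V) y.1.1, (δ.1 : Perm V) y.1.2)).2)
    rcases Int.units_eq_one_or γ.2 with h1 | h1 <;>
      rcases Int.units_eq_one_or δ.2 with h2 | h2 <;> simp [sw, h1, h2, Prod.swap]

theorem gam_smul_val (σ : Perm V) (γ : Gam σ) (y : OPair V) :
    (γ • y).1 = sw γ.2 ((γ.1 : Perm V) y.1.1, (γ.1 : Perm V) y.1.2) := rfl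

/-- number of orbits on pairs -/
noncomputable def orb (σ : Perm V) : ℕ :=
  Nat.card (Quotient (MulAction.orbitRel (Gam σ) (OPair V)))

/-- graphs fixed by a permutation -/
def FixG (σ : Perm V) : Type := {G : SimpleGraph V // ∀ x y, G.Adj (σ x) (σ y) ↔ G.Adj x y}

theorem fixG_pow (σ : Perm V) (G : SimpleGraph V)
    (h : ∀ x y, G.Adj (σ x) (σ y) ↔ G.Adj x y) (g : Perm V) (hg : g ∈ Subgroup.zpowers σ)
    (x y : V) : G.Adj (g x) (g y) ↔ G.Adj x y := by
  have hm : g ∈ (range (orderOf σ)).image (σ ^ ·) := mem_zpowers_iff_mem_range_orderOf.mp hg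
  obtain ⟨k, -, hk⟩ := Finset.mem_image.mp hm
  have key : ∀ k : ℕ, G.Adj ((σ ^ k) x) ((σ ^ k) y) ↔ G.Adj x y := by
    intro k
    induction k with
    | zero => simp
    | succ k ih =>
      have e : ∀ z, (σ ^ (k + 1)) z = σ ((σ ^ k) z) := fun z => by
        rw [pow_succ']
        rfl
      rw [e, e, h, ih]
  rw [← hk]
  exact key k

theorem card_fixG (σ : Perm V) : Nat.card (FixG σ) = 2 ^ orb σ := by
  have e : FixG σ ≃ Set (Quotient (MulAction.orbitRel (Gam σ) (OPair V))) :=
    { toFun := fun G => {ω | Quotient.liftOn ω (fun y => G.1.Adj y.1.1 y.1.2) (by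
        intro a b hab
        change a ∈ MulAction.orbit (Gam σ) b at hab
        obtain ⟨γ, hγ⟩ := hab
        have hγ' : γ • b = a := hγ
        rw [← hγ', gam_smul_val]
        apply propext
        have h1 := fixG_pow σ G.1 G.2 (γ.1 : Perm V) γ.1.2 b.1.1 b.1.2
        unfold sw
        split_ifs
        · exact h1
        · rw [← h1]
          exact G.1.adj_comm _ _)}
      invFun := fun S => ⟨{ Adj := fun x y => ∃ h : x ≠ y,
          (Quotient.mk (MulAction.orbitRel (Gam σ) (OPair V)) ⟨(x, y), h⟩) ∈ S
                            symm := by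
                              constructor
                              rintro x y ⟨h, hS⟩
                              refine ⟨h.symm, ?_⟩
                              have : Quotient.mk (MulAction.orbitRel (Gam σ) (OPair V))
                                  ⟨(y, x), h.symm⟩ =
                                Quotient.mk (MulAction.orbitRel (Gam σ) (OPair V))
                                  ⟨(x, y), h⟩ := by
                                apply Quotient.sound
                                change _ ∈ MulAction.orbit (Gam σ) _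
                                refine ⟨((1, -1) : Gam σ), ?_⟩
                                apply Subtype.ext
                                change sw (-1 : ℤˣ) (x, y) = (y, x)
                                simp [sw]
                              rw [this]
                              exact hS
                            loopless := ⟨fun x h => h.1 rfl⟩ }, by
        intro x y
        constructor
        · rintro ⟨h, hS⟩
          have hxy : x ≠ y := fun h' => h (by rw [h'])
          refine ⟨hxy, ?_⟩
          have : Quotient.mk (MulAction.orbitRel (Gam σ) (OPair V)) ⟨(σ x, σ y), h⟩ =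
              Quotient.mk (MulAction.orbitRel (Gam σ) (OPair V)) ⟨(x, y), hxy⟩ := by
            apply Quotient.sound
            change _ ∈ MulAction.orbit (Gam σ) _
            refine ⟨((⟨σ, Subgroup.mem_zpowers σ⟩, 1) : Gam σ), ?_⟩
            apply Subtype.ext
            change sw (1 : ℤˣ) (σ x, σ y) = (σ x, σ y)
            simp [sw]
          rw [← this]
          exact hS
        · rintro ⟨h, hS⟩
          have hxy : σ x ≠ σ y := fun h' => h (σ.injective h')
          refine ⟨hxy, ?_⟩
          have : Quotient.mk (MulAction.orbitRel (Gam σ) (OPair V)) ⟨(σ x, σ y), hxy⟩ =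
              Quotient.mk (MulAction.orbitRel (Gam σ) (OPair V)) ⟨(x, y), h⟩ := by
            apply Quotient.sound
            change _ ∈ MulAction.orbit (Gam σ) _
            refine ⟨((⟨σ, Subgroup.mem_zpowers σ⟩, 1) : Gam σ), ?_⟩
            apply Subtype.ext
            change sw (1 : ℤˣ) (σ x, σ y) = (σ x, σ y)
            simp [sw]
          rw [this]
          exact hS⟩
      left_inv := by
        rintro ⟨G, hG⟩
        apply Subtype.ext
        ext x y
        constructor
        · rintro ⟨_, h⟩
          exact h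
        · intro h
          exact ⟨h.ne, h⟩
      right_inv := by
        intro S
        ext ω
        induction ω using Quotient.inductionOn with
        | h y =>
          constructor
          · rintro ⟨_, h⟩
            exact h
          · intro h
            exact ⟨y.2, h⟩ }
  rw [Nat.card_congr e, orb]
  have : Finite (Quotient (MulAction.orbitRel (Gam σ) (OPair V))) := inferInstance
  have := Fintype.ofFinite (Quotient (MulAction.orbitRel (Gam σ) (OPair V)))
  rw [Nat.card_eq_fintype_card, Nat.card_eq_fintype_card, Fintype.card_set]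

/-- number of fixed points -/
def fp (τ : Perm V) : ℕ := (univ.filter (fun x => τ x = x)).card

theorem card_fixA (τ : Perm V) :
    (univ.filter (fun y : OPair V => (τ y.1.1, τ y.1.2) = y.1)).card + fp τ = fp τ * fp τ := by
  have h1 : (univ.filter (fun y : OPair V => (τ y.1.1, τ y.1.2) = y.1)).card =
      ((univ.filter (fun x => τ x = x)).offDiag).card := by
    apply card_nbij (i := fun y => y.1)
    · intro y hy
      simp only [mem_coe, mem_filter, mem_univ, true_and, Prod.ext_iff] at hy
      rw [mem_coe, mem_offDiag, mem_filter, mem_filter]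
      exact ⟨⟨mem_univ _, hy.1⟩, ⟨mem_univ _, hy.2⟩, y.2⟩
    · intro y _ z _ h
      exact Subtype.ext h
    · intro p hp
      rw [mem_coe, mem_offDiag, mem_filter, mem_filter] at hp
      refine ⟨⟨p, hp.2.2⟩, ?_, rfl⟩
      simp only [mem_coe, mem_filter, mem_univ, true_and, Prod.ext_iff]
      exact ⟨hp.1.2, hp.2.1.2⟩
  rw [h1, offDiag_card, fp]
  have : (univ.filter (fun x => τ x = x)).card ≤
      (univ.filter (fun x => τ x = x)).card * (univ.filter (fun x => τ x = x)).card :=
    Nat.le_mul_self _
  omega

theorem card_fixB (τ : Perm V) :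
    (univ.filter (fun y : OPair V => (τ y.1.2, τ y.1.1) = y.1)).card + fp τ = fp (τ ^ 2) := by
  have h1 : (univ.filter (fun y : OPair V => (τ y.1.2, τ y.1.1) = y.1)).card =
      (univ.filter (fun x => (τ ^ 2) x = x ∧ ¬ τ x = x)).card := by
    apply card_nbij (i := fun y => y.1.1)
    · intro y hy
      simp only [mem_coe, mem_filter, mem_univ, true_and, Prod.ext_iff] at hy ⊢
      refine ⟨?_, ?_⟩
      · rw [pow_two, Perm.mul_apply, hy.2, hy.1]
      · rw [hy.2]
        exact fun h => y.2 h.symm
    · intro y hy z hz h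
      simp only [mem_coe, mem_filter, mem_univ, true_and, Prod.ext_iff] at hy hz
      apply Subtype.ext
      apply Prod.ext h
      rw [← hy.2, ← hz.2]
      exact congrArg _ h
    · intro x hx
      simp only [mem_coe, mem_filter, mem_univ, true_and] at hx
      refine ⟨⟨(x, τ x), fun h => hx.2 h.symm⟩, ?_, rfl⟩
      simp only [mem_coe, mem_filter, mem_univ, true_and, Prod.ext_iff]
      have := hx.1
      rw [pow_two, Perm.mul_apply] at this
      exact ⟨this, trivial⟩
  rw [h1, fp, fp]
  have h2 : (univ.filter (fun x => (τ ^ 2) x = x)) =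
      (univ.filter (fun x => (τ ^ 2) x = x ∧ ¬ τ x = x)) ∪ (univ.filter (fun x => τ x = x)) := by
    ext x
    simp only [mem_filter, mem_univ, true_and, mem_union]
    constructor
    · intro h
      by_cases h' : τ x = x
      · exact Or.inr h'
      · exact Or.inl ⟨h, h'⟩
    · rintro (h | h)
      · exact h.1
      · rw [pow_two, Perm.mul_apply, h, h]
  rw [h2, card_union_of_disjoint]
  rw [Finset.disjoint_left]
  intro x h3 h4
  simp only [mem_filter, mem_univ, true_and] at h3 h4
  exact h3.2 h4

theorem burnside_pairs (σ : Perm V) :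
    2 * orderOf σ * orb σ + 2 * ∑ j ∈ range (orderOf σ), fp (σ ^ j) =
      ∑ j ∈ range (orderOf σ), fp (σ ^ j) * fp (σ ^ j) +
      ∑ j ∈ range (orderOf σ), fp (σ ^ (2 * j)) := by
  classical
  have hB := MulAction.sum_card_fixedBy_eq_card_orbits_mul_card_group (Gam σ) (OPair V)
  have hc : Fintype.card (Gam σ) = orderOf σ * 2 := by
    rw [Fintype.card_prod, Fintype.card_zpowers]
    rfl
  rw [hc] at hB
  have hΩ : Fintype.card (Quotient (MulAction.orbitRel (Gam σ) (OPair V))) = orb σ := by
    rw [orb, Nat.card_eq_fintype_card]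
  rw [hΩ] at hB
  have hs : ∑ γ : Gam σ, Fintype.card (MulAction.fixedBy (OPair V) γ) =
      ∑ j ∈ range (orderOf σ),
        ((univ.filter (fun y : OPair V => ((σ ^ j) y.1.1, (σ ^ j) y.1.2) = y.1)).card +
        (univ.filter (fun y : OPair V => ((σ ^ j) y.1.2, (σ ^ j) y.1.1) = y.1)).card) := by
    rw [Fintype.sum_prod_type, ← Fin.sum_univ_eq_sum_range (fun j =>
      ((univ.filter (fun y : OPair V => ((σ ^ j) y.1.1, (σ ^ j) y.1.2) = y.1)).card +
        (univ.filter (fun y : OPair V => ((σ ^ j) y.1.2, (σ ^ j) y.1.1) = y.1)).card))]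
    refine (Fintype.sum_equiv (finEquivZPowers (isOfFinOrder_of_finite σ)) _ _ ?_).symm
    intro j
    have hj : ((finEquivZPowers (isOfFinOrder_of_finite σ) j : Subgroup.zpowers σ) : Perm V) =
        σ ^ (j : ℕ) := rfl
    rw [show (univ : Finset ℤˣ) = {1, -1} from rfl, sum_pair (by decide)]
    congr 1
    · rw [Fintype.card_subtype]
      congr 1
      ext y
      simp only [mem_filter, mem_univ, true_and]
      rw [MulAction.mem_fixedBy, Subtype.ext_iff, gam_smul_val]
      simp [sw, hj]
    · rw [Fintype.card_subtype]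
      congr 1
      ext y
      simp only [mem_filter, mem_univ, true_and]
      rw [MulAction.mem_fixedBy, Subtype.ext_iff, gam_smul_val]
      simp [sw, hj]
  rw [hs] at hB
  have h1 : ∀ j, ((univ.filter (fun y : OPair V => ((σ ^ j) y.1.1, (σ ^ j) y.1.2) = y.1)).card +
        (univ.filter (fun y : OPair V => ((σ ^ j) y.1.2, (σ ^ j) y.1.1) = y.1)).card) +
        2 * fp (σ ^ j) = fp (σ ^ j) * fp (σ ^ j) + fp (σ ^ (2 * j)) := by
    intro j
    have h2 := card_fixA (σ ^ j)
    have h3 := card_fixB (σ ^ j)
    rw [← pow_mul, mul_comm j 2] at h3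
    omega
  rw [mul_sum, ← sum_add_distrib, ← sum_congr rfl (fun j _ => h1 j), sum_add_distrib, hB]
  ring

end Pool.Agent.Lib.MP_4b91fc_lc
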