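import Pool.Agent.Lib.MP_4b91fc_lc.Count

set_option autoImplicit false

/-!
# The number of unlabelled graphs and Burnside's lemma
-/

namespace Pool.Agent.Lib.MP_4b91fc_lc

open Equiv Function Finset

open scoped Nat

/-- isomorphism of graphs on `n` vertices -/
def isoSetoid (n : ℕ) : Setoid (SimpleGraph (Fin n)) where
  r G H := Nonempty (G ≃g H)
  iseqv := ⟨fun _ => ⟨SimpleGraph.Iso.refl⟩, fun ⟨e⟩ => ⟨e.symm⟩, fun ⟨e⟩ ⟨f⟩ => ⟨e.trans f⟩⟩

/-- the number of isomorphism classes of graphs on `n` vertices -/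
noncomputable def numGraphs (n : ℕ) : ℕ := Nat.card (Quotient (isoSetoid n))

variable {n : ℕ}

/-- relabelling of graphs -/
@[reducible] def relabel (n : ℕ) : MulAction (Perm (Fin n)) (SimpleGraph (Fin n)) where
  smul σ G := G.comap (⇑(σ⁻¹ : Perm (Fin n)))
  one_smul G := by
    ext x y
    rfl
  mul_smul σ τ G := by
    ext x y
    change G.Adj ((σ * τ)⁻¹ x) ((σ * τ)⁻¹ y) ↔ G.Adj (τ⁻¹ (σ⁻¹ x)) (τ⁻¹ (σ⁻¹ y))
    rw [mul_inv_rev]
    rfl

theorem factorial_mul_numGraphs (n : ℕ) :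
    n ! * numGraphs n = ∑ σ : Perm (Fin n), 2 ^ orb σ := by
  classical
  letI := relabel n
  have hB := MulAction.sum_card_fixedBy_eq_card_orbits_mul_card_group (Perm (Fin n))
    (SimpleGraph (Fin n))
  have h1 : isoSetoid n = MulAction.orbitRel (Perm (Fin n)) (SimpleGraph (Fin n)) := by
    ext G H
    change Nonempty (G ≃g H) ↔ G ∈ MulAction.orbit (Perm (Fin n)) H
    rw [MulAction.mem_orbit_iff]
    constructor
    · rintro ⟨e⟩
      refine ⟨e.toEquiv⁻¹, ?_⟩
      ext x y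
      change H.Adj (((e.toEquiv⁻¹)⁻¹ : Perm (Fin n)) x) (((e.toEquiv⁻¹)⁻¹ : Perm (Fin n)) y) ↔ _
      rw [inv_inv]
      exact e.map_adj_iff
    · rintro ⟨σ, hσ⟩
      refine ⟨⟨σ⁻¹, ?_⟩⟩
      intro x y
      rw [← hσ]
      rfl
  have h2 : numGraphs n =
      Fintype.card (Quotient (MulAction.orbitRel (Perm (Fin n)) (SimpleGraph (Fin n)))) := by
    rw [numGraphs, h1, Nat.card_eq_fintype_card]
  rw [h2, mul_comm]
  rw [Fintype.card_perm, Fintype.card_fin] at hB
  rw [← hB]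
  refine sum_congr rfl fun σ _ => ?_
  rw [← card_fixG, ← Nat.card_eq_fintype_card]
  apply Nat.card_congr
  refine Equiv.subtypeEquivRight fun G => ?_
  rw [MulAction.mem_fixedBy, SimpleGraph.ext_iff]
  constructor
  · intro h x y
    have h3 := congrFun (congrFun h (σ x)) (σ y)
    change G.Adj (σ⁻¹ (σ x)) (σ⁻¹ (σ y)) = G.Adj (σ x) (σ y) at h3
    rw [Equiv.Perm.inv_def, Equiv.symm_apply_apply, Equiv.symm_apply_apply] at h3
    rw [h3]
  · intro h
    funext x y
    change G.Adj (σ⁻¹ x) (σ⁻¹ y) = G.Adj x y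
    rw [← h, Equiv.Perm.inv_def, Equiv.apply_symm_apply, Equiv.apply_symm_apply]

/-- The iterated sum over all multiplicities is `(n!) ^ n` times the number of graphs. -/
theorem G_numGraphs (ks : List ℕ) (hnd : ks.Nodup) (h : ∀ k, k ∈ ks ↔ k ∈ Icc 1 n) :
    G n ks (fun _ => 0) 0 = n ! ^ n * numGraphs n := by
  have h1 := G_top (n := n) ks hnd h
  rw [← factorial_mul_numGraphs] at h1
  apply Nat.eq_of_mul_eq_mul_left (Nat.factorial_pos n)
  rw [h1]
  ring

end Pool.Agent.Lib.MP_4b91fc_lc
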