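import Pool.Agent.Lib.MP_4b91fc_lc.PTab

set_option autoImplicit false

/-!
# The run of the algorithm in polynomial time
-/

namespace Pool.Agent.Lib.MP_4b91fc_lc

open Function Finset Pool.Agent.PolyTime

open scoped Nat

variable {n : ℕ}

/-! ### The list of instructions -/

theorem insD_eq (n q : ℕ) : insD n q = ((List.range q).reverse.flatMap (fun r =>
    if 3 ≤ r + 1 ∧ (r + 1).Prime then (blk n (r + 1)).map Sum.inl ++ [Sum.inr (r + 1)] else [])) ++
      (fin2 n).map Sum.inl := by
  induction q with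
  | zero => rfl
  | succ q ih =>
    rw [insD, ih, List.range_succ, List.reverse_append, List.reverse_singleton,
      List.singleton_append, List.flatMap_cons, List.append_assoc]

theorem ptime_blk {α : Type} [SCode α] {n p : α → ℕ} (hn : PTime n) (hp : PTime p) :
    PTime (fun a => blk (n a) (p a)) := by
  unfold blk
  refine PTime.filter (p := fun a k => decide (1 ≤ k ∧ p a ∣ k ∧ Smth (p a) k))
    (PTime.range (PTime.succ hn)) ?_
  refine (PTime.and (PTime.nat_le (PTime.const 1) PTime.snd) (PTime.and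
    (ptime_dvd (hp.comp PTime.fst) PTime.snd) (ptime_smth (hp.comp PTime.fst)
      PTime.snd))).of_eq fun q => ?_
  rw [Bool.decide_and, Bool.decide_and]

theorem ptime_fin2 {α : Type} [SCode α] {n : α → ℕ} (hn : PTime n) :
    PTime (fun a => fin2 (n a)) := by
  unfold fin2
  refine PTime.filter (p := fun _ k => decide (1 ≤ k ∧ Smth 2 k))
    (PTime.range (PTime.succ hn)) ?_
  refine (PTime.and (PTime.nat_le (PTime.const 1) PTime.snd)
    (ptime_smth (PTime.const 2) PTime.snd)).of_eq fun q => ?_
  rw [Bool.decide_and]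

theorem ptime_insD {α : Type} [SCode α] {n : α → ℕ} (hn : PTime n) :
    PTime (fun a => insD (n a) (n a)) := by
  have h1 : PTime (fun q : α × ℕ => if 3 ≤ q.2 + 1 ∧ (q.2 + 1).Prime then
      (blk (n q.1) (q.2 + 1)).map (Sum.inl : ℕ → Ins) ++ [Sum.inr (q.2 + 1)] else []) := by
    refine PTime.ite (c := fun q : α × ℕ => 3 ≤ q.2 + 1 ∧ (q.2 + 1).Prime) ?_
      (PTime.append (PTime.map (f := fun _ k => (Sum.inl k : Ins))
        (ptime_blk (hn.comp PTime.fst) (PTime.succ PTime.snd)) (PTime.inl PTime.snd))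
        (PTime.cons (PTime.inr (PTime.succ PTime.snd)) (PTime.const []))) (PTime.const [])
    refine (PTime.and (PTime.nat_le (PTime.const 3) (PTime.succ PTime.snd))
      (ptime_prime (PTime.succ PTime.snd))).of_eq fun q => ?_
    rw [Bool.decide_and]
  refine (PTime.append (PTime.flatMap (f := fun a r => if 3 ≤ r + 1 ∧ (r + 1).Prime then
      (blk (n a) (r + 1)).map (Sum.inl : ℕ → Ins) ++ [Sum.inr (r + 1)] else [])
    (PTime.reverse (PTime.range hn)) h1) (PTime.map (f := fun _ k => (Sum.inl k : Ins))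
      (ptime_fin2 hn) (PTime.inl PTime.snd))).of_eq fun a => ?_
  rw [insD_eq]

theorem length_insD (n q : ℕ) : (insD n q).length ≤ (q + 1) * (n + 2) := by
  induction q with
  | zero =>
    unfold insD fin2
    rw [List.length_map]
    have := List.length_filter_le (fun k => decide (1 ≤ k ∧ Smth 2 k)) (List.range (n + 1))
    rw [List.length_range] at this
    omega
  | succ q ih =>
    rw [insD, List.length_append]
    have h1 : (if 3 ≤ q + 1 ∧ (q + 1).Prime then (blk n (q + 1)).map (Sum.inl : ℕ → Ins) ++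
        [Sum.inr (q + 1)] else []).length ≤ n + 2 := by
      split_ifs
      · rw [List.length_append, List.length_map, List.length_singleton]
        unfold blk
        have := List.length_filter_le (fun k => decide (1 ≤ k ∧ (q + 1) ∣ k ∧ Smth (q + 1) k))
          (List.range (n + 1))
        rw [List.length_range] at this
        omega
      · simp
    rw [Nat.succ_mul]
    omega

/-! ### Bounds -/

/-- maximal number of instructions -/
def II (n : ℕ) : ℕ := (n + 1) * (n + 2)

/-- growth exponent of the total weight -/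
def BB (n : ℕ) : ℕ := n + 1 + n * n + n * (II n * n) ^ 2

/-- the invariant -/
def Bd (n cap i : ℕ) (T : Tb) : Prop :=
  T.length ≤ cap + 1 ∧ (∀ κ ∈ ks T, κ.1.length = n + 1 ∧ ∑ j ∈ range (n + 1), vf κ.1 j ≤ i * n ∧
    κ.2 ≤ n) ∧ tw T ≤ 2 ^ (i * BB n)

theorem wt_le (n k m : ℕ) : wt n k m ≤ 2 ^ (n * n) := by
  unfold wt
  calc ∏ i ∈ (Icc 1 n).filter (fun i => ¬ (k ∣ i ∧ i ≤ k * m)), i
      ≤ ∏ i ∈ (Icc 1 n).filter (fun i => ¬ (k ∣ i ∧ i ≤ k * m)), 2 ^ n := by
        refine prod_le_prod' fun i hi => ?_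
        rw [mem_filter, mem_Icc] at hi
        exact hi.1.2.trans Nat.lt_two_pow_self.le
    _ = (2 ^ n) ^ ((Icc 1 n).filter (fun i => ¬ (k ∣ i ∧ i ≤ k * m))).card := by rw [prod_const]
    _ ≤ (2 ^ n) ^ n := by
        refine Nat.pow_le_pow_right (by positivity) ((card_filter_le _ _).trans ?_)
        rw [Nat.card_Icc]
        omega
    _ = 2 ^ (n * n) := by rw [← pow_mul]

theorem tw_nil : tw [] = 0 := rfl

theorem tw_cons (e : Key × Big) (T : Tb) : tw (e :: T) = e.2.val + tw T := rfl

theorem tw_append (T U : Tb) : tw (T ++ U) = tw T + tw U := by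
  unfold tw
  rw [List.map_append, List.sum_append]

theorem tw_take_le (T : Tb) (c : ℕ) : tw (T.take c) ≤ tw T := by
  conv_rhs => rw [← List.take_append_drop c T, tw_append]
  exact Nat.le_add_right _ _

theorem tw_out_inl (k : ℕ) (e : Key × Big) :
    tw (out n (.inl k) e) ≤ e.2.val * 2 ^ (n + 1 + n * n) := by
  unfold out
  rw [Sum.elim_inl]
  have h1 : ∀ l : List ℕ, tw (l.filterMap (fun m => if e.1.2 + k * m ≤ n then
      some ((tb n (addAt (vf e.1.1) k m), e.1.2 + k * m), (⟨wmul n k m e.2.val⟩ : Big)) else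
        none)) ≤ l.length * (e.2.val * 2 ^ (n * n)) := by
    intro l
    induction l with
    | nil => simp [tw_nil]
    | cons m l ih =>
      rw [List.filterMap_cons, List.length_cons, Nat.succ_mul]
      by_cases hm : e.1.2 + k * m ≤ n
      · rw [if_pos hm]
        simp only
        rw [tw_cons]
        simp only
        have h2 : wmul n k m e.2.val ≤ e.2.val * 2 ^ (n * n) := by
          rw [wmul_eq]
          exact Nat.mul_le_mul_left _ (wt_le n k m)
        omega
      · rw [if_neg hm]
        simp only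
        omega
  refine (h1 _).trans ?_
  rw [List.length_range]
  calc (n + 1) * (e.2.val * 2 ^ (n * n)) ≤ 2 ^ (n + 1) * (e.2.val * 2 ^ (n * n)) :=
        Nat.mul_le_mul_right _ Nat.lt_two_pow_self.le
    _ = e.2.val * 2 ^ (n + 1 + n * n) := by rw [pow_add]; ring

theorem en_le (n S : ℕ) (a : ℕ → ℕ) (h : ∑ j ∈ range (n + 1), a j ≤ S) : en n a ≤ n * S ^ 2 := by
  unfold en
  have h1 : qf n a ≤ n * S ^ 2 := by
    unfold qf
    calc ∑ k ∈ range (n + 1), ∑ l ∈ range (n + 1), a k * a l * Nat.gcd k l
        ≤ ∑ k ∈ range (n + 1), ∑ l ∈ range (n + 1), a k * a l * n := by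
          refine sum_le_sum fun k hk => sum_le_sum fun l hl => Nat.mul_le_mul_left _ ?_
          rw [mem_range] at hk hl
          rcases Nat.eq_zero_or_pos k with h1 | h1
          · rw [h1, Nat.gcd_zero_left]
            omega
          · exact (Nat.gcd_le_left l h1).trans (by omega)
      _ = n * (∑ j ∈ range (n + 1), a j) ^ 2 := by
          rw [sq, sum_mul_sum, mul_sum]
          refine sum_congr rfl fun k _ => ?_
          rw [mul_sum]
          refine sum_congr rfl fun l _ => ?_
          ring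
      _ ≤ n * S ^ 2 := Nat.mul_le_mul_left _ (Nat.pow_le_pow_left h 2)
  omega

theorem tw_out_inr (p S : ℕ) (e : Key × Big) (h : ∑ j ∈ range (n + 1), vf e.1.1 j ≤ S) :
    tw (out n (.inr p) e) ≤ e.2.val * 2 ^ (n * S ^ 2) := by
  unfold out
  rw [Sum.elim_inr, tw_cons, tw_nil, add_zero]
  simp only
  apply Nat.mul_le_mul_left
  apply Nat.pow_le_pow_right (by norm_num)
  have := en_le n S (vf e.1.1) h
  omega

theorem tw_step (T : Tb) (x : Ins) (B : ℕ) (h : ∀ e ∈ T, tw (out n x e) ≤ e.2.val * 2 ^ B) :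
    tw (step n T x) ≤ tw T * 2 ^ B := by
  rw [tw_eq_ev, step, ev_merge, ← tw_eq_ev]
  induction T with
  | nil => simp [tw]
  | cons e T ih =>
    rw [List.flatMap_cons, tw_append, tw_cons, add_mul]
    exact Nat.add_le_add (h e List.mem_cons_self)
      (ih fun e' he' => h e' (List.mem_cons_of_mem _ he'))

theorem sum_vf_tb (a : ℕ → ℕ) : ∑ j ∈ range (n + 1), vf (tb n a) j = ∑ j ∈ range (n + 1), a j :=
  sum_congr rfl fun j hj => vf_tb n a j hj

theorem length_tb (a : ℕ → ℕ) : (tb n a).length = n + 1 := by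
  unfold tb
  rw [List.length_map, List.length_range]

theorem mem_ks_take (T : Tb) (c : ℕ) (κ : Key) (h : κ ∈ ks (T.take c)) : κ ∈ ks T := by
  unfold ks at h ⊢
  rw [List.mem_map] at h ⊢
  obtain ⟨e, he, h2⟩ := h
  exact ⟨e, List.mem_of_mem_take he, h2⟩

theorem step_Bd (cap i : ℕ) (T : Tb) (x : Ins) (h : Bd n cap i T) (hi : i ≤ II n) :
    Bd n cap (i + 1) ((step n T x).take cap) := by
  obtain ⟨h1, h2, h3⟩ := h
  refine ⟨?_, ?_, ?_⟩
  · rw [List.length_take]
    omega
  · intro κ hκ
    obtain ⟨e, he, h4⟩ := mem_ks_step T x κ (mem_ks_take _ _ _ hκ)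
    obtain ⟨h5, h6, h7⟩ := h2 e.1 (by unfold ks; exact List.mem_map.mpr ⟨e, he, rfl⟩)
    rcases x with k | p
    · obtain ⟨m, hm, rfl⟩ : ∃ m, (m ≤ n ∧ e.1.2 + k * m ≤ n) ∧
          κ = (tb n (addAt (vf e.1.1) k m), e.1.2 + k * m) := by
        unfold ks out at h4
        rw [Sum.elim_inl, List.mem_map] at h4
        obtain ⟨x, hx, hx2⟩ := h4
        rw [List.mem_filterMap] at hx
        obtain ⟨m, hmr, hm⟩ := hx
        split_ifs at hm with h1
        rw [List.mem_range] at hmr
        refine ⟨m, ⟨by omega, h1⟩, ?_⟩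
        rw [← hx2]
        rw [Option.some_inj] at hm
        rw [← hm]
      refine ⟨length_tb _, ?_, hm.2⟩
      rw [sum_vf_tb]
      unfold addAt
      rw [sum_add_distrib, sum_ite_eq']
      have : (if k ∈ range (n + 1) then m else 0) ≤ m := by
        split_ifs
        · exact le_rfl
        · exact Nat.zero_le _
      rw [Nat.succ_mul]
      omega
    · have h8 := mem_ks_out_inr p e κ h4
      rw [h8]
      refine ⟨length_tb _, ?_, h7⟩
      rw [sum_vf_tb]
      have h9 := sum_strV (n := n) p (vf e.1.1) (fun _ => 1)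
      simp only [mul_one] at h9
      rw [h9, Nat.succ_mul]
      omega
  · refine (tw_take_le _ _).trans ?_
    have h4 : tw (step n T x) ≤ tw T * 2 ^ BB n := by
      refine tw_step T x (BB n) fun e he => ?_
      rcases x with k | p
      · refine (tw_out_inl k e).trans (Nat.mul_le_mul_left _ (Nat.pow_le_pow_right
          (by norm_num) ?_))
        unfold BB
        omega
      · obtain ⟨-, h6, -⟩ := h2 e.1 (by unfold ks; exact List.mem_map.mpr ⟨e, he, rfl⟩)
        refine (tw_out_inr p (II n * n) e (h6.trans (Nat.mul_le_mul_right _ hi))).trans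
          (Nat.mul_le_mul_left _ (Nat.pow_le_pow_right (by norm_num) ?_))
        unfold BB
        omega
    refine h4.trans ?_
    calc tw T * 2 ^ BB n ≤ 2 ^ (i * BB n) * 2 ^ BB n := Nat.mul_le_mul_right _ h3
      _ = 2 ^ ((i + 1) * BB n) := by rw [← pow_add]; congr 1; ring

theorem T0_Bd (n cap : ℕ) : Bd n cap 0 (T0 n) := by
  refine ⟨?_, ?_, ?_⟩
  · unfold T0
    simp
  · intro κ hκ
    have h2 : κ = (tb n (fun _ => 0), 0) := by
      unfold T0 ks at hκ
      rw [List.map_singleton, List.mem_singleton] at hκ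
      exact hκ
    rw [h2]
    refine ⟨length_tb _, ?_, Nat.zero_le _⟩
    rw [sum_vf_tb]
    simp
  · unfold T0
    simp [tw]

theorem run_Bd (cap : ℕ) (is : List Ins) : ∀ (i : ℕ) (T : Tb), Bd n cap i T →
    i + is.length ≤ II n + 1 → Bd n cap (i + is.length) (runT n cap is T) := by
  induction is with
  | nil => intro i T h _; exact h
  | cons x is ih =>
    intro i T h hi
    rw [List.length_cons] at hi ⊢
    have h1 := ih (i + 1) ((step n T x).take cap) (step_Bd cap i T x h (by omega)) (by omega)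
    have e : i + 1 + is.length = i + (is.length + 1) := by ring
    rw [e] at h1
    exact h1

/-- bound for the size of the tables -/
def SB (cap n : ℕ) : ℕ :=
  (cap + 1) * (((n + 1) * (2 * ((II n + 1) * n) + 2) + 1 + (2 * n + 1) + 1) +
    4 * ((II n + 1) * BB n + 1) + 3) + 1

theorem sz_list_le (M : ℕ) (l : List ℕ) (h : ∀ x ∈ l, x ≤ M) : sz l ≤ l.length * (2 * M + 2) + 1 := by
  induction l with
  | nil => simp
  | cons x l ih =>
    have h1 := ih fun y hy => h y (List.mem_cons_of_mem _ hy)
    have h2 := h x List.mem_cons_self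
    rw [sz_cons, sz_nat, List.length_cons, Nat.succ_mul l.length]
    omega

theorem sz_of_Bd (cap i : ℕ) (T : Tb) (h : Bd n cap i T) (hi : i ≤ II n + 1) :
    sz T ≤ SB cap n := by
  obtain ⟨h1, h2, h3⟩ := h
  unfold SB
  refine sz_tb_le (cap + 1) ((n + 1) * (2 * ((II n + 1) * n) + 2) + 1 + (2 * n + 1) + 1)
    ((II n + 1) * BB n + 1) T h1 ?_ ?_
  · intro κ hκ
    obtain ⟨h4, h5, h6⟩ := h2 κ hκ
    have h7 := sz_list_le ((II n + 1) * n) κ.1 (by
      intro x hx
      obtain ⟨j, hj, hjx⟩ := List.getElem_of_mem hx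
      have h8 : vf κ.1 j = x := by
        unfold vf
        rw [List.getD_eq_getElem _ _ hj, hjx]
      rw [← h8]
      have h9 : vf κ.1 j ≤ ∑ j ∈ range (n + 1), vf κ.1 j :=
        single_le_sum (f := fun j => vf κ.1 j) (fun _ _ => Nat.zero_le _)
          (mem_range.mpr (by omega))
      exact h9.trans (h5.trans (Nat.mul_le_mul_right _ hi)))
    rw [h4] at h7
    have h8 : sz κ = sz κ.1 + (2 * κ.2 + 1) + 1 := by
      rw [← sz_nat κ.2]
      rfl
    rw [h8]
    omega
  · refine h3.trans_lt ?_
    calc 2 ^ (i * BB n) ≤ 2 ^ ((II n + 1) * BB n) :=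
          Nat.pow_le_pow_right (by norm_num) (Nat.mul_le_mul_right _ hi)
      _ < 2 ^ ((II n + 1) * BB n + 1) := Nat.pow_lt_pow_right (by norm_num) (Nat.lt_succ_self _)

theorem ptime_SB {α : Type} [SCode α] {cap n : α → ℕ} (hc : PTime cap) (hn : PTime n) :
    PTime (fun a => SB (cap a) (n a)) := by
  have hI : PTime (fun a => II (n a)) := by
    unfold II
    exact PTime.mul (PTime.add hn (PTime.const 1)) (PTime.add hn (PTime.const 2))
  have hB : PTime (fun a => BB (n a)) := by
    unfold BB
    exact PTime.add (PTime.add (PTime.add hn (PTime.const 1)) (PTime.mul hn hn))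
      (PTime.mul hn (PTime.natPow_const (PTime.mul hI hn) 2))
  have hI1 := PTime.add hI (PTime.const 1)
  unfold SB
  refine PTime.add (PTime.mul (PTime.add hc (PTime.const 1)) (PTime.add (PTime.add
    (PTime.add (PTime.add (PTime.add (PTime.mul (PTime.add hn (PTime.const 1)) (PTime.add
      (PTime.mul (PTime.const 2) (PTime.mul hI1 hn)) (PTime.const 2))) (PTime.const 1))
      (PTime.add (PTime.mul (PTime.const 2) hn) (PTime.const 1))) (PTime.const 1))
      (PTime.mul (PTime.const 4) (PTime.add (PTime.mul hI1 hB) (PTime.const 1))))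
      (PTime.const 3))) (PTime.const 1)

theorem ptime_T0 {α : Type} [SCode α] {n : α → ℕ} (hn : PTime n) :
    PTime (fun a => T0 (n a)) := by
  unfold T0
  exact PTime.cons (PTime.pair (PTime.pair (ptime_tb (f := fun _ _ => 0) hn (PTime.const 0))
    (PTime.const 0)) (PTime.const (⟨1⟩ : Big))) (PTime.const [])

/-- the run, from the pair (size bound, number of vertices) -/
theorem ptime_run : PTime (fun p : ℕ × ℕ => runT p.2 p.1 (insD p.2 p.2) (T0 p.2)) := by
  obtain ⟨Q, hQ⟩ := nat_bound (ptime_SB (PTime.fst : PTime (fun p : ℕ × ℕ => p.1)) PTime.snd)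
  unfold runT
  refine PTime.foldl_of_bound (f := fun (p : ℕ × ℕ) T i => (step p.2 T i).take p.1)
    (ptime_insD PTime.snd) (ptime_T0 PTime.snd) ?_ Q ?_
  · exact PTime.take (PTime.fst.comp PTime.fst) (ptime_step (PTime.snd.comp PTime.fst)
      (PTime.fst.comp PTime.snd) (PTime.snd.comp PTime.snd))
  · intro p l₁ l₂ hl
    have h1 : l₁.length ≤ II p.2 := by
      have h2 := congrArg List.length hl
      rw [List.length_append] at h2
      have h3 := length_insD p.2 p.2
      unfold II
      omega
    have h2 := run_Bd (n := p.2) p.1 l₁ 0 (T0 p.2) (T0_Bd p.2 p.1) (by omega)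
    exact (sz_of_Bd (n := p.2) p.1 (0 + l₁.length) _ h2 (by omega)).trans (hQ p)

/-! ### The final value -/

theorem ptime_fval : PTime (fun p : ℕ × Tb => (⟨fval p.1 p.2⟩ : Big)) := by
  refine (ptime_bigSum (l := fun p : ℕ × Tb => p.2) (f := fun (p : ℕ × Tb) e =>
    if e.1.2 = p.1 then (⟨e.2.val * 2 ^ en p.1 (vf e.1.1)⟩ : Big) else ⟨0⟩) PTime.snd ?_).of_eq
    fun p => ?_
  · have f1 : PTime (fun q : (ℕ × Tb) × (Key × Big) => q.1.1) := PTime.fst.comp PTime.fst
    have hk : PTime (fun q : (ℕ × Tb) × (Key × Big) => q.2.1) := PTime.fst.comp PTime.snd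
    refine PTime.ite (c := fun q : (ℕ × Tb) × (Key × Big) => q.2.1.2 = q.1.1)
      (PTime.nat_eq (PTime.snd.comp hk) f1) (ptime_bigShift (PTime.snd.comp PTime.snd) ?_)
      (PTime.const (⟨0⟩ : Big))
    exact ptime_en (f := fun (q : (ℕ × Tb) × (Key × Big)) j => vf q.2.1.1 j) f1
      (ptime_vf (PTime.fst.comp (hk.comp PTime.fst)) PTime.snd)
  · unfold fval ev
    congr 2
    apply List.map_congr_left
    intro e _
    simp only
    split_ifs
    · rfl
    · rw [mul_zero]

theorem foldl_div (l : List ℕ) : ∀ v : ℕ, l.foldl (fun s i => s / (i + 1)) v =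
    v / (l.map (fun i => i + 1)).prod := by
  induction l with
  | nil => intro v; simp
  | cons x l ih =>
    intro v
    rw [List.foldl_cons, ih, List.map_cons, List.prod_cons, Nat.div_div_eq_div_mul]

theorem prod_facts (n : ℕ) : (((List.range n).flatMap (fun _ => List.range n)).map
    (fun i => i + 1)).prod = n ! ^ n := by
  have h1 : ∀ m, ((List.range m).map (fun i => i + 1)).prod = m ! := by
    intro m
    induction m with
    | zero => simp
    | succ m ih =>
      rw [List.range_succ, List.map_append, List.prod_append, ih, Nat.factorial_succ]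
      simp
      ring
  have h2 : ∀ l : List ℕ, ((l.flatMap (fun _ => List.range n)).map (fun i => i + 1)).prod =
      n ! ^ l.length := by
    intro l
    induction l with
    | nil => simp
    | cons x l ih =>
      rw [List.flatMap_cons, List.map_append, List.prod_append, ih, h1, List.length_cons, pow_succ]
      ring
  rw [h2, List.length_range]

open Polynomial in
theorem ptime_divs : PTime (fun p : ℕ × Big => (⟨p.2.val / p.1 ! ^ p.1⟩ : Big)) := by
  have key : ∀ (l : List ℕ) (s : Big), l.foldl (fun (s : Big) i => (⟨s.val / (i + 1)⟩ : Big)) s =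
      ⟨l.foldl (fun s i => s / (i + 1)) s.val⟩ := by
    intro l
    induction l with
    | nil => intro s; rfl
    | cons b l ih =>
      intro s
      rw [List.foldl_cons, ih, List.foldl_cons]
  have h : PTime (fun p : ℕ × Big => ((List.range p.1).flatMap (fun _ => List.range p.1)).foldl
      (fun (s : Big) i => (⟨s.val / (i + 1)⟩ : Big)) p.2) := by
    refine PTime.foldl_of_bound (f := fun _ (s : Big) i => (⟨s.val / (i + 1)⟩ : Big))
      (PTime.flatMap (f := fun (p : ℕ × Big) _ => List.range p.1) (PTime.range PTime.fst)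
        (PTime.range (PTime.fst.comp PTime.fst))) PTime.snd
      (ptime_bigDiv (PTime.fst.comp PTime.snd) (PTime.snd.comp PTime.snd)) (C 4 * X + C 1) ?_
    intro p l₁ l₂ _
    rw [key, foldl_div]
    have h1 : p.2.val / (l₁.map (fun i => i + 1)).prod < 2 ^ sz p.2 :=
      (Nat.div_le_self _ _).trans_lt (lt_two_pow_sz p.2)
    have h2 := sz_big_le _ _ h1
    have h3 : sz p = sz p.1 + sz p.2 + 1 := rfl
    simp only [eval_add, eval_mul, eval_C, eval_X]
    omega
  refine h.of_eq fun p => ?_
  rw [key, foldl_div, prod_facts]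

/-- the output of the algorithm with size bound `cap` -/
def algo (p : ℕ × ℕ) : List Bool :=
  (fval p.2 (runT p.2 p.1 (insD p.2 p.2) (T0 p.2)) / p.2 ! ^ p.2).bits

theorem ptime_algo : PTime algo := by
  have h1 : PTime (fun p : ℕ × ℕ => (⟨fval p.2 (runT p.2 p.1 (insD p.2 p.2) (T0 p.2))⟩ : Big)) :=
    ptime_fval.comp (PTime.snd.pair ptime_run)
  exact ptime_bits (ptime_divs.comp (PTime.snd.pair h1))

theorem algo_eq (X cap : ℕ) (hX : Bnd n X) (hcap : (n + 1) ^ X ≤ cap) :
    algo (cap, n) = (numGraphs n).bits := by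
  unfold algo
  simp only
  rw [main_ok X cap hX hcap, Nat.mul_div_cancel_left _ (pow_pos (Nat.factorial_pos n) n)]

end Pool.Agent.Lib.MP_4b91fc_lc
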