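import Pool.Agent.Lib.MP_4b91fc_lc.PNat
import Pool.Agent.Lib.MP_4b91fc_lc.Inv

set_option autoImplicit false

/-!
# The steps of the algorithm in polynomial time
-/

namespace Pool.Agent.Lib.MP_4b91fc_lc

open Function Pool.Agent.PolyTime

variable {α β : Type} [SCode α] [SCode β]

/-- a polynomial-time function with values in the natural numbers is bounded by a polynomial -/
theorem nat_bound {f : α → ℕ} (hf : PTime f) : ∃ P : Polynomial ℕ, ∀ a, f a ≤ P.eval (sz a) := by
  obtain ⟨P, hP⟩ := hf.sz_le
  refine ⟨P, fun a => ?_⟩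
  have := hP a
  rw [sz_nat] at this
  omega

theorem sum_lt_of_lt (M : ℕ) (l : List ℕ) (h : ∀ x ∈ l, x < 2 ^ M) :
    l.sum < 2 ^ (l.length + M) := by
  induction l with
  | nil => simp
  | cons x l ih =>
    rw [List.sum_cons, List.length_cons]
    have h1 := h x List.mem_cons_self
    have h2 := ih fun y hy => h y (List.mem_cons_of_mem _ hy)
    have h3 : 2 ^ M ≤ 2 ^ (l.length + M) := Nat.pow_le_pow_right (by norm_num) (by omega)
    rw [show l.length + 1 + M = l.length + M + 1 by ring, pow_succ]
    omega

open Polynomial in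
theorem ptime_bigSum {l : α → List β} {f : α → β → Big} (hl : PTime l)
    (hf : PTime (fun p : α × β => f p.1 p.2)) :
    PTime (fun a => (⟨((l a).map (fun b => (f a b).val)).sum⟩ : Big)) := by
  obtain ⟨P, hP⟩ := hf.sz_le
  obtain ⟨R, hR⟩ := hl.sz_le
  have key : ∀ (a : α) (l : List β) (s : ℕ),
      l.foldl (fun (s : Big) b => (⟨s.val + (f a b).val⟩ : Big)) (⟨s⟩ : Big) =
        ⟨s + (l.map (fun b => (f a b).val)).sum⟩ := by
    intro a l
    induction l with
    | nil => intro s; simp
    | cons b l ih =>
      intro s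
      rw [List.foldl_cons, ih, List.map_cons, List.sum_cons]
      congr 1
      ring
  have h : PTime (fun a => (l a).foldl (fun (s : Big) b => (⟨s.val + (f a b).val⟩ : Big))
      (⟨0⟩ : Big)) := by
    refine PTime.foldl_of_bound (f := fun a (s : Big) b => (⟨s.val + (f a b).val⟩ : Big)) hl
      (PTime.const (⟨0⟩ : Big)) ?_ (C 4 * (R + P.comp (X + R + C 1)) + C 1) ?_
    · exact ptime_bigAdd (PTime.fst.comp PTime.snd)
        (hf.comp (PTime.fst.pair (PTime.snd.comp PTime.snd)))
    · intro a l₁ l₂ hla
      rw [key]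
      have h1 : ∀ b ∈ l a, (f a b).val < 2 ^ (P.eval (sz a + R.eval (sz a) + 1)) := by
        intro b hb
        refine (lt_two_pow_sz _).trans_le (Nat.pow_le_pow_right (by norm_num) ?_)
        refine (hP (a, b)).trans (eval_mono P ?_)
        have h2 := sz_le_of_mem hb
        have h3 := hR a
        rw [sz_pair]
        omega
      have h2 := sum_lt_of_lt (P.eval (sz a + R.eval (sz a) + 1))
        (l₁.map (fun b => (f a b).val)) (by
          intro x hx
          rw [List.mem_map] at hx
          obtain ⟨b, hb, rfl⟩ := hx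
          exact h1 b (by rw [hla]; exact List.mem_append_left _ hb))
      rw [List.length_map] at h2
      have h3 := sz_big_le _ _ h2
      have h4 : l₁.length ≤ R.eval (sz a) := by
        have h5 := length_le_sz (l a)
        have h6 := hR a
        have h7 : l₁.length ≤ (l a).length := by rw [hla]; simp
        omega
      rw [zero_add]
      refine h3.trans ?_
      simp only [eval_add, eval_mul, eval_C, eval_X, eval_comp]
      omega
  refine h.of_eq fun a => ?_
  rw [key, zero_add]

open Polynomial in
theorem ptime_wmul {n k m : α → ℕ} {w : α → Big} (hn : PTime n) (hk : PTime k) (hm : PTime m)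
    (hw : PTime w) : PTime (fun a => (⟨wmul (n a) (k a) (m a) (w a).val⟩ : Big)) := by
  have key : ∀ (l : List ℕ) (s : Big), l.foldl (fun (s : Big) i => (⟨s.val * i⟩ : Big)) s =
      ⟨l.foldl (fun x i => x * i) s.val⟩ := by
    intro l
    induction l with
    | nil => intro s; rfl
    | cons b l ih =>
      intro s
      rw [List.foldl_cons, ih, List.foldl_cons]
  have hb : ∀ (M : ℕ) (l : List ℕ), (∀ i ∈ l, i ≤ M) → ∀ (x c : ℕ), x < 2 ^ c →
      l.foldl (fun x i => x * i) x < 2 ^ (c + l.length * M) := by
    intro M l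
    induction l with
    | nil => intro _ x c hx; simpa using hx
    | cons b l ih =>
      intro hl x c hx
      rw [List.foldl_cons, List.length_cons]
      have h1 : x * b < 2 ^ (c + M) := by
        rcases Nat.eq_zero_or_pos b with h | h
        · rw [h, mul_zero]
          positivity
        · rw [pow_add]
          calc x * b < 2 ^ c * b := Nat.mul_lt_mul_of_pos_right hx h
            _ ≤ 2 ^ c * 2 ^ M := Nat.mul_le_mul_left _
                ((hl b List.mem_cons_self).trans Nat.lt_two_pow_self.le)
      have h2 := ih (fun i hi => hl i (List.mem_cons_of_mem _ hi)) (x * b) (c + M) h1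
      rw [show c + (l.length + 1) * M = c + M + l.length * M by ring]
      exact h2
  obtain ⟨Pn, hPn⟩ := nat_bound hn
  obtain ⟨Pw, hPw⟩ := hw.sz_le
  have h : PTime (fun a => ((List.range (n a + 1)).filter
      (fun i => decide (1 ≤ i ∧ ¬ (k a ∣ i ∧ i ≤ k a * m a)))).foldl
        (fun (s : Big) i => (⟨s.val * i⟩ : Big)) (w a)) := by
    refine PTime.foldl_of_bound (f := fun _ (s : Big) i => (⟨s.val * i⟩ : Big))
      (PTime.filter (p := fun a i => decide (1 ≤ i ∧ ¬ (k a ∣ i ∧ i ≤ k a * m a)))
        (PTime.range (PTime.succ hn)) ?_) hw ?_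
      (C 4 * (Pw + (Pn + C 1) * Pn) + C 1) ?_
    · refine (PTime.and (PTime.nat_le (PTime.const 1) PTime.snd) (PTime.not (PTime.and
        (ptime_dvd (hk.comp PTime.fst) PTime.snd) (PTime.nat_le PTime.snd
          (PTime.mul (hk.comp PTime.fst) (hm.comp PTime.fst)))))).of_eq fun p => ?_
      rw [Bool.decide_and, decide_not, Bool.decide_and]
    · exact ptime_bigMul (PTime.fst.comp PTime.snd) (PTime.snd.comp PTime.snd)
    · intro a l₁ l₂ hla
      rw [key]
      have h1 : ∀ i ∈ l₁, i ≤ n a := by
        intro i hi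
        have h2 : i ∈ (List.range (n a + 1)).filter
            (fun i => decide (1 ≤ i ∧ ¬ (k a ∣ i ∧ i ≤ k a * m a))) := by
          rw [hla]
          exact List.mem_append_left _ hi
        rw [List.mem_filter, List.mem_range] at h2
        omega
      have h2 := hb (n a) l₁ h1 (w a).val (sz (w a)) (lt_two_pow_sz _)
      have h3 := sz_big_le _ _ h2
      have h4 : l₁.length ≤ n a + 1 := by
        have h5 : l₁.length ≤ ((List.range (n a + 1)).filter
            (fun i => decide (1 ≤ i ∧ ¬ (k a ∣ i ∧ i ≤ k a * m a)))).length := by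
          rw [hla]
          simp
        have h6 := List.length_filter_le
          (fun i => decide (1 ≤ i ∧ ¬ (k a ∣ i ∧ i ≤ k a * m a))) (List.range (n a + 1))
        rw [List.length_range] at h6
        omega
      have h5 := hPn a
      have h6 := hPw a
      have h7 : l₁.length * n a ≤ (eval (sz a) Pn + 1) * eval (sz a) Pn :=
        Nat.mul_le_mul (by omega) h5
      refine h3.trans ?_
      simp only [eval_add, eval_mul, eval_C]
      omega
  refine h.of_eq fun a => ?_
  rw [key]
  rfl

theorem ptime_addAt {k m : α → ℕ} {l : α → List ℕ} {j : α → ℕ} (hl : PTime l) (hk : PTime k)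
    (hm : PTime m) (hj : PTime j) : PTime (fun a => addAt (vf (l a)) (k a) (m a) (j a)) := by
  unfold addAt
  exact PTime.add (ptime_vf hl hj) (PTime.ite (c := fun a => j a = k a) (PTime.nat_eq hj hk) hm
    (PTime.const 0))

theorem ptime_out {n : α → ℕ} {i : α → Ins} {e : α → Key × Big} (hn : PTime n) (hi : PTime i)
    (he : PTime e) : PTime (fun a => out (n a) (i a) (e a)) := by
  unfold out
  have hl : PTime (fun a => (e a).1.1) := PTime.fst.comp (PTime.fst.comp he)
  have ht : PTime (fun a => (e a).1.2) := PTime.snd.comp (PTime.fst.comp he)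
  have hw : PTime (fun a => (e a).2) := PTime.snd.comp he
  refine PTime.sum_elim (f := i) (g := fun a k => (List.range (n a + 1)).filterMap (fun m =>
      if (e a).1.2 + k * m ≤ n a then
      some ((tb (n a) (addAt (vf (e a).1.1) k m), (e a).1.2 + k * m),
        (⟨wmul (n a) k m (e a).2.val⟩ : Big)) else none))
    (h := fun a p => [((tb (n a) (strV (n a) p (vf (e a).1.1)), (e a).1.2),
      (⟨(e a).2.val * 2 ^ (en (n a) (vf (e a).1.1) - en (n a) (strV (n a) p (vf (e a).1.1)))⟩ :
        Big))]) hi ?_ ?_
  · refine PTime.filterMap (l := fun q : α × ℕ => List.range (n q.1 + 1))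
      (f := fun (q : α × ℕ) m => if (e q.1).1.2 + q.2 * m ≤ n q.1 then
        some ((tb (n q.1) (addAt (vf (e q.1).1.1) q.2 m), (e q.1).1.2 + q.2 * m),
          (⟨wmul (n q.1) q.2 m (e q.1).2.val⟩ : Big)) else none)
      (PTime.range (PTime.succ (hn.comp PTime.fst))) ?_
    have f1 : PTime (fun q : (α × ℕ) × ℕ => q.1.1) := PTime.fst.comp PTime.fst
    have hk : PTime (fun q : (α × ℕ) × ℕ => q.1.2) := PTime.snd.comp PTime.fst
    have hm : PTime (fun q : (α × ℕ) × ℕ => q.2) := PTime.snd
    have hs : PTime (fun q : (α × ℕ) × ℕ => (e q.1.1).1.2 + q.1.2 * q.2) :=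
      PTime.add (ht.comp f1) (PTime.mul hk hm)
    refine PTime.ite (c := fun q : (α × ℕ) × ℕ => (e q.1.1).1.2 + q.1.2 * q.2 ≤ n q.1.1)
      (PTime.nat_le hs (hn.comp f1)) (PTime.some (PTime.pair (PTime.pair ?_ hs)
        (ptime_wmul (hn.comp f1) hk hm (hw.comp f1)))) (PTime.const none)
    refine ptime_tb (f := fun (q : (α × ℕ) × ℕ) j => addAt (vf (e q.1.1).1.1) q.1.2 q.2 j)
      (hn.comp f1) ?_
    exact ptime_addAt (hl.comp (f1.comp PTime.fst)) (hk.comp PTime.fst) (hm.comp PTime.fst)
      PTime.snd
  · have f1 : PTime (fun q : α × ℕ => q.1) := PTime.fst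
    have hp : PTime (fun q : α × ℕ => q.2) := PTime.snd
    refine PTime.cons (PTime.pair (PTime.pair ?_ (ht.comp f1)) (ptime_bigShift (hw.comp f1)
      (PTime.sub ?_ ?_))) (PTime.const [])
    · exact ptime_tb (f := fun (q : α × ℕ) j => strV (n q.1) q.2 (vf (e q.1).1.1) j)
        (hn.comp f1) (ptime_strV (hn.comp (f1.comp PTime.fst)) (hp.comp PTime.fst)
          (hl.comp (f1.comp PTime.fst)) PTime.snd)
    · exact ptime_en (f := fun (q : α × ℕ) j => vf (e q.1).1.1 j) (hn.comp f1)
        (ptime_vf (hl.comp (f1.comp PTime.fst)) PTime.snd)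
    · exact ptime_en (f := fun (q : α × ℕ) j => strV (n q.1) q.2 (vf (e q.1).1.1) j)
        (hn.comp f1) (ptime_strV (hn.comp (f1.comp PTime.fst)) (hp.comp PTime.fst)
          (hl.comp (f1.comp PTime.fst)) PTime.snd)

theorem ptime_addE : PTime (fun p : Tb × (Key × Big) => addE p.1 p.2) := by
  unfold addE
  have h1 : PTime (fun q : (Tb × (Key × Big)) × (Key × Big) => decide (q.2.1 = q.1.2.1)) :=
    PTime.eq (PTime.fst.comp PTime.snd) (PTime.fst.comp (PTime.snd.comp PTime.fst))
  refine (PTime.cond (PTime.any (p := fun (p : Tb × (Key × Big)) x => decide (x.1 = p.2.1))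
    PTime.fst h1) (PTime.map (f := fun (p : Tb × (Key × Big)) x =>
      if x.1 = p.2.1 then (x.1, (⟨x.2.val + p.2.2.val⟩ : Big)) else x) PTime.fst ?_)
    (PTime.cons PTime.snd PTime.fst)).of_eq fun p => ?_
  · exact PTime.ite (c := fun q : (Tb × (Key × Big)) × (Key × Big) => q.2.1 = q.1.2.1) h1
      (PTime.pair (PTime.fst.comp PTime.snd) (ptime_bigAdd (PTime.snd.comp PTime.snd)
        (PTime.snd.comp (PTime.snd.comp PTime.fst)))) PTime.snd
  · rw [cond_eq_ite]

/-- total weight -/
def tw (T : Tb) : ℕ := (T.map (fun e => e.2.val)).sum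

theorem tw_eq_ev (T : Tb) : tw T = ev T (fun _ _ => 1) := by
  unfold tw ev
  congr 1
  apply List.map_congr_left
  intro e _
  rw [mul_one]

theorem le_tw {T : Tb} {e : Key × Big} (h : e ∈ T) : e.2.val ≤ tw T := by
  unfold tw
  exact List.single_le_sum (by intro x _; exact Nat.zero_le _) _ (List.mem_map.mpr ⟨e, h, rfl⟩)

theorem length_addE (A : Tb) (e : Key × Big) : (addE A e).length ≤ A.length + 1 := by
  unfold addE
  split_ifs
  · rw [List.length_map]
    omega
  · rw [List.length_cons]

theorem length_foldl_addE (U : Tb) : ∀ A : Tb, (U.foldl addE A).length ≤ A.length + U.length := by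
  induction U with
  | nil => intro A; simp
  | cons e U ih =>
    intro A
    rw [List.foldl_cons, List.length_cons]
    have h1 := ih (addE A e)
    have h2 := length_addE A e
    omega

/-- size of a table -/
theorem sz_tb_le (N K W : ℕ) (T : Tb) (hN : T.length ≤ N) (hK : ∀ κ ∈ ks T, sz κ ≤ K)
    (hW : tw T < 2 ^ W) : sz T ≤ N * (K + 4 * W + 3) + 1 := by
  have h1 : ∀ U : Tb, (∀ e ∈ U, sz e ≤ K + 4 * W + 2) → sz U ≤ U.length * (K + 4 * W + 3) + 1 := by
    intro U
    induction U with
    | nil => intro _; simp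
    | cons e U ih =>
      intro h
      have h2 := ih fun e he => h e (List.mem_cons_of_mem _ he)
      have h3 := h e List.mem_cons_self
      rw [sz_cons, List.length_cons, Nat.succ_mul]
      omega
  refine (h1 T fun e he => ?_).trans ?_
  · have h2 := hK e.1 (by unfold ks; exact List.mem_map.mpr ⟨e, he, rfl⟩)
    have h3 : sz e.2 ≤ 4 * W + 1 := sz_big_le e.2.val W ((le_tw he).trans_lt hW)
    have h4 : sz e = sz e.1 + sz e.2 + 1 := rfl
    rw [h4]
    omega
  · have := Nat.mul_le_mul_right (K + 4 * W + 3) hN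
    omega

open Polynomial in
theorem ptime_merge {U : α → Tb} (hU : PTime U) : PTime (fun a => merge (U a)) := by
  have h : PTime merge := by
    unfold merge
    refine PTime.foldl_of_bound (f := fun (_ : Tb) A e => addE A e) PTime.id (PTime.const [])
      (ptime_addE.comp PTime.snd) (X * (X + C 4 * (C 2 * X) + C 3) + C 1) ?_
    intro U l₁ l₂ hU
    have hU' : U = l₁ ++ l₂ := hU
    obtain ⟨f1, f2, f3⟩ := foldl_addE l₁ (fun _ _ => 1) [] (by simp [ks])
    have h1 := length_foldl_addE l₁ []
    rw [List.length_nil, Nat.zero_add] at h1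
    have h2 := length_le_sz U
    have h3 : l₁.length ≤ U.length := by rw [hU']; simp
    have h4 : tw (l₁.foldl addE []) < 2 ^ (2 * sz U) := by
      rw [tw_eq_ev, f2, ev_nil, zero_add, ← tw_eq_ev]
      have h5 := sum_lt_of_lt (sz U) (l₁.map (fun e => e.2.val)) (by
        intro x hx
        rw [List.mem_map] at hx
        obtain ⟨e, he, rfl⟩ := hx
        refine (lt_two_pow_sz _).trans_le (Nat.pow_le_pow_right (by norm_num) ?_)
        have h6 : e ∈ U := by rw [hU']; exact List.mem_append_left _ he
        have h7 := sz_le_of_mem h6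
        have h8 : sz e = sz e.1 + sz e.2 + 1 := rfl
        omega)
      rw [List.length_map] at h5
      exact h5.trans_le (Nat.pow_le_pow_right (by norm_num) (by omega))
    have h5 := sz_tb_le (sz U) (sz U) (2 * sz U) (l₁.foldl addE []) (by omega) (by
      intro κ hκ
      rcases f3 κ hκ with h6 | h6
      · simp [ks] at h6
      · unfold ks at h6
        rw [List.mem_map] at h6
        obtain ⟨e, he, rfl⟩ := h6
        have h6 : e ∈ U := by rw [hU']; exact List.mem_append_left _ he
        have h7 := sz_le_of_mem h6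
        have h8 : sz e = sz e.1 + sz e.2 + 1 := rfl
        omega) h4
    simp only [eval_add, eval_mul, eval_C, eval_X]
    exact h5
  exact h.comp hU

theorem ptime_step {n : α → ℕ} {T : α → Tb} {i : α → Ins} (hn : PTime n) (hT : PTime T)
    (hi : PTime i) : PTime (fun a => step (n a) (T a) (i a)) := by
  unfold step
  refine ptime_merge (PTime.flatMap (f := fun a e => out (n a) (i a) e) hT ?_)
  exact ptime_out (hn.comp PTime.fst) (hi.comp PTime.fst) PTime.snd

end Pool.Agent.Lib.MP_4b91fc_lc
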