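import Pool.Agent.Lib.MP_4b91fc_lc.PBig

set_option autoImplicit false

/-!
# Arithmetic with small numbers in polynomial time
-/

namespace Pool.Agent.Lib.MP_4b91fc_lc

open Function Pool.Agent.PolyTime

variable {α β : Type} [SCode α] [SCode β]

theorem ptime_dvd {f g : α → ℕ} (hf : PTime f) (hg : PTime g) :
    PTime (fun a => decide (f a ∣ g a)) := by
  refine (PTime.any (p := fun a m => decide (f a * m = g a)) (PTime.range (PTime.succ hg))
    (PTime.nat_eq (PTime.mul (hf.comp PTime.fst) PTime.snd) (hg.comp PTime.fst))).of_eq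
    fun a => ?_
  rw [Bool.eq_iff_iff, List.any_eq_true, decide_eq_true_iff]
  constructor
  · rintro ⟨m, -, hm⟩
    exact ⟨m, (of_decide_eq_true hm).symm⟩
  · rintro ⟨m, hm⟩
    rcases Nat.eq_zero_or_pos (f a) with h | h
    · refine ⟨0, by simp, ?_⟩
      rw [decide_eq_true_iff, hm, h]
      simp
    · refine ⟨m, ?_, by rw [decide_eq_true_iff, hm]⟩
      rw [List.mem_range, hm, Nat.lt_succ_iff]
      exact Nat.le_mul_of_pos_left _ h

theorem ptime_prime {f : α → ℕ} (hf : PTime f) : PTime (fun a => decide (f a).Prime) := by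
  refine (PTime.and (PTime.nat_le (PTime.const 2) hf) (PTime.all (p := fun a m =>
    !(decide (m ∣ f a)) || (decide (m = 1) || decide (m = f a))) (PTime.range (PTime.succ hf))
    (PTime.or (PTime.not (ptime_dvd PTime.snd (hf.comp PTime.fst)))
      (PTime.or (PTime.nat_eq PTime.snd (PTime.const 1))
        (PTime.nat_eq PTime.snd (hf.comp PTime.fst)))))).of_eq fun a => ?_
  rw [Bool.eq_iff_iff, Bool.and_eq_true, List.all_eq_true, decide_eq_true_iff,
    decide_eq_true_iff, Nat.prime_def]
  refine and_congr_right fun h2 => ?_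
  constructor
  · intro h m hm
    have h3 := h m (by
      rw [List.mem_range, Nat.lt_succ_iff]
      exact Nat.le_of_dvd (by omega) hm)
    simpa [hm] using h3
  · intro h m _
    by_cases hm : m ∣ f a
    · simpa [hm] using h m hm
    · simp [hm]

theorem ptime_smth {q k : α → ℕ} (hq : PTime q) (hk : PTime k) :
    PTime (fun a => decide (Smth (q a) (k a))) := by
  refine (PTime.all (p := fun a r => !(decide r.Prime) || (!(decide (r ∣ k a)) ||
    decide (r ≤ q a))) (PTime.range (PTime.succ hk))
    (PTime.or (PTime.not (ptime_prime PTime.snd)) (PTime.or (PTime.not (ptime_dvd PTime.snd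
      (hk.comp PTime.fst))) (PTime.nat_le PTime.snd (hq.comp PTime.fst))))).of_eq fun a => ?_
  rw [Bool.eq_iff_iff, List.all_eq_true, decide_eq_true_iff]
  unfold Smth
  constructor
  · intro h r hr h1 h2
    have h3 := h r (by rw [List.mem_range]; exact Finset.mem_range.mp hr)
    simpa [h1, h2] using h3
  · intro h r hr
    have h3 := h r (by rw [Finset.mem_range]; exact List.mem_range.mp hr)
    by_cases h1 : r.Prime <;> by_cases h2 : r ∣ k a <;> simp [h1, h2]
    exact h3 h1 h2

theorem ptime_listSum {l : α → List β} {f : α → β → ℕ} (hl : PTime l)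
    (hf : PTime (fun p : α × β => f p.1 p.2)) : PTime (fun a => ((l a).map (f a)).sum) := by
  refine (PTime.length (PTime.flatMap (f := fun a b => List.replicate (f a b) ()) hl
    (PTime.replicate hf (PTime.const ())))).of_eq fun a => ?_
  rw [List.length_flatMap]
  congr 1
  apply List.map_congr_left
  intro b _
  simp

theorem sum_list_range (f : ℕ → ℕ) (n : ℕ) :
    ((List.range n).map f).sum = ∑ i ∈ Finset.range n, f i := by
  induction n with
  | zero => simp
  | succ n ih =>
    rw [List.range_succ, List.map_append, List.sum_append, ih, Finset.sum_range_succ]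
    simp

theorem ptime_sum {n : α → ℕ} {f : α → ℕ → ℕ} (hn : PTime n)
    (hf : PTime (fun p : α × ℕ => f p.1 p.2)) :
    PTime (fun a => ∑ i ∈ Finset.range (n a), f a i) :=
  (ptime_listSum (PTime.range hn) hf).of_eq fun a => sum_list_range (f a) (n a)

/-- one step of the Euclidean algorithm -/
def gcdStep (p : ℕ × ℕ) : ℕ × ℕ := if p.1 = 0 then p else (p.2 % (p.1 - 1 + 1), p.1)

theorem gcdStep_iterate (k : ℕ) : ∀ m n : ℕ, m < k → gcdStep^[k] (m, n) = (0, Nat.gcd m n) := by
  induction k with
  | zero => intro m n h; omega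
  | succ k ih =>
    intro m n h
    rw [iterate_succ_apply]
    rcases Nat.eq_zero_or_pos m with hm | hm
    · subst hm
      have h1 : gcdStep (0, n) = (0, n) := if_pos rfl
      have h2 : ∀ j, gcdStep^[j] (0, n) = (0, n) := by
        intro j
        induction j with
        | zero => rfl
        | succ j ihj => rw [iterate_succ_apply, h1, ihj]
      rw [h1, h2, Nat.gcd_zero_left]
    · have h1 : gcdStep (m, n) = (n % m, m) := by
        unfold gcdStep
        rw [if_neg (by simp; omega)]
        simp only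
        rw [show m - 1 + 1 = m by omega]
      rw [h1, ih _ _ (by have := Nat.mod_lt n hm; omega), ← Nat.gcd_rec]

theorem ptime_gcd {f g : α → ℕ} (hf : PTime f) (hg : PTime g) :
    PTime (fun a => Nat.gcd (f a) (g a)) := by
  have h1 : PTime gcdStep := by
    unfold gcdStep
    exact PTime.ite (c := fun p : ℕ × ℕ => p.1 = 0) (PTime.isZero PTime.fst) PTime.id
      (PTime.pair (Pool.Agent.Lib.MP_b4f117_lc.ptime_mod PTime.snd
        (PTime.succ (PTime.pred PTime.fst)) (fun a => Nat.succ_pos _)) PTime.fst)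
  have h2 : PTime (fun a => gcdStep^[f a + 1] (f a, g a)) := by
    refine PTime.iterate (f := fun _ s => gcdStep s) (PTime.succ hf) (PTime.pair hf hg)
      (h1.comp PTime.snd) 0 ?_
    intro a s
    rw [Polynomial.eval_zero, Nat.add_zero]
    rcases s with ⟨m, n⟩
    unfold gcdStep
    split_ifs with h
    · exact le_rfl
    · simp only [sz_pair, sz_nat]
      have := Nat.mod_le n (m - 1 + 1)
      omega
  refine (PTime.snd.comp h2).of_eq fun a => ?_
  rw [gcdStep_iterate _ _ _ (Nat.lt_succ_self _)]

theorem ptime_stp {p x : α → ℕ} (hp : PTime p) (hx : PTime x) :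
    PTime (fun a => stp (p a) (x a)) := by
  refine (PTime.ite (c := fun a => p a ∣ x a) (ptime_dvd hp hx)
    (PTime.ite (c := fun a => p a = 0) (PTime.isZero hp) (PTime.const 0)
      (Pool.Agent.Lib.MP_b4f117_lc.ptime_div hx (PTime.succ (PTime.pred hp))
        (fun a => Nat.succ_pos _))) hx).of_eq fun a => ?_
  unfold stp
  split_ifs with h1 h2
  · rw [h2]
    simp
  · rw [show p a - 1 + 1 = p a by omega]
  · rfl

theorem ptime_str {n p x : α → ℕ} (hn : PTime n) (hp : PTime p) (hx : PTime x) :
    PTime (fun a => str (n a) (p a) (x a)) := by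
  unfold str
  refine PTime.iterate (f := fun a s => stp (p a) s) hn hx
    (ptime_stp (hp.comp PTime.fst) PTime.snd) 0 ?_
  intro a s
  rw [Polynomial.eval_zero, sz_nat, sz_nat]
  have := stp_le (p a) s
  omega

theorem ptime_vf {l : α → List ℕ} {j : α → ℕ} (hl : PTime l) (hj : PTime j) :
    PTime (fun a => vf (l a) (j a)) :=
  PTime.getD hj hl (PTime.const 0)

theorem ptime_strV {n p j : α → ℕ} {l : α → List ℕ} (hn : PTime n) (hp : PTime p)
    (hl : PTime l) (hj : PTime j) : PTime (fun a => strV (n a) (p a) (vf (l a)) (j a)) := by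
  unfold strV
  refine ptime_sum (f := fun a i => if str (n a) (p a) i = j a then vf (l a) i else 0)
    (PTime.succ hn) ?_
  exact PTime.ite (c := fun q : α × ℕ => str (n q.1) (p q.1) q.2 = j q.1)
    (PTime.nat_eq (ptime_str (hn.comp PTime.fst) (hp.comp PTime.fst) PTime.snd)
      (hj.comp PTime.fst)) (ptime_vf (hl.comp PTime.fst) PTime.snd) (PTime.const 0)

theorem ptime_tb {n : α → ℕ} {f : α → ℕ → ℕ} (hn : PTime n)
    (hf : PTime (fun q : α × ℕ => f q.1 q.2)) : PTime (fun a => tb (n a) (f a)) := by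
  unfold tb
  exact PTime.map (f := f) (PTime.range (PTime.succ hn)) hf

theorem ptime_qf {n : α → ℕ} {f : α → ℕ → ℕ} (hn : PTime n)
    (hf : PTime (fun q : α × ℕ => f q.1 q.2)) : PTime (fun a => qf (n a) (f a)) := by
  unfold qf
  refine ptime_sum (f := fun a k => ∑ l ∈ Finset.range (n a + 1), f a k * f a l * Nat.gcd k l)
    (PTime.succ hn) ?_
  refine ptime_sum (n := fun q : α × ℕ => n q.1 + 1)
    (f := fun (q : α × ℕ) l => f q.1 q.2 * f q.1 l * Nat.gcd q.2 l)
    (PTime.succ (hn.comp PTime.fst)) ?_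
  have h1 : PTime (fun q : (α × ℕ) × ℕ => f q.1.1 q.1.2) := hf.comp PTime.fst
  have h2 : PTime (fun q : (α × ℕ) × ℕ => f q.1.1 q.2) :=
    hf.comp ((PTime.fst.comp PTime.fst).pair PTime.snd)
  exact PTime.mul (PTime.mul h1 h2) (ptime_gcd (PTime.snd.comp PTime.fst) PTime.snd)

theorem ptime_od {n : α → ℕ} {f : α → ℕ → ℕ} (hn : PTime n)
    (hf : PTime (fun q : α × ℕ => f q.1 q.2)) : PTime (fun a => od (n a) (f a)) := by
  unfold od
  refine ptime_sum (f := fun a k => f a k * (k % 2)) (PTime.succ hn) ?_
  exact PTime.mul hf (Pool.Agent.Lib.MP_b4f117_lc.ptime_mod PTime.snd (PTime.const 2)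
    (fun _ => by norm_num))

theorem ptime_en {n : α → ℕ} {f : α → ℕ → ℕ} (hn : PTime n)
    (hf : PTime (fun q : α × ℕ => f q.1 q.2)) : PTime (fun a => en (n a) (f a)) := by
  unfold en
  exact Pool.Agent.Lib.MP_b4f117_lc.ptime_div (PTime.sub (ptime_qf hn hf) (ptime_od hn hf))
    (PTime.const 2) (fun _ => by norm_num)

end Pool.Agent.Lib.MP_4b91fc_lc
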