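import Pool.Agent.Lib.MP_4b91fc_lc.Strip

set_option autoImplicit false

/-!
# The list of instructions of the algorithm
-/

namespace Pool.Agent.Lib.MP_4b91fc_lc

open Equiv Function Finset

open scoped Nat

/-- instructions: add parts of a given size, or strip a prime -/
abbrev Ins : Type := ℕ ⊕ ℕ

variable {n : ℕ}

/-- the value of the remaining sum -/
def fut (n : ℕ) : List Ins → (ℕ → ℕ) → ℕ → ℕ
  | [], a, t => if t = n then 2 ^ en n a else 0
  | .inl k :: is, a, t => ∑ m ∈ range (n + 1),
      if t + k * m ≤ n then wt n k m * fut n is (addAt a k m) (t + k * m) else 0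
  | .inr p :: is, a, t => 2 ^ (en n a - en n (strV n p a)) * fut n is (strV n p a) t

/-- the sizes of parts in a list of instructions -/
def sizes (is : List Ins) : List ℕ := is.filterMap Sum.getLeft?

theorem sizes_append (is js : List Ins) : sizes (is ++ js) = sizes is ++ sizes js :=
  List.filterMap_append

theorem sizes_inl (k : ℕ) (is : List Ins) : sizes (.inl k :: is) = k :: sizes is := rfl

theorem sizes_inr (k : ℕ) (is : List Ins) : sizes (.inr k :: is) = sizes is := rfl

theorem sizes_map (ks : List ℕ) : sizes (ks.map Sum.inl) = ks := by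
  induction ks with
  | nil => rfl
  | cons k ks ih => rw [List.map_cons, sizes_inl, ih]

/-- well-formed lists of instructions -/
def Good (n : ℕ) : List Ins → Prop
  | [] => True
  | .inl k :: is => k ≤ n ∧ Good n is
  | .inr p :: is => p.Prime ∧ p % 2 = 1 ∧ (∀ k ∈ sizes is, ¬ p ∣ k) ∧ Good n is

theorem Good.le {is : List Ins} (h : Good n is) : ∀ k ∈ sizes is, k ≤ n := by
  induction is with
  | nil => simp [sizes]
  | cons i is ih =>
    rcases i with k | p
    · intro j hj
      rw [sizes_inl] at hj
      rcases List.mem_cons.mp hj with h1 | h1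
      · rw [h1]
        exact h.1
      · exact ih h.2 j h1
    · intro j hj
      exact ih h.2.2.2 j hj

theorem fut_eq_G (is : List Ins) : ∀ (a : ℕ → ℕ) (t : ℕ), Good n is →
    fut n is a t = G n (sizes is) a t := by
  induction is with
  | nil => intro a t _; rfl
  | cons i is ih =>
    intro a t h
    rcases i with k | p
    · rw [sizes_inl, fut, G]
      refine sum_congr rfl fun m _ => ?_
      rw [ih _ _ h.2]
    · rw [sizes_inr, fut, ih _ _ h.2.2.2]
      exact (G_strip p h.1 h.2.1 (sizes is) a t fun k hk => ⟨h.2.2.2.le k hk, h.2.2.1 k hk⟩).symm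

/-- all prime factors are at most `q` -/
def Smth (q k : ℕ) : Prop := ∀ r ∈ range (k + 1), r.Prime → r ∣ k → r ≤ q

instance (q k : ℕ) : Decidable (Smth q k) := by
  unfold Smth
  infer_instance

theorem smth_iff (q k : ℕ) (hk : 0 < k) : Smth q k ↔ ∀ r, r.Prime → r ∣ k → r ≤ q := by
  constructor
  · intro h r h1 h2
    exact h r (mem_range.mpr (Nat.lt_succ_of_le (Nat.le_of_dvd hk h2))) h1 h2
  · intro h r _ h1 h2
    exact h r h1 h2

/-- the parts with largest prime factor `p` -/
def blk (n p : ℕ) : List ℕ :=
  (List.range (n + 1)).filter (fun k => decide (1 ≤ k ∧ p ∣ k ∧ Smth p k))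

/-- powers of two -/
def fin2 (n : ℕ) : List ℕ := (List.range (n + 1)).filter (fun k => decide (1 ≤ k ∧ Smth 2 k))

/-- the instructions for the primes up to `q` -/
def insD (n : ℕ) : ℕ → List Ins
  | 0 => (fin2 n).map Sum.inl
  | q + 1 => (if 3 ≤ q + 1 ∧ (q + 1).Prime then (blk n (q + 1)).map Sum.inl ++ [Sum.inr (q + 1)]
      else []) ++ insD n q

theorem mem_blk (p k : ℕ) : k ∈ blk n p ↔ k ≤ n ∧ 1 ≤ k ∧ p ∣ k ∧ Smth p k := by
  unfold blk
  rw [List.mem_filter, List.mem_range, decide_eq_true_iff]
  exact and_congr Nat.lt_succ_iff Iff.rfl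

theorem mem_fin2 (k : ℕ) : k ∈ fin2 n ↔ k ≤ n ∧ 1 ≤ k ∧ Smth 2 k := by
  unfold fin2
  rw [List.mem_filter, List.mem_range, decide_eq_true_iff]
  exact and_congr Nat.lt_succ_iff Iff.rfl

theorem mem_sizes_insD (q k : ℕ) : k ∈ sizes (insD n q) ↔ k ≤ n ∧ 1 ≤ k ∧ Smth (max q 2) k := by
  induction q with
  | zero =>
    unfold insD
    rw [sizes_map, mem_fin2]
    rfl
  | succ q ih =>
    rw [insD, sizes_append, List.mem_append, ih]
    by_cases hk : 1 ≤ k
    · rw [smth_iff (max q 2) k hk, smth_iff (max (q + 1) 2) k hk]
      split_ifs with hq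
      · rw [sizes_append, List.mem_append, sizes_map, mem_blk, smth_iff (q + 1) k hk]
        have e1 : max (q + 1) 2 = q + 1 := by omega
        have e2 : max q 2 = q := by omega
        rw [e1, e2]
        constructor
        · rintro ((h | h) | h)
          · exact ⟨h.1, h.2.1, h.2.2.2⟩
          · simp [sizes] at h
          · exact ⟨h.1, h.2.1, fun r h1 h2 => (h.2.2 r h1 h2).trans (Nat.le_succ q)⟩
        · rintro ⟨h1, h2, h3⟩
          by_cases h4 : (q + 1) ∣ k
          · exact Or.inl (Or.inl ⟨h1, h2, h4, h3⟩)
          · refine Or.inr ⟨h1, h2, fun r h5 h6 => ?_⟩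
            have h7 := h3 r h5 h6
            rcases Nat.lt_or_ge r (q + 1) with h8 | h8
            · omega
            · have h9 : r = q + 1 := by omega
              exact absurd (h9 ▸ h6) h4
      · have : k ∉ sizes [] := by simp [sizes]
        rw [or_iff_right this]
        constructor
        · rintro ⟨h1, h2, h3⟩
          exact ⟨h1, h2, fun r h5 h6 => (h3 r h5 h6).trans (by omega)⟩
        · rintro ⟨h1, h2, h3⟩
          refine ⟨h1, h2, fun r h5 h6 => ?_⟩
          have h7 := h3 r h5 h6
          by_cases h8 : 3 ≤ q + 1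
          · have h9 : ¬ (q + 1).Prime := fun h => hq ⟨h8, h⟩
            have h10 : r ≠ q + 1 := fun h => h9 (h ▸ h5)
            omega
          · omega
    · constructor
      · rintro (h | h)
        · exfalso
          apply hk
          split_ifs at h with hq
          · rw [sizes_append, List.mem_append, sizes_map, mem_blk] at h
            rcases h with h | h
            · exact h.2.1
            · simp [sizes] at h
          · simp [sizes] at h
        · exact absurd h.2.1 hk
      · exact fun h => absurd h.2.1 hk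

theorem nodup_sizes_insD (q : ℕ) : (sizes (insD n q)).Nodup := by
  induction q with
  | zero =>
    unfold insD
    rw [sizes_map]
    exact List.nodup_range.filter _
  | succ q ih =>
    rw [insD, sizes_append]
    split_ifs with hq
    · rw [sizes_append, sizes_map]
      have e : sizes [Sum.inr (q + 1)] = [] := rfl
      rw [e, List.append_nil, List.nodup_append]
      refine ⟨List.nodup_range.filter _, ih, ?_⟩
      rintro k hk j hj rfl
      rw [mem_blk] at hk
      rw [mem_sizes_insD] at hj
      have h1 := (smth_iff _ _ hj.2.1).mp hj.2.2 (q + 1) hq.2 hk.2.2.1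
      omega
    · have e : sizes [] = [] := rfl
      rw [e, List.nil_append]
      exact ih

theorem good_append_inl (ks : List ℕ) (is : List Ins) (h : ∀ k ∈ ks, k ≤ n) (hg : Good n is) :
    Good n (ks.map Sum.inl ++ is) := by
  induction ks with
  | nil => exact hg
  | cons k ks ih =>
    exact ⟨h k List.mem_cons_self, ih fun j hj => h j (List.mem_cons_of_mem _ hj)⟩

theorem good_insD (q : ℕ) : Good n (insD n q) := by
  induction q with
  | zero =>
    unfold insD
    rw [← List.append_nil ((fin2 n).map Sum.inl)]
    exact good_append_inl _ _ (fun k hk => ((mem_fin2 k).mp hk).1) trivial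
  | succ q ih =>
    rw [insD]
    split_ifs with hq
    · rw [List.append_assoc]
      refine good_append_inl _ _ (fun k hk => ((mem_blk _ k).mp hk).1) ?_
      refine ⟨hq.2, ?_, fun k hk hd => ?_, ih⟩
      · rcases hq.2.eq_two_or_odd with h | h
        · omega
        · exact h
      · have hk' := (mem_sizes_insD q k).mp hk
        have := (smth_iff _ _ hk'.2.1).mp hk'.2.2 (q + 1) hq.2 hd
        omega
    · exact ih

/-- what the algorithm computes -/
theorem fut_insD : fut n (insD n n) (fun _ => 0) 0 = n ! ^ n * numGraphs n := by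
  rw [fut_eq_G _ _ _ (good_insD n), G_numGraphs _ (nodup_sizes_insD n)]
  intro k
  rw [mem_sizes_insD, mem_Icc]
  constructor
  · rintro ⟨h1, h2, -⟩
    exact ⟨h2, h1⟩
  · rintro ⟨h1, h2⟩
    refine ⟨h2, h1, ?_⟩
    rw [smth_iff _ _ h1]
    intro r _ hr
    exact (Nat.le_of_dvd h1 hr).trans (h2.trans (le_max_left _ _))

end Pool.Agent.Lib.MP_4b91fc_lc
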