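import Pool.Agent.Lib.MP_4b91fc_lc.Fix

set_option autoImplicit false

/-!
# The number of orbits on pairs in terms of the cycle counts
-/

namespace Pool.Agent.Lib.MP_4b91fc_lc

open Equiv Function Finset

variable {V : Type} [Fintype V] [DecidableEq V]

theorem card_multiples (N m : ℕ) (hm : 0 < m) (h : m ∣ N) :
    m * ((range N).filter (fun j => m ∣ j)).card = N := by
  obtain ⟨q, rfl⟩ := h
  congr 1
  have : ((range (m * q)).filter (fun j => m ∣ j)) = (range q).image (fun i => m * i) := by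
    ext j
    rw [mem_filter, mem_range, mem_image]
    constructor
    · rintro ⟨h1, i, rfl⟩
      refine ⟨i, mem_range.mpr ?_, rfl⟩
      exact Nat.lt_of_mul_lt_mul_left h1
    · rintro ⟨i, h1, rfl⟩
      rw [mem_range] at h1
      exact ⟨Nat.mul_lt_mul_of_pos_left h1 hm, dvd_mul_right _ _⟩
  rw [this, card_image_of_injective _ (fun a b hab => Nat.eq_of_mul_eq_mul_left hm hab),
    card_range]

theorem cnt_ne_zero (σ : Perm V) (k : ℕ) (h : cnt σ k ≠ 0) : 0 < k ∧ k ∣ orderOf σ := by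
  have hk : 0 < k := by
    by_contra h0
    have h0' : k = 0 := by omega
    subst h0'
    apply h
    unfold cnt
    rw [Multiset.count_eq_zero]
    intro h1
    have := σ.partition.parts_pos h1
    omega
  refine ⟨hk, ?_⟩
  have h1 := card_per σ k
  have h2 : (univ.filter (fun x => per σ x = k)).card ≠ 0 := by
    rw [h1]
    exact Nat.mul_ne_zero (by omega) h
  obtain ⟨x, hx⟩ := card_ne_zero.mp h2
  rw [← (mem_filter.mp hx).2]
  exact per_dvd_orderOf σ x

theorem fp_pow (σ : Perm V) (j : ℕ) :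
    fp (σ ^ j) = ∑ x : V, if per σ x ∣ j then 1 else 0 := by
  unfold fp
  rw [card_filter]
  refine sum_congr rfl fun x _ => ?_
  simp only [pow_apply_iff]

theorem sum_fp (σ : Perm V) (M : ℕ) (hM : Fintype.card V ≤ M) :
    ∑ j ∈ range (orderOf σ), fp (σ ^ j) = orderOf σ * ∑ k ∈ range (M + 1), cnt σ k := by
  simp_rw [fp_pow]
  rw [sum_comm]
  simp_rw [← card_filter]
  rw [sum_per σ M hM (fun k => ((range (orderOf σ)).filter (fun j => k ∣ j)).card), mul_sum]
  refine sum_congr rfl fun k _ => ?_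
  by_cases h : cnt σ k = 0
  · rw [h]
    ring
  · obtain ⟨h1, h2⟩ := cnt_ne_zero σ k h
    rw [mul_right_comm, card_multiples _ _ h1 h2]

theorem dvd_two_mul_iff (k j : ℕ) : k ∣ 2 * j ↔ k / Nat.gcd 2 k ∣ j := by
  have hg : 0 < Nat.gcd k 2 := Nat.gcd_pos_of_pos_right _ (by norm_num)
  rw [Nat.gcd_comm 2 k]
  constructor
  · intro h
    have := Nat.Coprime.dvd_of_dvd_mul_left (Nat.coprime_div_gcd_div_gcd hg) (n := j)
    apply this
    apply Nat.dvd_of_mul_dvd_mul_left hg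
    rw [Nat.mul_div_cancel' (Nat.gcd_dvd_left k 2), ← mul_assoc,
      Nat.mul_div_cancel' (Nat.gcd_dvd_right k 2)]
    exact h
  · intro h
    have h1 : k = Nat.gcd k 2 * (k / Nat.gcd k 2) :=
      (Nat.mul_div_cancel' (Nat.gcd_dvd_left k 2)).symm
    rw [h1]
    exact Nat.mul_dvd_mul (Nat.gcd_dvd_right k 2) h

theorem sum_fp_two (σ : Perm V) (M : ℕ) (hM : Fintype.card V ≤ M) :
    ∑ j ∈ range (orderOf σ), fp (σ ^ (2 * j)) =
      orderOf σ * ∑ k ∈ range (M + 1), cnt σ k * Nat.gcd 2 k := by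
  simp_rw [fp_pow]
  rw [sum_comm]
  simp_rw [← card_filter]
  rw [sum_per σ M hM (fun k => ((range (orderOf σ)).filter (fun j => k ∣ 2 * j)).card), mul_sum]
  refine sum_congr rfl fun k _ => ?_
  by_cases h : cnt σ k = 0
  · rw [h]
    ring
  · obtain ⟨h1, h2⟩ := cnt_ne_zero σ k h
    simp_rw [dvd_two_mul_iff]
    have h4 : Nat.gcd 2 k * (k / Nat.gcd 2 k) = k := Nat.mul_div_cancel' (Nat.gcd_dvd_right 2 k)
    have h5 : 0 < k / Nat.gcd 2 k := by
      rcases Nat.eq_zero_or_pos (k / Nat.gcd 2 k) with h6 | h6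
      · rw [h6] at h4
        omega
      · exact h6
    have h6 := card_multiples (orderOf σ) (k / Nat.gcd 2 k) h5
      ((Dvd.intro_left _ h4).trans h2)
    conv_rhs => rw [← h6]
    conv_lhs => enter [1, 1]; rw [← h4]
    ring

theorem sum_fp_sq (σ : Perm V) (M : ℕ) (hM : Fintype.card V ≤ M) :
    ∑ j ∈ range (orderOf σ), fp (σ ^ j) * fp (σ ^ j) =
      orderOf σ * ∑ k ∈ range (M + 1), ∑ l ∈ range (M + 1),
        cnt σ k * cnt σ l * Nat.gcd k l := by
  have h1 : ∀ j, fp (σ ^ j) * fp (σ ^ j) =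
      ∑ x : V, ∑ y : V, if (per σ x ∣ j ∧ per σ y ∣ j) then 1 else 0 := by
    intro j
    rw [fp_pow, sum_mul_sum]
    refine sum_congr rfl fun x _ => sum_congr rfl fun y _ => ?_
    split_ifs <;> simp_all
  simp_rw [h1]
  rw [sum_comm]
  have h2 : ∀ x : V, ∑ j ∈ range (orderOf σ), ∑ y : V,
      (if (per σ x ∣ j ∧ per σ y ∣ j) then 1 else 0) =
      ∑ l ∈ range (M + 1), l * cnt σ l *
        ((range (orderOf σ)).filter (fun j => per σ x ∣ j ∧ l ∣ j)).card := by
    intro x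
    rw [sum_comm]
    simp_rw [← card_filter]
    exact sum_per σ M hM
      (fun l => ((range (orderOf σ)).filter (fun j => per σ x ∣ j ∧ l ∣ j)).card)
  simp_rw [h2]
  rw [sum_per σ M hM (fun k => ∑ l ∈ range (M + 1), l * cnt σ l *
        ((range (orderOf σ)).filter (fun j => k ∣ j ∧ l ∣ j)).card), mul_sum]
  refine sum_congr rfl fun k _ => ?_
  rw [mul_sum, mul_sum]
  refine sum_congr rfl fun l _ => ?_
  by_cases h : cnt σ k = 0
  · rw [h]
    ring
  by_cases h' : cnt σ l = 0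
  · rw [h']
    ring
  obtain ⟨h3, h4⟩ := cnt_ne_zero σ k h
  obtain ⟨h5, h6⟩ := cnt_ne_zero σ l h'
  have h7 : ((range (orderOf σ)).filter (fun j => k ∣ j ∧ l ∣ j)) =
      ((range (orderOf σ)).filter (fun j => Nat.lcm k l ∣ j)) := by
    ext j
    rw [mem_filter, mem_filter, Nat.lcm_dvd_iff]
  rw [h7]
  have h8 := card_multiples (orderOf σ) (Nat.lcm k l) (Nat.lcm_pos h3 h5) (Nat.lcm_dvd h4 h6)
  have h9 := Nat.gcd_mul_lcm k l
  calc k * cnt σ k * (l * cnt σ l *
        ((range (orderOf σ)).filter (fun j => Nat.lcm k l ∣ j)).card)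
      = (k * l) * (cnt σ k * cnt σ l *
        ((range (orderOf σ)).filter (fun j => Nat.lcm k l ∣ j)).card) := by ring
    _ = (Nat.gcd k l * Nat.lcm k l) * (cnt σ k * cnt σ l *
        ((range (orderOf σ)).filter (fun j => Nat.lcm k l ∣ j)).card) := by rw [h9]
    _ = (Nat.lcm k l * ((range (orderOf σ)).filter (fun j => Nat.lcm k l ∣ j)).card) *
        (cnt σ k * cnt σ l * Nat.gcd k l) := by ring
    _ = orderOf σ * (cnt σ k * cnt σ l * Nat.gcd k l) := by rw [h8]

/-- the quadratic form -/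
def qf (M : ℕ) (a : ℕ → ℕ) : ℕ :=
  ∑ k ∈ range (M + 1), ∑ l ∈ range (M + 1), a k * a l * Nat.gcd k l

/-- number of odd parts -/
def od (M : ℕ) (a : ℕ → ℕ) : ℕ := ∑ k ∈ range (M + 1), a k * (k % 2)

theorem two_orb (σ : Perm V) (M : ℕ) (hM : Fintype.card V ≤ M) :
    2 * orb σ + od M (cnt σ) = qf M (cnt σ) := by
  have hB := burnside_pairs σ
  rw [sum_fp σ M hM, sum_fp_two σ M hM, sum_fp_sq σ M hM] at hB
  have hN := orderOf_pos σ
  have h1 : 2 * orb σ + 2 * ∑ k ∈ range (M + 1), cnt σ k = qf M (cnt σ) +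
      ∑ k ∈ range (M + 1), cnt σ k * Nat.gcd 2 k := by
    apply Nat.eq_of_mul_eq_mul_left hN
    unfold qf
    linarith
  have h2 : 2 * ∑ k ∈ range (M + 1), cnt σ k = ∑ k ∈ range (M + 1), cnt σ k * Nat.gcd 2 k +
      od M (cnt σ) := by
    rw [mul_sum, od, ← sum_add_distrib]
    refine sum_congr rfl fun k _ => ?_
    rcases Nat.mod_two_eq_zero_or_one k with h | h
    · have h3 : Nat.gcd 2 k = 2 := Nat.gcd_eq_left (Nat.dvd_of_mod_eq_zero h)
      rw [h3, h]
      ring
    · have h3 : Nat.gcd 2 k = 1 := by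
        rw [← Nat.coprime_iff_gcd_eq_one, Nat.coprime_two_left]
        exact Nat.odd_iff.mpr h
      rw [h3, h]
      ring
  omega

end Pool.Agent.Lib.MP_4b91fc_lc
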