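import Pool.Agent.Lib.MP_4b91fc_lc.Ins

set_option autoImplicit false

/-!
# The tables of the algorithm and their values
-/

namespace Pool.Agent.Lib.MP_4b91fc_lc

open Function Finset

/-- natural numbers, to be encoded in binary -/
structure Big where
  /-- the value -/
  val : ℕ

/-- a state: list of multiplicities and total -/
abbrev Key : Type := List ℕ × ℕ

/-- tables -/
abbrev Tb : Type := List (Key × Big)

/-- the function given by a list -/
def vf (l : List ℕ) (j : ℕ) : ℕ := l.getD j 0

/-- the list of the values of a function -/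
def tb (n : ℕ) (a : ℕ → ℕ) : List ℕ := (List.range (n + 1)).map a

theorem vf_tb (n : ℕ) (a : ℕ → ℕ) (j : ℕ) (hj : j ∈ range (n + 1)) : vf (tb n a) j = a j := by
  rw [mem_range] at hj
  unfold vf tb
  rw [List.getD_eq_getElem?_getD, List.getElem?_map, List.getElem?_range hj]
  rfl

theorem vf_tb' (n : ℕ) (a : ℕ → ℕ) (j : ℕ) (hj : j ∉ range (n + 1)) : vf (tb n a) j = 0 := by
  rw [mem_range, not_lt] at hj
  unfold vf tb
  rw [List.getD_eq_getElem?_getD, List.getElem?_eq_none (by simpa using hj)]
  rfl

/-- value of a table with respect to a weight function on states -/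
def ev (T : Tb) (F : List ℕ → ℕ → ℕ) : ℕ := (T.map (fun e => e.2.val * F e.1.1 e.1.2)).sum

theorem ev_nil (F : List ℕ → ℕ → ℕ) : ev [] F = 0 := rfl

theorem ev_cons (e : Key × Big) (T : Tb) (F : List ℕ → ℕ → ℕ) :
    ev (e :: T) F = e.2.val * F e.1.1 e.1.2 + ev T F := rfl

theorem ev_append (T U : Tb) (F : List ℕ → ℕ → ℕ) : ev (T ++ U) F = ev T F + ev U F := by
  unfold ev
  rw [List.map_append, List.sum_append]

/-- add an entry to a table -/
def addE (A : Tb) (e : Key × Big) : Tb :=
  if A.any (fun x => decide (x.1 = e.1)) then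
    A.map (fun x => if x.1 = e.1 then (x.1, ⟨x.2.val + e.2.val⟩) else x)
  else e :: A

/-- keys -/
def ks (A : Tb) : List Key := A.map Prod.fst

theorem ks_addE (A : Tb) (e : Key × Big) :
    ks (addE A e) = if e.1 ∈ ks A then ks A else e.1 :: ks A := by
  unfold addE
  have h : (A.any (fun x => decide (x.1 = e.1)) = true) ↔ e.1 ∈ ks A := by
    rw [List.any_eq_true]
    unfold ks
    rw [List.mem_map]
    constructor
    · rintro ⟨x, hx, hx2⟩
      exact ⟨x, hx, of_decide_eq_true hx2⟩
    · rintro ⟨x, hx, hx2⟩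
      exact ⟨x, hx, decide_eq_true hx2⟩
  by_cases h' : e.1 ∈ ks A
  · rw [if_pos (h.mpr h'), if_pos h']
    unfold ks
    rw [List.map_map]
    apply List.map_congr_left
    intro x _
    simp only [comp_apply]
    split_ifs <;> rfl
  · rw [if_neg (fun h2 => h' (h.mp h2)), if_neg h']
    rfl

theorem nodup_addE (A : Tb) (e : Key × Big) (h : (ks A).Nodup) : (ks (addE A e)).Nodup := by
  rw [ks_addE]
  split_ifs with h'
  · exact h
  · exact List.nodup_cons.mpr ⟨h', h⟩

theorem ev_map_add (A : Tb) (e : Key × Big) (F : List ℕ → ℕ → ℕ) (h : (ks A).Nodup) :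
    ev (A.map (fun x => if x.1 = e.1 then (x.1, (⟨x.2.val + e.2.val⟩ : Big)) else x)) F =
      ev A F + if e.1 ∈ ks A then e.2.val * F e.1.1 e.1.2 else 0 := by
  induction A with
  | nil => simp [ev, ks]
  | cons x A ih =>
    have h' := List.nodup_cons.mp h
    rw [List.map_cons, ev_cons, ih h'.2, ev_cons]
    by_cases hx : x.1 = e.1
    · have h2 : e.1 ∉ ks A := fun h3 => h'.1 (hx ▸ h3)
      have h3 : e.1 ∈ ks (x :: A) := by
        unfold ks
        rw [List.map_cons, hx]
        exact List.mem_cons_self
      rw [if_pos hx, if_neg h2, if_pos h3, ← hx]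
      simp only
      ring
    · have h3 : e.1 ∈ ks (x :: A) ↔ e.1 ∈ ks A := by
        unfold ks
        rw [List.map_cons, List.mem_cons]
        exact or_iff_right (fun h => hx h.symm)
      rw [if_neg hx]
      by_cases h4 : e.1 ∈ ks A
      · rw [if_pos h4, if_pos (h3.mpr h4)]
        ring
      · rw [if_neg h4, if_neg (fun h => h4 (h3.mp h))]
        ring

theorem ev_addE (A : Tb) (e : Key × Big) (F : List ℕ → ℕ → ℕ) (h : (ks A).Nodup) :
    ev (addE A e) F = ev A F + e.2.val * F e.1.1 e.1.2 := by
  unfold addE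
  have h0 : (A.any (fun x => decide (x.1 = e.1)) = true) ↔ e.1 ∈ ks A := by
    rw [List.any_eq_true]
    unfold ks
    rw [List.mem_map]
    constructor
    · rintro ⟨x, hx, hx2⟩
      exact ⟨x, hx, of_decide_eq_true hx2⟩
    · rintro ⟨x, hx, hx2⟩
      exact ⟨x, hx, decide_eq_true hx2⟩
  by_cases h' : e.1 ∈ ks A
  · rw [if_pos (h0.mpr h'), ev_map_add A e F h, if_pos h']
  · rw [if_neg (fun h2 => h' (h0.mp h2)), ev_cons]
    ring

/-- merge entries with equal keys -/
def merge (U : Tb) : Tb := U.foldl addE []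

theorem foldl_addE (U : Tb) (F : List ℕ → ℕ → ℕ) : ∀ A : Tb, (ks A).Nodup →
    (ks (U.foldl addE A)).Nodup ∧ ev (U.foldl addE A) F = ev A F + ev U F ∧
    ∀ k, k ∈ ks (U.foldl addE A) → k ∈ ks A ∨ k ∈ ks U := by
  induction U with
  | nil =>
    intro A h
    exact ⟨h, by simp [ev_nil], fun k hk => Or.inl hk⟩
  | cons e U ih =>
    intro A h
    obtain ⟨h1, h2, h3⟩ := ih (addE A e) (nodup_addE A e h)
    refine ⟨h1, ?_, ?_⟩
    · rw [List.foldl_cons, h2, ev_addE A e F h, ev_cons]
      ring
    · intro k hk
      rcases h3 k hk with h4 | h4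
      · rw [ks_addE] at h4
        split_ifs at h4 with h5
        · exact Or.inl h4
        · rcases List.mem_cons.mp h4 with h6 | h6
          · exact Or.inr (by rw [h6]; exact List.mem_cons_self)
          · exact Or.inl h6
      · exact Or.inr (List.mem_cons_of_mem _ h4)

theorem nodup_merge (U : Tb) : (ks (merge U)).Nodup :=
  (foldl_addE U (fun _ _ => 0) [] (by simp [ks])).1

theorem ev_merge (U : Tb) (F : List ℕ → ℕ → ℕ) : ev (merge U) F = ev U F := by
  have := (foldl_addE U F [] (by simp [ks])).2.1
  rw [ev_nil, zero_add] at this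
  exact this

theorem mem_merge (U : Tb) (k : Key) (h : k ∈ ks (merge U)) : k ∈ ks U := by
  rcases (foldl_addE U (fun _ _ => 0) [] (by simp [ks])).2.2 k h with h1 | h1
  · simp [ks] at h1
  · exact h1

variable {n : ℕ}

/-- multiply by `wt n k m` -/
def wmul (n k m w : ℕ) : ℕ :=
  ((List.range (n + 1)).filter (fun i => decide (1 ≤ i ∧ ¬ (k ∣ i ∧ i ≤ k * m)))).foldl
    (fun x i => x * i) w

theorem foldl_mul (l : List ℕ) : ∀ w : ℕ, l.foldl (fun x i => x * i) w = w * l.prod := by
  induction l with
  | nil => simp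
  | cons a l ih =>
    intro w
    rw [List.foldl_cons, ih, List.prod_cons]
    ring

theorem wmul_eq (k m w : ℕ) : wmul n k m w = w * wt n k m := by
  unfold wmul wt
  rw [foldl_mul]
  congr 1
  have h1 : ((List.range (n + 1)).filter
      (fun i => decide (1 ≤ i ∧ ¬ (k ∣ i ∧ i ≤ k * m)))).Nodup := List.nodup_range.filter _
  have h2 := List.prod_toFinset (fun i => i) h1
  rw [List.map_id'] at h2
  rw [← h2]
  refine prod_congr ?_ fun _ _ => rfl
  ext i
  rw [List.mem_toFinset, List.mem_filter, List.mem_range, mem_filter, mem_Icc, decide_eq_true_iff]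
  constructor
  · rintro ⟨h1, h2, h3⟩
    exact ⟨⟨h2, Nat.lt_succ_iff.mp h1⟩, h3⟩
  · rintro ⟨⟨h1, h2⟩, h3⟩
    exact ⟨Nat.lt_succ_iff.mpr h2, h1, h3⟩

/-- the entries obtained from one entry by an instruction -/
def out (n : ℕ) (i : Ins) (e : Key × Big) : Tb :=
  i.elim
    (fun k => (List.range (n + 1)).filterMap (fun m => if e.1.2 + k * m ≤ n then
      some ((tb n (addAt (vf e.1.1) k m), e.1.2 + k * m), ⟨wmul n k m e.2.val⟩) else none))
    (fun p => [((tb n (strV n p (vf e.1.1)), e.1.2),
      ⟨e.2.val * 2 ^ (en n (vf e.1.1) - en n (strV n p (vf e.1.1)))⟩)])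

/-- one instruction -/
def step (n : ℕ) (T : Tb) (i : Ins) : Tb := merge (T.flatMap (out n i))

theorem fut_congr (is : List Ins) : ∀ (a b : ℕ → ℕ) (t : ℕ),
    (∀ j ∈ range (n + 1), a j = b j) → fut n is a t = fut n is b t := by
  induction is with
  | nil =>
    intro a b t h
    rw [fut, fut, en, en, qf_congr n a b h, od_congr n a b h]
  | cons i is ih =>
    intro a b t h
    rcases i with k | p
    · rw [fut, fut]
      refine sum_congr rfl fun m _ => ?_
      rw [ih (addAt a k m) (addAt b k m) _ (fun j hj => by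
        unfold addAt
        rw [h j hj])]
    · have h1 : strV n p a = strV n p b := by
        funext j
        unfold strV
        exact sum_congr rfl fun i hi => by rw [h i hi]
      rw [fut, fut, h1, en, qf_congr n a b h, od_congr n a b h, ← en]

theorem ev_out (i : Ins) (is : List Ins) (e : Key × Big) :
    ev (out n i e) (fun l t => fut n is (vf l) t) =
      e.2.val * fut n (i :: is) (vf e.1.1) e.1.2 := by
  rcases i with k | p
  · unfold out
    rw [Sum.elim_inl, fut, mul_sum]
    have key : ∀ l : List ℕ, l.Nodup → ev (l.filterMap (fun m => if e.1.2 + k * m ≤ n then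
        some ((tb n (addAt (vf e.1.1) k m), e.1.2 + k * m), (⟨wmul n k m e.2.val⟩ : Big))
        else none)) (fun l t => fut n is (vf l) t) =
        ∑ m ∈ l.toFinset, e.2.val * (if e.1.2 + k * m ≤ n then
          wt n k m * fut n is (addAt (vf e.1.1) k m) (e.1.2 + k * m) else 0) := by
      intro l
      induction l with
      | nil => intro _; simp [ev]
      | cons m l ih =>
        intro hl
        have hl' := List.nodup_cons.mp hl
        rw [List.toFinset_cons, sum_insert (by simpa using hl'.1), ← ih hl'.2,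
          List.filterMap_cons]
        by_cases hm : e.1.2 + k * m ≤ n
        · rw [if_pos hm, if_pos hm]
          simp only
          rw [ev_cons, wmul_eq]
          simp only
          rw [fut_congr is _ _ _ (fun j hj => vf_tb n _ j hj)]
          ring
        · rw [if_neg hm, if_neg hm]
          simp
    rw [key _ List.nodup_range, List.toFinset_range]
  · unfold out
    rw [Sum.elim_inr, fut, ev_cons, ev_nil]
    simp only
    rw [fut_congr is _ _ _ (fun j hj => vf_tb n _ j hj)]
    ring

theorem ev_step (i : Ins) (is : List Ins) (T : Tb) :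
    ev (step n T i) (fun l t => fut n is (vf l) t) =
      ev T (fun l t => fut n (i :: is) (vf l) t) := by
  unfold step
  rw [ev_merge]
  induction T with
  | nil => rfl
  | cons e T ih =>
    rw [List.flatMap_cons, ev_append, ev_out, ih, ev_cons]

end Pool.Agent.Lib.MP_4b91fc_lc
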