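import Pool.Agent.Lib.PolyTime.Budget
import Pool.Agent.Lib.MP_b4f117_lc.Arith
import Pool.Agent.Lib.MP_4b91fc_lc.Tab

set_option autoImplicit false

/-!
# Natural numbers in binary and their arithmetic in polynomial time
-/

namespace Pool.Agent.Lib.MP_4b91fc_lc

open Function Pool.Agent.PolyTime

/-- value of a list of bits, least significant bit first -/
def ofB : List Bool → ℕ
  | [] => 0
  | b :: l => 2 * ofB l + b.toNat

theorem ofB_nil : ofB [] = 0 := rfl

theorem ofB_cons (b : Bool) (l : List Bool) : ofB (b :: l) = 2 * ofB l + b.toNat := rfl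

/-- remove the leading zeros -/
def norm (l : List Bool) : List Bool :=
  l.foldr (fun b x => if b = false ∧ x = [] then [] else b :: x) []

theorem bits_ofB (l : List Bool) : (ofB l).bits = norm l := by
  induction l with
  | nil => simp [ofB, norm]
  | cons b l ih =>
    have h1 : norm (b :: l) = if b = false ∧ norm l = [] then [] else b :: norm l := rfl
    rw [h1, ofB_cons]
    by_cases h : b = false ∧ ofB l = 0
    · rw [h.1, h.2, if_pos ⟨rfl, by rw [← ih, h.2]; simp⟩]
      simp
    · have h2 : 2 * ofB l + b.toNat = Nat.bit b (ofB l) := by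
        cases b <;> simp [Nat.bit]
      rw [h2, Nat.bits_append_bit, ih, if_neg]
      · rintro ⟨h3, h4⟩
        apply h
        refine ⟨h3, ?_⟩
        rw [← ih] at h4
        have h5 := congrArg List.length h4
        rw [Nat.size_eq_bits_len] at h5
        exact Nat.size_eq_zero.mp h5
      · intro h3
        by_contra h4
        exact h ⟨by simpa using h4, h3⟩

theorem ofB_bits (v : ℕ) : ofB v.bits = v := by
  induction v using Nat.binaryRec' with
  | zero => simp [ofB]
  | bit b n h ih =>
    rw [Nat.bits_append_bit _ _ h, ofB_cons, ih]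
    cases b <;> simp [Nat.bit]

/-- natural numbers in binary -/
instance : SCode Big := ⟨fun w => enc w.val.bits, fun v w h => by
  have h1 := SCode.inj h
  have h2 := congrArg ofB h1
  rw [ofB_bits, ofB_bits] at h2
  cases v
  cases w
  exact congrArg Big.mk h2⟩

theorem enc_big (w : Big) : enc w = enc w.val.bits := rfl

theorem sz_bits_le (l : List Bool) : sz l ≤ 4 * l.length + 1 := by
  induction l with
  | nil => simp
  | cons a l ih =>
    have := sz_bool_le a
    simp only [sz_cons, List.length_cons]
    omega

theorem sz_big_le (v k : ℕ) (h : v < 2 ^ k) : sz (⟨v⟩ : Big) ≤ 4 * k + 1 := by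
  have h1 : sz (⟨v⟩ : Big) = sz v.bits := rfl
  have h2 := sz_bits_le v.bits
  rw [Nat.size_eq_bits_len] at h2
  have h3 := Nat.size_le.mpr h
  rw [h1]
  omega

theorem lt_two_pow_sz (w : Big) : w.val < 2 ^ sz w := by
  have h1 : sz w = sz w.val.bits := rfl
  have h2 := length_le_sz w.val.bits
  rw [Nat.size_eq_bits_len] at h2
  refine (Nat.lt_size_self w.val).trans_le (Nat.pow_le_pow_right (by norm_num) ?_)
  rw [h1]
  omega

variable {α : Type} [SCode α]

theorem ptime_bits {f : α → Big} (hf : PTime f) : PTime (fun a => (f a).val.bits) :=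
  (PTime.of_enc (f := fun w : Big => w.val.bits) fun w => (enc_big w).symm).comp hf

open Polynomial in
theorem ptime_norm {f : α → List Bool} (hf : PTime f) : PTime (fun a => norm (f a)) := by
  have h : PTime norm := by
    unfold norm
    refine PTime.foldr (f := fun (_ : List Bool) b (x : List Bool) =>
      if b = false ∧ x = [] then [] else b :: x) PTime.id (PTime.const []) ?_ (C 4) ?_
    · refine PTime.ite (c := fun p : List Bool × Bool × List Bool => p.2.1 = false ∧ p.2.2 = [])
        ?_ (PTime.const []) (PTime.cons (PTime.fst.comp PTime.snd) (PTime.snd.comp PTime.snd))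
      refine (PTime.and (PTime.eq (PTime.fst.comp PTime.snd) (PTime.const false))
        (PTime.eq (PTime.snd.comp PTime.snd) (PTime.const []))).of_eq fun p => ?_
      rw [Bool.decide_and]
    · intro a s b _
      rw [eval_C]
      have := sz_bool_le b
      have := sz_pos s
      split_ifs
      · rw [sz_nil]
        omega
      · rw [sz_cons]
        omega
  exact h.comp hf

theorem ptime_ofB {f : α → List Bool} (hf : PTime f) : PTime (fun a => (⟨ofB (f a)⟩ : Big)) := by
  have h : PTime (fun l : List Bool => (⟨ofB l⟩ : Big)) := by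
    obtain ⟨g, hg, hg'⟩ := ptime_norm (PTime.id : PTime (fun l : List Bool => l))
    refine ⟨g, hg, fun l => ?_⟩
    rw [hg', enc_big, bits_ofB]
  exact h.comp hf

/-! ### Addition -/

/-- one step of the addition -/
def addStep (s : List Bool × Bool × List Bool) (x : Bool) : List Bool × Bool × List Bool :=
  (s.1.tail, bif x then s.1.headD false || s.2.1 else s.1.headD false && s.2.1,
    (bif x then (bif s.1.headD false then s.2.1 else !s.2.1) else
      (bif s.1.headD false then !s.2.1 else s.2.1)) :: s.2.2)

theorem ofB_append_singleton (l : List Bool) (b : Bool) :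
    ofB (l ++ [b]) = ofB l + 2 ^ l.length * b.toNat := by
  induction l with
  | nil => simp [ofB]
  | cons a l ih =>
    rw [List.cons_append, ofB_cons, ih, ofB_cons, List.length_cons, pow_succ]
    ring

theorem addStep_foldl (L : List Bool) : ∀ (m : List Bool) (c : Bool) (o : List Bool),
    (L.foldl addStep (m, c, o)).1 = m.drop L.length ∧
    (L.foldl addStep (m, c, o)).2.2.length = o.length + L.length ∧
    ofB (L.foldl addStep (m, c, o)).2.2.reverse + 2 ^ (o.length + L.length) *
      (ofB (m.drop L.length) + (L.foldl addStep (m, c, o)).2.1.toNat) =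
      ofB o.reverse + 2 ^ o.length * (ofB m + c.toNat + ofB L) := by
  induction L with
  | nil =>
    intro m c o
    refine ⟨by simp, by simp, ?_⟩
    simp [ofB]
  | cons x L ih =>
    intro m c o
    rw [List.foldl_cons]
    obtain ⟨s, hs⟩ : ∃ s, s = addStep (m, c, o) x := ⟨_, rfl⟩
    obtain ⟨h1, h2, h3⟩ := ih s.1 s.2.1 s.2.2
    rw [← hs]
    have e1 : s.1 = m.tail := by rw [hs]; rfl
    have e2 : s.2.2.length = o.length + 1 := by rw [hs]; rfl
    have e3 : (s.1, s.2.1, s.2.2) = s := rfl
    rw [e3] at h1 h2 h3
    refine ⟨?_, ?_, ?_⟩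
    · rw [h1, e1]
      simp
    · rw [h2, e2, List.length_cons]
      ring
    · rw [e2] at h3
      have e4 : m.drop (x :: L).length = s.1.drop L.length := by
        rw [e1]
        simp
      rw [e4, List.length_cons, show o.length + (L.length + 1) = o.length + 1 + L.length by ring, h3,
        ofB_cons]
      have e5 : s.2.2.reverse = o.reverse ++ [bif x then (bif m.headD false then c else !c) else
          (bif m.headD false then !c else c)] := by
        rw [hs]
        simp [addStep]
      have e6 : s.2.1 = (bif x then m.headD false || c else m.headD false && c) := by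
        rw [hs]
        rfl
      have e7 : ofB m = 2 * ofB m.tail + (m.headD false).toNat := by
        cases m with
        | nil => simp [ofB]
        | cons y m => simp [ofB]
      rw [e5, ofB_append_singleton, List.length_reverse, e6, e1, e7, pow_succ]
      generalize ofB m.tail = M
      generalize m.headD false = y
      generalize 2 ^ o.length = E
      cases x <;> cases y <;> cases c <;> simp <;> ring

theorem ptime_bigAdd {f g : α → Big} (hf : PTime f) (hg : PTime g) :
    PTime (fun a => (⟨(f a).val + (g a).val⟩ : Big)) := by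
  have h : PTime (fun p : List Bool × List Bool =>
      (p.1 ++ List.replicate p.2.length false).foldl addStep (p.2, false, [])) := by
    refine PTime.foldl (f := fun (_ : List Bool × List Bool) s b => addStep s b)
      (PTime.append PTime.fst (PTime.replicate (PTime.length PTime.snd) (PTime.const false)))
      (PTime.pair PTime.snd (PTime.pair (PTime.const false) (PTime.const []))) ?_
      (Polynomial.C 8) ?_
    · have hx : PTime (fun p : (List Bool × List Bool) × (List Bool × Bool × List Bool) × Bool =>
        p.2.2) := PTime.snd.comp PTime.snd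
      have hm : PTime (fun p : (List Bool × List Bool) × (List Bool × Bool × List Bool) × Bool =>
        p.2.1.1) := PTime.fst.comp (PTime.fst.comp PTime.snd)
      have hc : PTime (fun p : (List Bool × List Bool) × (List Bool × Bool × List Bool) × Bool =>
        p.2.1.2.1) := PTime.fst.comp (PTime.snd.comp (PTime.fst.comp PTime.snd))
      have ho : PTime (fun p : (List Bool × List Bool) × (List Bool × Bool × List Bool) × Bool =>
        p.2.1.2.2) := PTime.snd.comp (PTime.snd.comp (PTime.fst.comp PTime.snd))
      have hy := PTime.headD hm (PTime.const false)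
      exact PTime.pair (PTime.tail hm) (PTime.pair (PTime.cond hx (PTime.or hy hc)
        (PTime.and hy hc)) (PTime.cons (PTime.cond hx (PTime.cond hy hc (PTime.not hc))
        (PTime.cond hy (PTime.not hc) hc)) ho))
    · intro a s b _
      rw [Polynomial.eval_C]
      unfold addStep
      rw [sz_pair, sz_pair, sz_cons]
      have h1 : sz s.1.tail ≤ sz s.1 := by
        have := sz_drop_le s.1 1
        simpa using this
      have h2 := sz_bool_le (bif b then s.1.headD false || s.2.1 else s.1.headD false && s.2.1)
      have h3 := sz_bool_le (bif b then (bif s.1.headD false then s.2.1 else !s.2.1) else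
        (bif s.1.headD false then !s.2.1 else s.2.1))
      have h4 : sz s = sz s.1 + (sz s.2.1 + sz s.2.2 + 1) + 1 := rfl
      have h5 := sz_pos s.2.1
      omega
  have h2 : PTime (fun p : List Bool × List Bool => (⟨ofB
      (((p.1 ++ List.replicate p.2.length false).foldl addStep (p.2, false, [])).2.2.reverse ++
        [((p.1 ++ List.replicate p.2.length false).foldl addStep (p.2, false, [])).2.1])⟩ : Big)) :=
    ptime_ofB (PTime.append (PTime.reverse (PTime.snd.comp (PTime.snd.comp h)))
      (PTime.cons (PTime.fst.comp (PTime.snd.comp h)) (PTime.const [])))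
  refine (h2.comp ((ptime_bits hf).pair (ptime_bits hg))).of_eq fun a => ?_
  congr 1
  obtain ⟨l, hl⟩ : ∃ l, l = (f a).val.bits := ⟨_, rfl⟩
  obtain ⟨m, hm⟩ : ∃ m, m = (g a).val.bits := ⟨_, rfl⟩
  simp only
  rw [← hl, ← hm]
  obtain ⟨-, h3, h4⟩ := addStep_foldl (l ++ List.replicate m.length false) m false []
  rw [ofB_append_singleton, List.length_reverse, h3]
  have e1 : m.drop (l ++ List.replicate m.length false).length = [] := by
    apply List.drop_eq_nil_of_le
    simp
  have e2 : ∀ (l : List Bool) (k : ℕ), ofB (l ++ List.replicate k false) = ofB l := by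
    intro l k
    induction l with
    | nil =>
      rw [List.nil_append]
      induction k with
      | zero => rfl
      | succ k ih =>
        rw [List.replicate_succ, ofB_cons, ih]
        simp [ofB]
    | cons b l ih => rw [List.cons_append, ofB_cons, ih, ofB_cons]
  rw [e1, e2, ofB_nil] at h4
  simp only [List.length_nil, Nat.zero_add, List.reverse_nil, ofB_nil, pow_zero, one_mul,
    Bool.toNat_false, Nat.add_zero] at h4 ⊢
  rw [h4, hl, hm, ofB_bits, ofB_bits]
  ring

/-! ### Multiplication by small numbers -/

open Polynomial in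
theorem ptime_bigMul {f : α → Big} {g : α → ℕ} (hf : PTime f) (hg : PTime g) :
    PTime (fun a => (⟨(f a).val * g a⟩ : Big)) := by
  have key : ∀ (w : Big) (i : ℕ), (fun s : Big => (⟨s.val + w.val⟩ : Big))^[i] (⟨0⟩ : Big) =
      (⟨w.val * i⟩ : Big) := by
    intro w i
    induction i with
    | zero => simp
    | succ i ih =>
      rw [iterate_succ_apply', ih]
      congr 1
  have h : PTime (fun p : Big × ℕ => (fun s : Big => (⟨s.val + p.1.val⟩ : Big))^[p.2] (⟨0⟩ : Big)) := by
    refine PTime.iterate_of_bound (f := fun (p : Big × ℕ) (s : Big) =>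
      (⟨s.val + p.1.val⟩ : Big)) PTime.snd (PTime.const (⟨0⟩ : Big)) ?_ (C 4 * X + C 1) ?_
    · exact ptime_bigAdd PTime.snd (PTime.fst.comp PTime.fst)
    · intro p i hi
      rw [key]
      have h1 := lt_two_pow_sz p.1
      have h2 : i ≤ 2 ^ p.2 := (hi.trans (Nat.lt_two_pow_self).le)
      have h3 : p.1.val * i < 2 ^ (sz p.1 + p.2) := by
        rw [pow_add]
        rcases Nat.eq_zero_or_pos i with h | h
        · rw [h, mul_zero]
          positivity
        · calc p.1.val * i < 2 ^ sz p.1 * i := Nat.mul_lt_mul_of_pos_right h1 h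
            _ ≤ 2 ^ sz p.1 * 2 ^ p.2 := Nat.mul_le_mul_left _ h2
      have h4 := sz_big_le _ _ h3
      have h5 : sz p = sz p.1 + sz p.2 + 1 := rfl
      rw [sz_nat] at h5
      simp only [eval_add, eval_mul, eval_C, eval_X]
      omega
  refine (h.comp (hf.pair hg)).of_eq fun a => ?_
  rw [key]

/-- multiplication by a power of two -/
theorem ptime_bigShift {f : α → Big} {g : α → ℕ} (hf : PTime f) (hg : PTime g) :
    PTime (fun a => (⟨(f a).val * 2 ^ g a⟩ : Big)) := by
  refine (ptime_ofB (PTime.append (PTime.replicate hg (PTime.const false))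
    (ptime_bits hf))).of_eq fun a => ?_
  congr 1
  have : ∀ (k : ℕ) (l : List Bool), ofB (List.replicate k false ++ l) = ofB l * 2 ^ k := by
    intro k l
    induction k with
    | zero => simp
    | succ k ih =>
      rw [List.replicate_succ, List.cons_append, ofB_cons, ih, pow_succ]
      simp
      ring
  rw [this, ofB_bits]

/-! ### Division by small numbers -/

/-- one step of the division by `d + 1` -/
def divStep (d : ℕ) (s : ℕ × List Bool) (b : Bool) : ℕ × List Bool :=
  if d + 1 ≤ 2 * s.1 + b.toNat then (2 * s.1 + b.toNat - (d + 1), true :: s.2)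
  else (2 * s.1 + b.toNat, false :: s.2)

theorem divStep_foldl (d : ℕ) (L : List Bool) : ∀ (r : ℕ) (o : List Bool), r ≤ d →
    (L.foldl (divStep d) (r, o)).1 ≤ d ∧
    (L.foldl (divStep d) (r, o)).2.length = o.length + L.length ∧
    (d + 1) * ofB (L.foldl (divStep d) (r, o)).2 + (L.foldl (divStep d) (r, o)).1 =
      2 ^ L.length * ((d + 1) * ofB o + r) + ofB L.reverse := by
  induction L with
  | nil =>
    intro r o hr
    refine ⟨by simpa using hr, by simp, by simp [ofB]⟩
  | cons b L ih =>
    intro r o hr
    rw [List.foldl_cons]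
    have hb : b.toNat ≤ 1 := by cases b <;> simp
    rw [List.reverse_cons, ofB_append_singleton, List.length_reverse, List.length_cons, pow_succ]
    by_cases h : d + 1 ≤ 2 * r + b.toNat
    · have e : divStep d (r, o) b = (2 * r + b.toNat - (d + 1), true :: o) := if_pos h
      rw [e]
      obtain ⟨h1, h2, h3⟩ := ih (2 * r + b.toNat - (d + 1)) (true :: o) (by omega)
      refine ⟨h1, by rw [h2, List.length_cons]; ring, ?_⟩
      rw [h3, ofB_cons]
      obtain ⟨z, hz⟩ : ∃ z, 2 * r + b.toNat = d + 1 + z := ⟨_, (Nat.add_sub_of_le h).symm⟩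
      have e2 : 2 * r + b.toNat - (d + 1) = z := by omega
      rw [e2, Bool.toNat_true]
      have e3 : 2 ^ L.length * 2 * ((d + 1) * ofB o + r) + (ofB L.reverse + 2 ^ L.length * b.toNat) =
          2 ^ L.length * ((d + 1) * (2 * ofB o) + (2 * r + b.toNat)) + ofB L.reverse := by ring
      rw [e3, hz]
      ring
    · have e : divStep d (r, o) b = (2 * r + b.toNat, false :: o) := if_neg h
      rw [e]
      obtain ⟨h1, h2, h3⟩ := ih (2 * r + b.toNat) (false :: o) (by omega)
      refine ⟨h1, by rw [h2, List.length_cons]; ring, ?_⟩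
      rw [h3, ofB_cons, Bool.toNat_false]
      ring

open Polynomial in
theorem ptime_bigDiv {f : α → Big} {g : α → ℕ} (hf : PTime f) (hg : PTime g) :
    PTime (fun a => (⟨(f a).val / (g a + 1)⟩ : Big)) := by
  have h : PTime (fun p : List Bool × ℕ => p.1.reverse.foldl (divStep p.2) (0, [])) := by
    refine PTime.foldl_of_bound (f := fun (p : List Bool × ℕ) s b => divStep p.2 s b)
      (PTime.reverse PTime.fst) (PTime.const (0, [])) ?_ (C 10 * X + C 10) ?_
    · have hd : PTime (fun p : (List Bool × ℕ) × (ℕ × List Bool) × Bool => p.1.2) :=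
        PTime.snd.comp PTime.fst
      have hr : PTime (fun p : (List Bool × ℕ) × (ℕ × List Bool) × Bool => p.2.1.1) :=
        PTime.fst.comp (PTime.fst.comp PTime.snd)
      have ho : PTime (fun p : (List Bool × ℕ) × (ℕ × List Bool) × Bool => p.2.1.2) :=
        PTime.snd.comp (PTime.fst.comp PTime.snd)
      have hb : PTime (fun p : (List Bool × ℕ) × (ℕ × List Bool) × Bool => p.2.2.toNat) :=
        (PTime.cond (PTime.snd.comp PTime.snd) (PTime.const 1) (PTime.const 0)).of_eq
          fun p => by cases p.2.2 <;> rfl
      have hv := PTime.add (PTime.mul (PTime.const 2) hr) hb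
      exact PTime.ite (PTime.nat_le (PTime.succ hd) hv)
        (PTime.pair (PTime.sub hv (PTime.succ hd)) (PTime.cons (PTime.const true) ho))
        (PTime.pair hv (PTime.cons (PTime.const false) ho))
    · intro p l₁ l₂ hl
      obtain ⟨h1, h2, -⟩ := divStep_foldl p.2 l₁ 0 [] (Nat.zero_le _)
      have h3 := sz_bits_le (l₁.foldl (divStep p.2) (0, [])).2
      rw [h2, List.length_nil] at h3
      have h4 : l₁.length ≤ p.1.length := by
        have := congrArg List.length hl
        rw [List.length_reverse, List.length_append] at this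
        omega
      have h5 := length_le_sz p.1
      have h6 : sz p = sz p.1 + (2 * p.2 + 1) + 1 := by
        rw [← sz_nat p.2]
        rfl
      have h7 : sz (l₁.foldl (divStep p.2) (0, [])) = 2 * (l₁.foldl (divStep p.2) (0, [])).1 + 1 +
          sz (l₁.foldl (divStep p.2) (0, [])).2 + 1 := by
        rw [← sz_nat (l₁.foldl (divStep p.2) (0, [])).1]
        rfl
      simp only [eval_add, eval_mul, eval_C, eval_X]
      have h8 : (l₁.foldl (fun s b => divStep p.2 s b) (0, [])) =
        l₁.foldl (divStep p.2) (0, []) := rfl
      rw [h8, h7]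
      omega
  refine (ptime_ofB (PTime.snd.comp (h.comp ((ptime_bits hf).pair hg)))).of_eq fun a => ?_
  congr 1
  simp only
  obtain ⟨h1, -, h3⟩ := divStep_foldl (g a) (f a).val.bits.reverse 0 [] (Nat.zero_le _)
  rw [List.reverse_reverse, ofB_bits, ofB_nil] at h3
  obtain ⟨q, hq⟩ : ∃ q, q = ofB ((f a).val.bits.reverse.foldl (divStep (g a)) (0, [])).2 :=
    ⟨_, rfl⟩
  obtain ⟨r, hr⟩ : ∃ r, r = ((f a).val.bits.reverse.foldl (divStep (g a)) (0, [])).1 :=
    ⟨_, rfl⟩
  rw [← hq, ← hr] at h3
  rw [← hr] at h1
  rw [← hq]
  symm
  apply Nat.div_eq_of_lt_le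
  · rw [mul_comm]
    omega
  · have : (q + 1) * (g a + 1) = (g a + 1) * q + (g a + 1) := by ring
    rw [this]
    omega

end Pool.Agent.Lib.MP_4b91fc_lc
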