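import Pool.Agent.Lib.MP_4b91fc_lc.Tab

set_option autoImplicit false

/-!
# Counting multiplicity vectors of smooth numbers
-/

namespace Pool.Agent.Lib.MP_4b91fc_lc

open Function Finset

/-- support condition: positive numbers with all prime factors at most `q` -/
def Sup (q : ℕ) (a : ℕ → ℕ) : Prop := ∀ j, a j ≠ 0 → 1 ≤ j ∧ ∀ r, r.Prime → r ∣ j → r ≤ q

/-- total -/
def tot (n : ℕ) (a : ℕ → ℕ) : ℕ := ∑ j ∈ range (n + 1), a j * j

/-- smooth numbers up to `s` -/
def sms (q s : ℕ) : Finset ℕ := (Icc 1 s).filter (fun j => Smth q j)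

/-- number of smooth numbers up to `s` -/
def psi (q s : ℕ) : ℕ := (sms q s).card

variable {n : ℕ}

/-- parameters for the multiplicity vectors -/
abbrev Pr (n q s m : ℕ) : Type := ({j // j ∈ sms q s} → Fin (n + 1)) × (Fin m → Fin (n + 1))

theorem card_Pr (n q s m : ℕ) : Fintype.card (Pr n q s m) = (n + 1) ^ (psi q s + m) := by
  rw [Fintype.card_prod, Fintype.card_fun, Fintype.card_fun, Fintype.card_fin, Fintype.card_coe,
    Fintype.card_fin, psi, pow_add]

/-- the vector with given parameters -/
def vec {n q s m : ℕ} (w : Pr n q s m) (j : ℕ) : ℕ :=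
  if h : j ∈ sms q s then (w.1 ⟨j, h⟩ : ℕ) else
    if s < j then (univ.filter (fun i : Fin m => ((w.2 i : Fin (n + 1)) : ℕ) = j)).card else 0

theorem count_getD (L : List ℕ) : ∀ (m : ℕ), L.length ≤ m → ∀ j, j ≠ 0 →
    ((range m).filter (fun i => L.getD i 0 = j)).card = L.count j := by
  induction L with
  | nil =>
    intro m _ j hj
    rw [List.count_nil, card_eq_zero, filter_eq_empty_iff]
    intro i _ h
    exact hj (by simpa using h.symm)
  | cons x L ih =>
    intro m hm j hj
    obtain ⟨m', rfl⟩ : ∃ m', m = m' + 1 := ⟨m - 1, by rw [List.length_cons] at hm; omega⟩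
    rw [List.length_cons] at hm
    have h1 := ih m' (by omega) j hj
    rw [card_filter, sum_range_succ', ← card_filter]
    have h2 : ((range m').filter (fun i => (x :: L).getD (i + 1) 0 = j)) =
        ((range m').filter (fun i => L.getD i 0 = j)) := by
      apply filter_congr
      intro i _
      simp
    rw [h2, h1, List.count_cons]
    simp

theorem exists_vec (q s T : ℕ) (hs : 1 ≤ s) (a : ℕ → ℕ) (ha : Sup q a) (hT : tot n a ≤ T)
    (hTn : T ≤ n) : ∃ w : Pr n q s (T / s), ∀ j ∈ range (n + 1), vec w j = a j := by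
  obtain ⟨L, hL⟩ : ∃ L : List ℕ, L = ((List.range (n + 1)).filter (fun j => decide (s < j))).flatMap
    (fun j => List.replicate (a j) j) := ⟨_, rfl⟩
  have ha0 : a 0 = 0 := by
    by_contra h
    exact absurd (ha 0 h).1 (by omega)
  have hle : ∀ j ∈ range (n + 1), a j ≤ n := by
    intro j hj
    rcases Nat.eq_zero_or_pos j with h | h
    · rw [h, ha0]
      exact Nat.zero_le _
    · have h1 : a j * j ≤ tot n a :=
        single_le_sum (f := fun j => a j * j) (fun _ _ => Nat.zero_le _) hj
      have h2 : a j ≤ a j * j := Nat.le_mul_of_pos_right _ h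
      omega
  have hLle : ∀ x ∈ L, x ≤ n := by
    intro x hx
    rw [hL, List.mem_flatMap] at hx
    obtain ⟨j, hj, hxj⟩ := hx
    rw [List.mem_filter, List.mem_range] at hj
    rw [List.eq_of_mem_replicate hxj]
    omega
  have hcount : ∀ j ∈ range (n + 1), s < j → L.count j = a j := by
    intro j hj hsj
    rw [hL, List.count_flatMap]
    have h1 : ∀ l : List ℕ, l.Nodup → (List.map (List.count j ∘ fun j => List.replicate (a j) j) l).sum
        = if j ∈ l then a j else 0 := by
      intro l
      induction l with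
      | nil => intro _; simp
      | cons x l ih =>
        intro hl
        have hl' := List.nodup_cons.mp hl
        rw [List.map_cons, List.sum_cons, ih hl'.2, comp_apply]
        by_cases hx : x = j
        · subst hx
          rw [List.count_replicate_self, if_neg hl'.1, if_pos List.mem_cons_self]
          ring
        · have h2 : List.count j (List.replicate (a x) x) = 0 := by
            rw [List.count_eq_zero]
            intro h3
            exact hx (List.eq_of_mem_replicate h3).symm
          rw [h2, zero_add]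
          have h3 : j ∈ x :: l ↔ j ∈ l := by
            rw [List.mem_cons]
            exact or_iff_right (fun h => hx h.symm)
          simp only [h3]
    rw [h1 _ (List.nodup_range.filter _), if_pos]
    rw [List.mem_filter, List.mem_range]
    exact ⟨mem_range.mp hj, decide_eq_true hsj⟩
  have hlen : L.length ≤ T / s := by
    rw [Nat.le_div_iff_mul_le (by omega)]
    refine le_trans ?_ hT
    rw [hL, List.length_flatMap]
    have h1 : ∀ l : List ℕ, l.Nodup → (∀ j ∈ l, s < j ∧ j ∈ range (n + 1)) →
        (List.map (fun j => (List.replicate (a j) j).length) l).sum * s ≤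
          ∑ j ∈ l.toFinset, a j * j := by
      intro l
      induction l with
      | nil => intro _ _; simp
      | cons x l ih =>
        intro hl hm
        have hl' := List.nodup_cons.mp hl
        rw [List.map_cons, List.sum_cons, List.toFinset_cons,
          sum_insert (by simpa using hl'.1), List.length_replicate, add_mul]
        exact Nat.add_le_add (Nat.mul_le_mul_left _ (hm x List.mem_cons_self).1.le)
          (ih hl'.2 fun j hj => hm j (List.mem_cons_of_mem _ hj))
    refine (h1 _ (List.nodup_range.filter _) ?_).trans ?_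
    · intro j hj
      rw [List.mem_filter, List.mem_range] at hj
      exact ⟨of_decide_eq_true hj.2, mem_range.mpr hj.1⟩
    · unfold tot
      apply sum_le_sum_of_subset
      intro j hj
      rw [List.mem_toFinset, List.mem_filter, List.mem_range] at hj
      exact mem_range.mpr hj.1
  have hg : ∀ i : ℕ, L.getD i 0 < n + 1 := by
    intro i
    rw [List.getD_eq_getElem?_getD]
    rcases h : L[i]? with _ | x
    · simp
    · have := hLle x (List.mem_of_getElem? h)
      simp only [Option.getD_some]
      omega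
  refine ⟨(fun j => ⟨min (a j.1) n, by omega⟩, fun i => ⟨L.getD i 0, hg i⟩), ?_⟩
  intro j hj
  unfold vec
  split_ifs with h1 h2
  · have h3 := hle j hj
    simp only
    omega
  · rw [← hcount j hj h2, ← count_getD L _ hlen j (by omega), card_filter, card_filter]
    exact Fin.sum_univ_eq_sum_range (fun i => if L.getD i 0 = j then 1 else 0) (T / s)
  · by_contra h3
    have h4 := ha j (fun h => h3 h.symm)
    apply h1
    unfold sms
    rw [mem_filter, mem_Icc]
    exact ⟨⟨h4.1, by omega⟩, (smth_iff q j h4.1).mpr h4.2⟩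

theorem tb_congr (a b : ℕ → ℕ) (h : ∀ j ∈ range (n + 1), a j = b j) : tb n a = tb n b := by
  unfold tb
  apply List.map_congr_left
  intro j hj
  exact h j (mem_range.mpr (List.mem_range.mp hj))

/-- middle stage of the treatment of the prime `q` -/
def StB (n q : ℕ) (κ : Key) : Prop := ∃ a b : ℕ → ℕ, κ.1 = tb n (fun j => a j + b j) ∧
  Sup q a ∧ Sup q b ∧ (∀ j, b j ≠ 0 → q ∣ j) ∧ q * tot n a + tot n b ≤ κ.2 ∧ κ.2 ≤ n

/-- before the treatment of the prime `q` -/
def StA (n q : ℕ) (κ : Key) : Prop := ∃ a : ℕ → ℕ, κ.1 = tb n a ∧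
  Sup q a ∧ (q + 1) * tot n a ≤ κ.2 ∧ κ.2 ≤ n

/-- final stage -/
def StC (n : ℕ) (κ : Key) : Prop := ∃ a : ℕ → ℕ, κ.1 = tb n a ∧
  Sup 2 a ∧ tot n a ≤ κ.2 ∧ κ.2 ≤ n

theorem length_le_of_image {P : Type} [Fintype P] (Φ : P → Key) (L : List Key) (hL : L.Nodup)
    (h : ∀ κ ∈ L, ∃ w, Φ w = κ) : L.length ≤ Fintype.card P := by
  classical
  rw [← List.toFinset_card_of_nodup hL]
  calc L.toFinset.card ≤ (univ.image Φ).card := by
        apply card_le_card
        intro κ hκ
        rw [List.mem_toFinset] at hκ
        obtain ⟨w, hw⟩ := h κ hκ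
        rw [mem_image]
        exact ⟨w, mem_univ _, hw⟩
    _ ≤ _ := card_image_le

theorem count_StC (s : ℕ) (hs : 1 ≤ s) (L : List Key) (hL : L.Nodup)
    (h : ∀ κ ∈ L, StC n κ) : L.length ≤ (n + 1) ^ (1 + (psi 2 s + n / s)) := by
  have hc : Fintype.card (Fin (n + 1) × Pr n 2 s (n / s)) =
      (n + 1) ^ (1 + (psi 2 s + n / s)) := by
    rw [Fintype.card_prod, card_Pr, Fintype.card_fin]
    ring
  rw [← hc]
  refine length_le_of_image (fun w => (tb n (vec w.2), (w.1 : ℕ))) L hL ?_
  intro κ hκ
  obtain ⟨a, h1, h2, h3, h4⟩ := h κ hκ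
  obtain ⟨w, hw⟩ := exists_vec 2 s n hs a h2 (h3.trans h4) le_rfl
  refine ⟨(⟨κ.2, by omega⟩, w), ?_⟩
  apply Prod.ext
  · rw [h1]
    exact tb_congr _ _ hw
  · rfl

theorem count_StB (q s : ℕ) (hq : 1 ≤ q) (hs : 1 ≤ s) (L : List Key) (hL : L.Nodup)
    (h : ∀ κ ∈ L, StB n q κ) : L.length ≤ (n + 1) ^ (1 + 2 * (psi q s + n / q / s)) := by
  have hc : Fintype.card (Fin (n + 1) × (Pr n q s (n / q / s) × Pr n q s (n / q / s))) =
      (n + 1) ^ (1 + 2 * (psi q s + n / q / s)) := by
    rw [Fintype.card_prod, Fintype.card_prod, card_Pr, Fintype.card_fin]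
    ring
  rw [← hc]
  refine length_le_of_image (fun w => (tb n (fun j => vec w.2.1 j +
    if q ∣ j then vec w.2.2 (j / q) else 0), (w.1 : ℕ))) L hL ?_
  intro κ hκ
  obtain ⟨a, b, h1, h2, h3, h4, h5, h6⟩ := h κ hκ
  have hqn : n / q ≤ n := Nat.div_le_self _ _
  have ha : tot n a ≤ n / q := by
    rw [Nat.le_div_iff_mul_le (by omega), mul_comm]
    omega
  obtain ⟨w, hw⟩ := exists_vec q s (n / q) hs a h2 ha hqn
  obtain ⟨b', hb'⟩ : ∃ b' : ℕ → ℕ, b' = fun j => if q * j ≤ n then b (q * j) else 0 := ⟨_, rfl⟩
  have hb1 : Sup q b' := by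
    intro j hj
    rw [hb'] at hj
    simp only at hj
    have h8 : Sup q b → b (q * j) ≠ 0 := by
      intro _ h9
      rw [h9, ite_self] at hj
      exact hj rfl
    have h8 := h3 (q * j) (h8 h3)
    refine ⟨?_, fun r hr hrj => h8.2 r hr (hrj.mul_left q)⟩
    rcases Nat.eq_zero_or_pos j with h9 | h9
    · rw [h9] at h8
      simp at h8
    · exact h9
  have hb2 : tot n b' ≤ n / q := by
    rw [Nat.le_div_iff_mul_le (by omega)]
    have h7 : tot n b' * q ≤ tot n b := by
      unfold tot
      rw [sum_mul, hb']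
      have h8 : ∀ j ∈ range (n + 1), (if q * j ≤ n then b (q * j) else 0) * j * q =
          if q * j ∈ range (n + 1) then b (q * j) * (q * j) else 0 := by
        intro j _
        by_cases h9 : q * j ≤ n
        · rw [if_pos h9, if_pos (mem_range.mpr (by omega))]
          ring
        · rw [if_neg h9, if_neg (fun h => h9 (by rw [mem_range] at h; omega))]
          ring
      rw [sum_congr rfl h8, ← sum_filter]
      have h10 : ∑ j ∈ (range (n + 1)).filter (fun j => q * j ∈ range (n + 1)),
          b (q * j) * (q * j) =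
          ∑ i ∈ ((range (n + 1)).filter (fun j => q * j ∈ range (n + 1))).image (fun j => q * j),
            b i * i := by
        rw [sum_image]
        intro x _ y _ hxy
        exact Nat.eq_of_mul_eq_mul_left (by omega) hxy
      rw [h10]
      apply sum_le_sum_of_subset
      intro i hi
      rw [mem_image] at hi
      obtain ⟨j, hj, rfl⟩ := hi
      exact (mem_filter.mp hj).2
    omega
  obtain ⟨w', hw'⟩ := exists_vec q s (n / q) hs b' hb1 hb2 hqn
  refine ⟨(⟨κ.2, by omega⟩, (w, w')), ?_⟩
  apply Prod.ext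
  · rw [h1]
    apply tb_congr
    intro j hj
    simp only
    rw [hw j hj]
    congr 1
    split_ifs with h7
    · obtain ⟨i, rfl⟩ := h7
      rw [mem_range] at hj
      have h8 : q * i / q = i := Nat.mul_div_cancel_left _ (by omega)
      have h9 : i ≤ q * i := Nat.le_mul_of_pos_left _ (by omega)
      rw [h8, hw' i (mem_range.mpr (by omega)), hb']
      simp only
      rw [if_pos (by omega)]
    · by_contra h8
      exact h7 (h4 j (fun h => h8 h.symm))
  · rfl

end Pool.Agent.Lib.MP_4b91fc_lc
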