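import Pool.Agent.Lib.MP_4b91fc_lc.Par

set_option autoImplicit false

/-!
# Upper bounds for the number of smooth numbers (Rankin's method)
-/

namespace Pool.Agent.Lib.MP_4b91fc_lc

open Function Finset

/-- powers with a fixed exponent -/
noncomputable def pwH (σ : ℝ) : ℕ →* ℝ where
  toFun m := (m : ℝ) ^ (-σ)
  map_one' := by simp
  map_mul' a b := by
    push_cast
    exact Real.mul_rpow (Nat.cast_nonneg _) (Nat.cast_nonneg _)

theorem pwH_apply (σ : ℝ) (m : ℕ) : pwH σ m = (m : ℝ) ^ (-σ) := rfl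

theorem rankin (q s : ℕ) (σ : ℝ) (hσ : 0 < σ) :
    (psi q s : ℝ) ≤ (s : ℝ) ^ σ * ∏ p ∈ (q + 1).primesBelow, (1 - (p : ℝ) ^ (-σ))⁻¹ := by
  have h := (EulerProduct.summable_and_hasSum_smoothNumbers_prod_primesBelow_geometric
    (f := pwH σ) (fun {p} hp => by
      rw [pwH_apply, Real.norm_eq_abs, abs_of_nonneg (Real.rpow_nonneg (Nat.cast_nonneg _) _)]
      exact Real.rpow_lt_one_of_one_lt_of_neg (by exact_mod_cast hp.one_lt) (by linarith))
    (q + 1)).2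
  simp only [pwH_apply] at h
  have h1 : ∑ j ∈ sms q s, (j : ℝ) ^ (-σ) ≤ ∏ p ∈ (q + 1).primesBelow, (1 - (p : ℝ) ^ (-σ))⁻¹ := by
    have hsub : ∀ j ∈ sms q s, j ∈ (q + 1).smoothNumbers := by
      intro j hj
      unfold sms at hj
      rw [mem_filter, mem_Icc] at hj
      rw [Nat.mem_smoothNumbers']
      intro p hp hpj
      exact Nat.lt_succ_of_le ((smth_iff q j hj.1.1).mp hj.2 p hp hpj)
    rw [← Finset.sum_subtype_of_mem (fun j : ℕ => (j : ℝ) ^ (-σ)) hsub]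
    exact sum_le_hasSum _ (fun i _ => Real.rpow_nonneg (Nat.cast_nonneg _) _) h
  have h2 : (psi q s : ℝ) ≤ (s : ℝ) ^ σ * ∑ j ∈ sms q s, (j : ℝ) ^ (-σ) := by
    unfold psi
    rw [mul_sum, card_eq_sum_ones]
    push_cast
    refine sum_le_sum fun j hj => ?_
    unfold sms at hj
    rw [mem_filter, mem_Icc] at hj
    have hj0 : (0 : ℝ) < j := by exact_mod_cast hj.1.1
    have hjs : (j : ℝ) ≤ s := by exact_mod_cast hj.1.2
    rw [Real.rpow_neg hj0.le, ← div_eq_mul_inv, le_div_iff₀ (Real.rpow_pos_of_pos hj0 _), one_mul]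
    exact Real.rpow_le_rpow hj0.le hjs hσ.le
  refine h2.trans (mul_le_mul_of_nonneg_left h1 (Real.rpow_nonneg (Nat.cast_nonneg _) _))

theorem psi_le (q s : ℕ) : psi q s ≤ s := by
  unfold psi sms
  refine (card_filter_le _ _).trans ?_
  rw [Nat.card_Icc]
  omega

theorem psi_mono (q r s : ℕ) (h : q ≤ r) : psi q s ≤ psi r s := by
  unfold psi
  apply card_le_card
  intro j hj
  unfold sms at hj ⊢
  rw [mem_filter] at hj ⊢
  exact ⟨hj.1, fun p hp h1 h2 => (hj.2 p hp h1 h2).trans h⟩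

/-- number of primes in a dyadic interval -/
theorem card_dyadic (i : ℕ) :
    i * ((Ico (2 ^ i) (2 ^ (i + 1))).filter Nat.Prime).card ≤ 2 * 2 ^ (i + 1) := by
  have h1 : (2 ^ i) ^ ((Ico (2 ^ i) (2 ^ (i + 1))).filter Nat.Prime).card ≤
      primorial (2 ^ (i + 1)) := by
    calc (2 ^ i) ^ ((Ico (2 ^ i) (2 ^ (i + 1))).filter Nat.Prime).card
        = ∏ p ∈ (Ico (2 ^ i) (2 ^ (i + 1))).filter Nat.Prime, 2 ^ i := by rw [prod_const]
      _ ≤ ∏ p ∈ (Ico (2 ^ i) (2 ^ (i + 1))).filter Nat.Prime, p := by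
          refine prod_le_prod' fun p hp => ?_
          rw [mem_filter, mem_Ico] at hp
          exact hp.1.1
      _ ≤ primorial (2 ^ (i + 1)) := by
          unfold primorial
          refine prod_le_prod_of_subset_of_one_le' ?_ fun p hp _ => ?_
          · intro p hp
            rw [mem_filter, mem_Ico] at hp
            rw [mem_filter, mem_range]
            exact ⟨by omega, hp.2⟩
          · rw [mem_filter] at hp
            exact hp.2.one_le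
  have h2 := h1.trans (primorial_le_four_pow _)
  rw [← pow_mul, show (4 : ℕ) = 2 ^ 2 by norm_num, ← pow_mul] at h2
  exact (Nat.pow_le_pow_iff_right (by norm_num)).mp h2

theorem sum_dyadic (i : ℕ) (hi : 1 ≤ i) :
    ∑ p ∈ (Ico (2 ^ i) (2 ^ (i + 1))).filter Nat.Prime, ((p : ℝ))⁻¹ ≤ 4 * ((i : ℝ))⁻¹ := by
  have h1 : ∑ p ∈ (Ico (2 ^ i) (2 ^ (i + 1))).filter Nat.Prime, ((p : ℝ))⁻¹ ≤
      ∑ p ∈ (Ico (2 ^ i) (2 ^ (i + 1))).filter Nat.Prime, ((2 : ℝ) ^ i)⁻¹ := by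
    refine sum_le_sum fun p hp => ?_
    rw [mem_filter, mem_Ico] at hp
    apply inv_anti₀ (by positivity)
    exact_mod_cast hp.1.1
  rw [sum_const, nsmul_eq_mul] at h1
  have h2 : (i : ℝ) * (((Ico (2 ^ i) (2 ^ (i + 1))).filter Nat.Prime).card : ℝ) ≤
      2 * 2 ^ (i + 1) := by exact_mod_cast card_dyadic i
  have hi0 : (0 : ℝ) < i := by exact_mod_cast hi
  refine h1.trans ?_
  rw [← div_eq_mul_inv, ← div_eq_mul_inv, div_le_div_iff₀ (by positivity) hi0]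
  calc (((Ico (2 ^ i) (2 ^ (i + 1))).filter Nat.Prime).card : ℝ) * i
      = i * (((Ico (2 ^ i) (2 ^ (i + 1))).filter Nat.Prime).card : ℝ) := mul_comm _ _
    _ ≤ 2 * 2 ^ (i + 1) := h2
    _ = 4 * 2 ^ i := by rw [pow_succ]; ring

theorem sum_inv_primes (m : ℕ) :
    ∑ p ∈ (2 ^ m : ℕ).primesBelow, (((p : ℕ) : ℝ))⁻¹ ≤ 4 * ∑ i ∈ Ico 1 m, ((i : ℝ))⁻¹ := by
  induction m with
  | zero =>
    have : (2 ^ 0 : ℕ).primesBelow = ∅ := by
      simp [Nat.primesBelow]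
      decide
    rw [this]
    simp
  | succ m ih =>
    rcases Nat.eq_zero_or_pos m with h | h
    · subst h
      have : (2 ^ (0 + 1) : ℕ).primesBelow = ∅ := by
        simp [Nat.primesBelow]
        decide
      rw [this]
      simp
    · have h1 : (2 ^ (m + 1)).primesBelow = (2 ^ m).primesBelow ∪
          (Ico (2 ^ m) (2 ^ (m + 1))).filter Nat.Prime := by
        ext p
        rw [mem_union, Nat.mem_primesBelow, Nat.mem_primesBelow, mem_filter, mem_Ico, pow_succ]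
        constructor
        · rintro ⟨h1, h2⟩
          rcases Nat.lt_or_ge p (2 ^ m) with h3 | h3
          · exact Or.inl ⟨h3, h2⟩
          · exact Or.inr ⟨⟨h3, h1⟩, h2⟩
        · rintro (h1 | h1)
          · exact ⟨by omega, h1.2⟩
          · exact ⟨h1.1.2, h1.2⟩
      have h2 : Disjoint (2 ^ m).primesBelow ((Ico (2 ^ m) (2 ^ (m + 1))).filter Nat.Prime) := by
        rw [disjoint_left]
        intro p hp hp2
        rw [Nat.mem_primesBelow] at hp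
        rw [mem_filter, mem_Ico] at hp2
        omega
      rw [h1, sum_union h2, sum_Ico_succ_top h, mul_add]
      exact add_le_add ih (sum_dyadic m h)

theorem sum_inv_log (m : ℕ) :
    ∑ i ∈ Ico 1 m, ((i : ℝ))⁻¹ ≤ 1 + Real.log m := by
  have h1 := harmonic_le_one_add_log m
  refine le_trans ?_ h1
  rw [harmonic_eq_sum_Icc]
  push_cast
  refine sum_le_sum_of_subset_of_nonneg ?_ fun i _ _ => by positivity
  intro i hi
  rw [mem_Ico] at hi
  rw [mem_Icc]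
  omega

theorem factor_le (x : ℝ) (h0 : 0 ≤ x) (h1 : x ≤ 3 / 4) : (1 - x)⁻¹ ≤ Real.exp (4 * x) := by
  have h2 : (0 : ℝ) < 1 - x := by linarith
  have h3 : (1 - x)⁻¹ ≤ 1 + 4 * x := by
    rw [inv_le_iff_one_le_mul₀ h2]
    nlinarith
  have h4 := Real.add_one_le_exp (4 * x)
  linarith

theorem psi_two_pow (t s : ℕ) (η : ℝ) (h1 : η ≤ 1 / 2) (h0 : 0 ≤ η) :
    (psi (2 ^ t) s : ℝ) ≤ (s : ℝ) ^ (1 - η) *
      Real.exp (16 * ((2 : ℝ) ^ t) ^ η * (1 + Real.log ((t + 1 : ℕ) : ℝ))) := by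
  refine (rankin (2 ^ t) s (1 - η) (by linarith)).trans ?_
  refine mul_le_mul_of_nonneg_left ?_ (Real.rpow_nonneg (Nat.cast_nonneg _) _)
  have h2 : ∀ p ∈ (2 ^ t + 1 : ℕ).primesBelow,
      (1 - ((p : ℕ) : ℝ) ^ (-(1 - η)))⁻¹ ≤ Real.exp (4 * (((2 : ℝ) ^ t) ^ η * ((p : ℕ) : ℝ)⁻¹)) := by
    intro p hp
    rw [Nat.mem_primesBelow] at hp
    have hp2 : (2 : ℝ) ≤ p := by exact_mod_cast hp.2.two_le
    have hp0 : (0 : ℝ) < p := by linarith
    have hpt : (p : ℝ) ≤ 2 ^ t := by exact_mod_cast Nat.lt_succ_iff.mp hp.1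
    have h3 : (p : ℝ) ^ (-(1 - η)) = (p : ℝ) ^ η * (p : ℝ)⁻¹ := by
      rw [show -(1 - η) = η + (-1) by ring, Real.rpow_add hp0, Real.rpow_neg_one]
    have h4 : (p : ℝ) ^ (-(1 - η)) ≤ 3 / 4 := by
      have h5 : (p : ℝ) ^ (-(1 - η)) ≤ (2 : ℝ) ^ (-(1 - η)) :=
        Real.rpow_le_rpow_of_nonpos (by norm_num) hp2 (by linarith)
      have h6 : (2 : ℝ) ^ (-(1 - η)) ≤ (2 : ℝ) ^ (-(1 / 2) : ℝ) :=
        Real.rpow_le_rpow_of_exponent_le (by norm_num) (by linarith)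
      have h7 : (2 : ℝ) ^ (-(1 / 2) : ℝ) ≤ 3 / 4 := by
        have h8 : ((2 : ℝ) ^ (-(1 / 2) : ℝ)) ^ 2 = 1 / 2 := by
          rw [← Real.rpow_natCast, ← Real.rpow_mul (by norm_num)]
          norm_num
        nlinarith [Real.rpow_nonneg (show (0 : ℝ) ≤ 2 by norm_num) (-(1 / 2) : ℝ)]
      linarith
    refine (factor_le _ (Real.rpow_nonneg hp0.le _) h4).trans ?_
    rw [Real.exp_le_exp, h3]
    refine mul_le_mul_of_nonneg_left ?_ (by norm_num)
    refine mul_le_mul_of_nonneg_right ?_ (by positivity)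
    exact Real.rpow_le_rpow hp0.le hpt h0
  have h3 : ∏ p ∈ (2 ^ t + 1 : ℕ).primesBelow, (1 - ((p : ℕ) : ℝ) ^ (-(1 - η)))⁻¹ ≤
      ∏ p ∈ (2 ^ t + 1 : ℕ).primesBelow, Real.exp (4 * (((2 : ℝ) ^ t) ^ η * ((p : ℕ) : ℝ)⁻¹)) := by
    refine prod_le_prod (fun p hp => ?_) h2
    rw [Nat.mem_primesBelow] at hp
    have : (p : ℝ) ^ (-(1 - η)) < 1 :=
      Real.rpow_lt_one_of_one_lt_of_neg (by exact_mod_cast hp.2.one_lt) (by linarith)
    rw [inv_nonneg]
    linarith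
  refine h3.trans ?_
  rw [← Real.exp_sum, Real.exp_le_exp, ← mul_sum, ← mul_sum]
  have h4 : ∑ p ∈ (2 ^ t + 1 : ℕ).primesBelow, ((p : ℕ) : ℝ)⁻¹ ≤
      ∑ p ∈ (2 ^ (t + 1) : ℕ).primesBelow, ((p : ℕ) : ℝ)⁻¹ := by
    refine sum_le_sum_of_subset_of_nonneg ?_ fun i _ _ => by positivity
    intro p hp
    rw [Nat.mem_primesBelow] at hp ⊢
    have : 1 ≤ 2 ^ t := Nat.one_le_two_pow
    rw [pow_succ]
    exact ⟨by omega, hp.2⟩
  have h5 := (h4.trans (sum_inv_primes (t + 1))).trans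
    (mul_le_mul_of_nonneg_left (sum_inv_log (t + 1)) (by norm_num))
  have h6 : (0 : ℝ) ≤ ((2 : ℝ) ^ t) ^ η := by positivity
  calc 4 * (((2 : ℝ) ^ t) ^ η * ∑ p ∈ (2 ^ t + 1 : ℕ).primesBelow, ((p : ℕ) : ℝ)⁻¹)
      ≤ 4 * (((2 : ℝ) ^ t) ^ η * (4 * (1 + Real.log ((t + 1 : ℕ) : ℝ)))) :=
        mul_le_mul_of_nonneg_left (mul_le_mul_of_nonneg_left h5 h6) (by norm_num)
    _ = 16 * ((2 : ℝ) ^ t) ^ η * (1 + Real.log ((t + 1 : ℕ) : ℝ)) := by ring

end Pool.Agent.Lib.MP_4b91fc_lc
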