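import Pool.Agent.Lib.MP_4b91fc_lc.Un

set_option autoImplicit false

/-!
# Stripping a prime from all parts
-/

namespace Pool.Agent.Lib.MP_4b91fc_lc

open Equiv Function Finset

/-- divide by `p` once if possible -/
def stp (p x : ℕ) : ℕ := if p ∣ x then x / p else x

/-- divide by `p` as often as possible (at most `n` times) -/
def str (n p x : ℕ) : ℕ := (stp p)^[n] x

theorem stp_le (p x : ℕ) : stp p x ≤ x := by
  unfold stp
  split_ifs
  · exact Nat.div_le_self _ _
  · exact le_rfl

theorem stp_dvd (p x : ℕ) : stp p x ∣ x := by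
  unfold stp
  split_ifs with h
  · exact Nat.div_dvd_of_dvd h
  · exact dvd_rfl

theorem stp_zero (p : ℕ) : stp p 0 = 0 := by
  unfold stp
  simp

theorem stp_pos (p x : ℕ) (hx : 0 < x) : 0 < stp p x :=
  Nat.pos_of_dvd_of_pos (stp_dvd p x) hx

theorem stp_gcd (p x k : ℕ) (hp : p.Prime) (hk : ¬ p ∣ k) :
    Nat.gcd (stp p x) k = Nat.gcd x k := by
  unfold stp
  split_ifs with h
  · obtain ⟨y, rfl⟩ := h
    rw [Nat.mul_div_cancel_left _ hp.pos]
    exact (Nat.Coprime.gcd_mul_left_cancel _ ((Nat.Prime.coprime_iff_not_dvd hp).mpr hk)).symm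
  · rfl

theorem stp_mod (p x : ℕ) (hp : p % 2 = 1) : stp p x % 2 = x % 2 := by
  unfold stp
  split_ifs with h
  · obtain ⟨y, rfl⟩ := h
    rw [Nat.mul_div_cancel_left _ (by omega), Nat.mul_mod, hp, one_mul, Nat.mod_mod]
  · rfl

theorem str_le (n p x : ℕ) : str n p x ≤ x := by
  unfold str
  induction n generalizing x with
  | zero => exact le_rfl
  | succ n ih =>
    rw [iterate_succ_apply]
    exact (ih _).trans (stp_le p x)

theorem str_dvd (n p x : ℕ) : str n p x ∣ x := by
  unfold str
  induction n generalizing x with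
  | zero => exact dvd_rfl
  | succ n ih =>
    rw [iterate_succ_apply]
    exact (ih _).trans (stp_dvd p x)

theorem str_pos (n p x : ℕ) (hx : 0 < x) : 0 < str n p x :=
  Nat.pos_of_dvd_of_pos (str_dvd n p x) hx

theorem str_gcd (n p x k : ℕ) (hp : p.Prime) (hk : ¬ p ∣ k) :
    Nat.gcd (str n p x) k = Nat.gcd x k := by
  unfold str
  induction n generalizing x with
  | zero => rfl
  | succ n ih =>
    rw [iterate_succ_apply, ih, stp_gcd p x k hp hk]

theorem str_mod (n p x : ℕ) (hp : p % 2 = 1) : str n p x % 2 = x % 2 := by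
  unfold str
  induction n generalizing x with
  | zero => rfl
  | succ n ih =>
    rw [iterate_succ_apply, ih, stp_mod p x hp]

theorem str_eq_self (n p x : ℕ) (h : ¬ p ∣ x) : str n p x = x := by
  unfold str
  induction n with
  | zero => rfl
  | succ n ih =>
    rw [iterate_succ_apply]
    have : stp p x = x := by
      unfold stp
      rw [if_neg h]
    rw [this, ih]

theorem not_dvd_str (n p x : ℕ) (hp : 2 ≤ p) (hx : 0 < x) (hxn : x ≤ n) : ¬ p ∣ str n p x := by
  unfold str
  induction n generalizing x with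
  | zero => omega
  | succ n ih =>
    rw [iterate_succ_apply]
    by_cases h : p ∣ x
    · have h1 : stp p x = x / p := by
        unfold stp
        rw [if_pos h]
      have h2 : x / p < x := Nat.div_lt_self hx hp
      apply ih
      · rw [h1]
        exact Nat.div_pos (Nat.le_of_dvd hx h) (by omega)
      · rw [h1]
        omega
    · have h1 : stp p x = x := by
        unfold stp
        rw [if_neg h]
      rw [h1]
      have h2 := str_eq_self n p x h
      unfold str at h2
      rw [h2]
      exact h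

theorem mul_str_le (n p x : ℕ) (hn : 0 < n) (h : p ∣ x) : p * str n p x ≤ x := by
  obtain ⟨m, rfl⟩ : ∃ m, n = m + 1 := ⟨n - 1, by omega⟩
  unfold str
  rw [iterate_succ_apply]
  have h1 : stp p x = x / p := by
    unfold stp
    rw [if_pos h]
  rw [h1]
  have h2 := str_le m p (x / p)
  unfold str at h2
  calc p * (stp p)^[m] (x / p) ≤ p * (x / p) := Nat.mul_le_mul_left _ h2
    _ = x := Nat.mul_div_cancel' h

variable {n : ℕ}

/-- the multiplicities after stripping -/
def strV (n p : ℕ) (a : ℕ → ℕ) : ℕ → ℕ :=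
  fun j => ∑ i ∈ range (n + 1), if str n p i = j then a i else 0

theorem sum_strV (p : ℕ) (a g : ℕ → ℕ) :
    ∑ j ∈ range (n + 1), strV n p a j * g j = ∑ i ∈ range (n + 1), a i * g (str n p i) := by
  unfold strV
  simp_rw [sum_mul]
  rw [sum_comm]
  refine sum_congr rfl fun i hi => ?_
  simp_rw [ite_mul, zero_mul]
  rw [sum_ite_eq, if_pos]
  rw [mem_range] at hi ⊢
  have := str_le n p i
  omega

/-- linear form -/
def lin (n : ℕ) (a : ℕ → ℕ) (k : ℕ) : ℕ := ∑ i ∈ range (n + 1), a i * Nat.gcd i k

theorem qf_eq_lin (a : ℕ → ℕ) : qf n a = ∑ k ∈ range (n + 1), a k * lin n a k := by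
  unfold qf lin
  refine sum_congr rfl fun k _ => ?_
  rw [mul_sum]
  refine sum_congr rfl fun l _ => ?_
  rw [Nat.gcd_comm]
  ring

theorem sum_addAt (a g : ℕ → ℕ) (k m : ℕ) (hk : k ≤ n) :
    ∑ i ∈ range (n + 1), addAt a k m i * g i = ∑ i ∈ range (n + 1), a i * g i + m * g k := by
  unfold addAt
  simp_rw [add_mul]
  rw [sum_add_distrib]
  congr 1
  simp_rw [ite_mul, zero_mul]
  rw [sum_ite_eq', if_pos (mem_range.mpr (by omega))]

theorem lin_addAt (a : ℕ → ℕ) (k m l : ℕ) (hk : k ≤ n) :
    lin n (addAt a k m) l = lin n a l + m * Nat.gcd k l :=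
  sum_addAt a (fun i => Nat.gcd i l) k m hk

theorem qf_addAt (a : ℕ → ℕ) (k m : ℕ) (hk : k ≤ n) :
    qf n (addAt a k m) = qf n a + 2 * (m * lin n a k) + m * m * k := by
  rw [qf_eq_lin, sum_addAt a (fun i => lin n (addAt a k m) i) k m hk]
  simp_rw [lin_addAt a k m _ hk, mul_add]
  rw [sum_add_distrib, ← qf_eq_lin, Nat.gcd_self]
  have h1 : ∑ i ∈ range (n + 1), a i * (m * Nat.gcd k i) = m * lin n a k := by
    unfold lin
    rw [mul_sum]
    refine sum_congr rfl fun i _ => ?_
    rw [Nat.gcd_comm]
    ring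
  rw [h1]
  ring

theorem od_addAt (a : ℕ → ℕ) (k m : ℕ) (hk : k ≤ n) :
    od n (addAt a k m) = od n a + m * (k % 2) :=
  sum_addAt a (fun i => i % 2) k m hk

theorem qf_even (M : ℕ) (a : ℕ → ℕ) : ∃ e, qf M a = od M a + 2 * e := by
  have sq : ∀ x k : ℕ, ∃ e, x * x * k = x * (k % 2) + 2 * e := by
    intro x k
    have h1 : x * (k % 2) ≤ x * x * k := by
      rcases Nat.eq_zero_or_pos x with h | h
      · subst h
        simp
      · have h2 : k % 2 ≤ k := Nat.mod_le _ _
        have h3 : x * k ≤ x * (x * k) := Nat.mul_le_mul_left _ (Nat.le_mul_of_pos_left _ h)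
        calc x * (k % 2) ≤ x * k := Nat.mul_le_mul_left _ h2
          _ ≤ x * (x * k) := h3
          _ = x * x * k := by ring
    have h2 : (x * x * k) % 2 = (x * (k % 2)) % 2 := by
      rw [Nat.mul_mod, Nat.mul_mod x x, Nat.mul_mod x (k % 2)]
      rcases Nat.mod_two_eq_zero_or_one x with h | h <;>
        rcases Nat.mod_two_eq_zero_or_one k with h' | h' <;> simp [h, h']
    exact ⟨(x * x * k - x * (k % 2)) / 2, by omega⟩
  induction M with
  | zero =>
    obtain ⟨e, he⟩ := sq (a 0) 0
    exact ⟨0, by simp [qf, od]⟩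
  | succ M ih =>
    obtain ⟨e, he⟩ := ih
    obtain ⟨e', he'⟩ := sq (a (M + 1)) (M + 1)
    refine ⟨e + e' + a (M + 1) * ∑ k ∈ range (M + 1), a k * Nat.gcd k (M + 1), ?_⟩
    have h1 : qf (M + 1) a = qf M a +
        2 * (a (M + 1) * ∑ k ∈ range (M + 1), a k * Nat.gcd k (M + 1)) +
        a (M + 1) * a (M + 1) * (M + 1) := by
      unfold qf
      rw [sum_range_succ (n := M + 1)]
      simp_rw [sum_range_succ _ (M + 1)]
      rw [sum_add_distrib, Nat.gcd_self]
      have h2 : ∑ k ∈ range (M + 1), a k * a (M + 1) * Nat.gcd k (M + 1) =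
          a (M + 1) * ∑ k ∈ range (M + 1), a k * Nat.gcd k (M + 1) := by
        rw [mul_sum]
        exact sum_congr rfl fun i _ => by ring
      have h3 : ∑ k ∈ range (M + 1), a (M + 1) * a k * Nat.gcd (M + 1) k =
          a (M + 1) * ∑ k ∈ range (M + 1), a k * Nat.gcd k (M + 1) := by
        rw [mul_sum]
        refine sum_congr rfl fun i _ => ?_
        rw [Nat.gcd_comm]
        ring
      rw [h2, h3]
      ring
    have h2 : od (M + 1) a = od M a + a (M + 1) * ((M + 1) % 2) := by
      unfold od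
      rw [sum_range_succ (n := M + 1)]
    rw [h1, h2, he, he']
    ring

theorem two_en (a : ℕ → ℕ) : qf n a = od n a + 2 * en n a := by
  obtain ⟨e, he⟩ := qf_even n a
  unfold en
  omega

theorem qf_strV (p : ℕ) (a : ℕ → ℕ) : qf n (strV n p a) =
    ∑ i ∈ range (n + 1), ∑ j ∈ range (n + 1), a i * a j * Nat.gcd (str n p i) (str n p j) := by
  rw [qf_eq_lin, sum_strV p a (fun j => lin n (strV n p a) j)]
  refine sum_congr rfl fun i _ => ?_
  unfold lin
  rw [sum_strV p a (fun j => Nat.gcd j (str n p i)), mul_sum]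
  refine sum_congr rfl fun j _ => ?_
  rw [Nat.gcd_comm]
  ring

theorem od_strV (p : ℕ) (a : ℕ → ℕ) (hp : p % 2 = 1) : od n (strV n p a) = od n a := by
  unfold od
  rw [sum_strV p a (fun j => j % 2)]
  exact sum_congr rfl fun i _ => by rw [str_mod n p i hp]

theorem en_strV_le (p : ℕ) (a : ℕ → ℕ) (hp : p % 2 = 1) : en n (strV n p a) ≤ en n a := by
  have h1 := two_en (n := n) (strV n p a)
  have h2 := two_en (n := n) a
  have h3 := od_strV (n := n) p a hp
  have h4 : qf n (strV n p a) ≤ qf n a := by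
    rw [qf_strV]
    unfold qf
    refine sum_le_sum fun i _ => sum_le_sum fun j _ => Nat.mul_le_mul_left _ ?_
    rcases Nat.eq_zero_or_pos i with hi | hi
    · subst hi
      have : str n p 0 = 0 := Nat.le_zero.mp (str_le n p 0)
      rw [this, Nat.gcd_zero_left, Nat.gcd_zero_left]
      exact str_le n p j
    · exact Nat.le_of_dvd (Nat.gcd_pos_of_pos_left _ hi)
        (Nat.gcd_dvd_gcd_of_dvd_left _ (str_dvd n p i) |>.trans
          (Nat.gcd_dvd_gcd_of_dvd_right _ (str_dvd n p j)))
  omega

theorem strV_addAt (p : ℕ) (a : ℕ → ℕ) (k m : ℕ) (hk : k ≤ n) (hpk : ¬ p ∣ k) :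
    strV n p (addAt a k m) = addAt (strV n p a) k m := by
  funext j
  unfold strV addAt
  have h1 : ∀ i, (if str n p i = j then a i + (if i = k then m else 0) else 0) =
      (if str n p i = j then a i else 0) + (if i = k then (if j = k then m else 0) else 0) := by
    intro i
    by_cases hi : i = k
    · subst hi
      rw [str_eq_self n p i hpk]
      by_cases hj : i = j
      · subst hj
        simp
      · have : ¬ j = i := fun h => hj h.symm
        simp [hj, this]
    · simp [hi]
  simp_rw [h1]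
  rw [sum_add_distrib, sum_ite_eq', if_pos (mem_range.mpr (by omega))]

/-- stripping does not change the remaining sum, up to a power of two -/
theorem G_strip (p : ℕ) (hp : p.Prime) (hp2 : p % 2 = 1) (ks : List ℕ) :
    ∀ (a : ℕ → ℕ) (t : ℕ), (∀ k ∈ ks, k ≤ n ∧ ¬ p ∣ k) →
      G n ks a t = 2 ^ (en n a - en n (strV n p a)) * G n ks (strV n p a) t := by
  induction ks with
  | nil =>
    intro a t _
    unfold G
    split_ifs
    · rw [← pow_add, Nat.sub_add_cancel (en_strV_le p a hp2)]
    · rfl
  | cons k ks ih =>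
    intro a t h
    have hk := h k List.mem_cons_self
    rw [G, G, mul_sum]
    refine sum_congr rfl fun m _ => ?_
    split_ifs with hm
    · rw [ih (addAt a k m) (t + k * m) (fun j hj => h j (List.mem_cons_of_mem _ hj)),
        strV_addAt p a k m hk.1 hk.2]
      have h1 := two_en (n := n) (addAt a k m)
      have h2 := two_en (n := n) (addAt (strV n p a) k m)
      have h3 := two_en (n := n) a
      have h4 := two_en (n := n) (strV n p a)
      rw [qf_addAt _ _ _ hk.1, od_addAt _ _ _ hk.1] at h1 h2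
      rw [od_strV p a hp2] at h2 h4
      have h5 : lin n (strV n p a) k = lin n a k := by
        unfold lin
        rw [sum_strV p a (fun i => Nat.gcd i k)]
        exact sum_congr rfl fun i _ => by rw [str_gcd n p i k hp hk.2]
      rw [h5] at h2
      have h6 : en n (addAt a k m) - en n (addAt (strV n p a) k m) =
          en n a - en n (strV n p a) := by
        omega
      rw [h6]
      ring
    · rfl

end Pool.Agent.Lib.MP_4b91fc_lc
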